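import Pool.Agent.N982.BQ.Stm

/-!
Project BQ, task ALG: closure properties of label-smooth curves.
-/

set_option autoImplicit false

open Set MeasureTheory
open scoped ContDiff

namespace Pool.Agent.N982.BQ.Alg

noncomputable section

open Pool.Agent.N982.BQ

lemma P_k0 (f : V) : P f k0 = 0 := by
  rw [P_apply]
  show ∫ y in (0 : ℝ)..(0 : ℝ), ext f y = 0
  exact intervalIntegral.integral_same

lemma algebraMap_apply' (c : ℝ) (x : K) : (algebraMap ℝ V c) x = c := rfl

/-- the primitive as a function on the line -/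
lemma hasDerivAt_prim (f : V) (y : ℝ) :
    HasDerivAt (fun z => ∫ s in (0 : ℝ)..z, ext f s) (ext f y) y :=
  intervalIntegral.integral_hasDerivAt_right ((continuous_ext f).intervalIntegrable _ _)
    (continuous_ext f).stronglyMeasurable.stronglyMeasurableAtFilter
    (continuous_ext f).continuousAt

/-- the product rule for primitives -/
lemma prod (f g f1 g1 : V) (hf : f = algebraMap ℝ V (f k0) + P f1)
    (hg : g = algebraMap ℝ V (g k0) + P g1) :
    f * g = algebraMap ℝ V ((f * g) k0) + P (f1 * g + f * g1) := by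
  ext x
  have hfx : ∀ y : K, f y = f k0 + ∫ s in (0 : ℝ)..y, ext f1 s := by
    intro y
    conv_lhs => rw [hf]
    rw [ContinuousMap.add_apply, P_apply, algebraMap_apply']
  have hgx : ∀ y : K, g y = g k0 + ∫ s in (0 : ℝ)..y, ext g1 s := by
    intro y
    conv_lhs => rw [hg]
    rw [ContinuousMap.add_apply, P_apply, algebraMap_apply']
  have hsub : ∀ y ∈ uIcc (0 : ℝ) (x : ℝ), y ∈ Icc (-a) a := by
    intro y hy
    have h0 : (0 : ℝ) ∈ Icc (-a) a := k0.2
    exact (uIcc_subset_Icc h0 x.2) hy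
  have hderiv : ∀ y : ℝ, HasDerivAt
      (fun z => (f k0 + ∫ s in (0 : ℝ)..z, ext f1 s) * (g k0 + ∫ s in (0 : ℝ)..z, ext g1 s))
      (ext f1 y * (g k0 + ∫ s in (0 : ℝ)..y, ext g1 s)
        + (f k0 + ∫ s in (0 : ℝ)..y, ext f1 s) * ext g1 y) y := fun y =>
    ((hasDerivAt_prim f1 y).const_add (f k0)).mul ((hasDerivAt_prim g1 y).const_add (g k0))
  have hc1 : Continuous (fun y => f k0 + ∫ s in (0 : ℝ)..y, ext f1 s) :=
    continuous_iff_continuousAt.2 fun y => ((hasDerivAt_prim f1 y).const_add (f k0)).continuousAt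
  have hc2 : Continuous (fun y => g k0 + ∫ s in (0 : ℝ)..y, ext g1 s) :=
    continuous_iff_continuousAt.2 fun y => ((hasDerivAt_prim g1 y).const_add (g k0)).continuousAt
  have hFTC := intervalIntegral.integral_eq_sub_of_hasDerivAt (a := (0 : ℝ)) (b := (x : ℝ))
    (fun y _ => hderiv y)
    ((((continuous_ext f1).mul hc2).add (hc1.mul (continuous_ext g1))).intervalIntegrable _ _)
  rw [ContinuousMap.add_apply, ContinuousMap.mul_apply, P_apply, algebraMap_apply',
    ContinuousMap.mul_apply]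
  have hcongr : ∫ y in (0 : ℝ)..x, ext (f1 * g + f * g1) y
      = ∫ y in (0 : ℝ)..x, (ext f1 y * (g k0 + ∫ s in (0 : ℝ)..y, ext g1 s)
        + (f k0 + ∫ s in (0 : ℝ)..y, ext f1 s) * ext g1 y) := by
    apply intervalIntegral.integral_congr
    intro y hy
    have hy' := hsub y hy
    show ext (f1 * g + f * g1) y = ext f1 y * (g k0 + ∫ s in (0 : ℝ)..y, ext g1 s)
        + (f k0 + ∫ s in (0 : ℝ)..y, ext f1 s) * ext g1 y
    rw [ext_of_mem _ hy', ext_of_mem _ hy', ext_of_mem _ hy', ContinuousMap.add_apply,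
      ContinuousMap.mul_apply, ContinuousMap.mul_apply, hfx ⟨y, hy'⟩, hgx ⟨y, hy'⟩]
  rw [hcongr, hFTC, hfx x, hgx x, intervalIntegral.integral_same, intervalIntegral.integral_same]
  ring

variable {J : Set ℝ}

lemma dx_contDiffOn : ∀ {n : ℕ} {v : ℝ → V}, Dx J n v → ContDiffOn ℝ ∞ v J
  | 0, _, h => h
  | _ + 1, _, h => h.1

lemma dx_pred : ∀ {n : ℕ} {v : ℝ → V}, Dx J (n + 1) v → Dx J n v
  | 0, _, h => h.1
  | _ + 1, _, ⟨h, v₁, h1, h2⟩ => ⟨h, v₁, dx_pred h1, h2⟩

lemma dx_mono {n : ℕ} {v : ℝ → V} (h : Dx J n v) : ∀ m ≤ n, Dx J m v := by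
  induction n with
  | zero =>
    intro m hm
    rw [Nat.le_zero.1 hm]
    exact h
  | succ n ih =>
    intro m hm
    rcases Nat.lt_or_ge m (n + 1) with h1 | h1
    · exact ih (dx_pred h) m (by omega)
    · rw [le_antisymm hm h1]
      exact h

lemma dx_add : ∀ {n : ℕ} {u v : ℝ → V}, Dx J n u → Dx J n v → Dx J n (fun t => u t + v t)
  | 0, _, _, hu, hv => ContDiffOn.add hu hv
  | _ + 1, u, v, ⟨hu, u₁, hu1, hu2⟩, ⟨hv, v₁, hv1, hv2⟩ =>
    ⟨hu.add hv, fun t => u₁ t + v₁ t, dx_add hu1 hv1, fun t ht => by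
      show u t + v t = algebraMap ℝ V ((u t + v t) k0) + P (u₁ t + v₁ t)
      rw [map_add, ContinuousMap.add_apply, map_add]
      conv_lhs => rw [hu2 t ht, hv2 t ht]
      abel⟩

lemma dx_mul : ∀ {n : ℕ} {u v : ℝ → V}, Dx J n u → Dx J n v → Dx J n (fun t => u t * v t)
  | 0, _, _, hu, hv => ContDiffOn.mul hu hv
  | n + 1, u, v, hu, hv => by
    obtain ⟨hu0, u₁, hu1, hu2⟩ := id hu
    obtain ⟨hv0, v₁, hv1, hv2⟩ := id hv
    exact ⟨hu0.mul hv0, fun t => u₁ t * v t + u t * v₁ t,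
      dx_add (dx_mul hu1 (dx_pred hv)) (dx_mul (dx_pred hu) hv1),
      fun t ht => prod (u t) (v t) _ _ (hu2 t ht) (hv2 t ht)⟩

lemma dx_P {n : ℕ} {u : ℝ → V} (h : Dx J n u) : Dx J (n + 1) (fun t => P (u t)) :=
  ⟨P.contDiff.comp_contDiffOn (dx_contDiffOn h), u, h, fun t _ => by
    rw [P_k0, map_zero, zero_add]⟩

theorem main : S_ALG := by
  intro J _ n u v hu hv
  exact ⟨dx_add hu hv, dx_mul hu hv, dx_P hu, fun m hm => dx_mono hu m hm⟩

end

end Pool.Agent.N982.BQ.Alg
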