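import Pool.Agent.N982.BQ.Stm

/-!
The blow-up criterion in sup norm.
-/

set_option autoImplicit false

open Set MeasureTheory
open scoped ContDiff

namespace Pool.Agent.N982.BQ.Crit

open Pool.Agent.N982.BQ

noncomputable section

/-! ### Pointwise bounds -/

lemma ext_mul (f g : V) (x : ℝ) : ext (f * g) x = ext f x * ext g x := rfl

/-- The primitive of a function which is bounded by `c j²`. -/
lemma abs_P_le (g j : V) (c : ℝ) (h : ∀ y : K, |g y| ≤ c * (j y * j y)) (x : K) :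
    |P g x| ≤ |c * P (j * j) x| := by
  rw [P_apply, P_apply, ← intervalIntegral.integral_const_mul]
  refine intervalIntegral.norm_integral_le_abs_of_norm_le (f := fun y => ext g y)
    (g := fun y => c * ext (j * j) y) (Filter.Eventually.of_forall fun y => ?_)
    ((continuous_const.mul (continuous_ext _)).intervalIntegrable _ _)
  exact h _

lemma abs_Ph_le (j : V) (hev : ∀ x y : K, (y : ℝ) = -x → j y = j x) (ha : Ph j ka = a) (x : K) :
    |Ph j x| ≤ a := by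
  have hc := continuous_ext (j * j)
  have hnn : ∀ y, 0 ≤ ext (j * j) y := fun y => mul_self_nonneg _
  have hint : ∀ c d, IntervalIntegrable (ext (j * j)) volume c d :=
    fun c d => hc.intervalIntegrable c d
  -- nonnegative arguments
  have h1 : ∀ s : ℝ, 0 ≤ s → s ≤ a → 0 ≤ (∫ y in (0 : ℝ)..s, ext (j * j) y) ∧
      (∫ y in (0 : ℝ)..s, ext (j * j) y) ≤ a := by
    intro s hs hs'
    have h2 : (∫ y in (0 : ℝ)..a, ext (j * j) y) = a := ha
    have h3 := intervalIntegral.integral_add_adjacent_intervals (hint 0 s) (hint s a)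
    have h4 : 0 ≤ ∫ y in s..a, ext (j * j) y :=
      intervalIntegral.integral_nonneg hs' fun y _ => hnn y
    exact ⟨intervalIntegral.integral_nonneg hs fun y _ => hnn y, by linarith⟩
  have hx := x.2
  rw [Ph, P_apply]
  by_cases h0 : 0 ≤ (x : ℝ)
  · obtain ⟨h2, h3⟩ := h1 x h0 hx.2
    rw [abs_of_nonneg h2]
    exact h3
  · push Not at h0
    obtain ⟨h2, h3⟩ := h1 (-x) (by linarith) (by linarith [hx.1])
    have h4 : (∫ y in (0 : ℝ)..x, ext (j * j) y) = -∫ y in (0 : ℝ)..(-x), ext (j * j) y := by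
      have h5 : (∫ y in (0 : ℝ)..(-x), ext (j * j) (-y)) = ∫ y in (x : ℝ)..0, ext (j * j) y := by
        rw [intervalIntegral.integral_comp_neg (fun y => ext (j * j) y), neg_neg, neg_zero]
      have h6 : (∫ y in (0 : ℝ)..(-x), ext (j * j) y) =
          ∫ y in (0 : ℝ)..(-x), ext (j * j) (-y) := by
        apply intervalIntegral.integral_congr
        intro y hy
        rw [uIcc_of_le (by linarith)] at hy
        have hy1 : y ∈ Icc (-a) a := ⟨by linarith [hy.1, a_pos], by linarith [hy.2, hx.1]⟩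
        have hy2 : -y ∈ Icc (-a) a := ⟨by linarith [hy1.2], by linarith [hy1.1]⟩
        change ext (j * j) y = ext (j * j) (-y)
        rw [ext_of_mem _ hy1, ext_of_mem _ hy2, ContinuousMap.mul_apply, ContinuousMap.mul_apply,
          hev ⟨y, hy1⟩ ⟨-y, hy2⟩ rfl]
      rw [h6, h5, intervalIntegral.integral_symm]
    rw [h4, abs_neg, abs_of_nonneg h2]
    exact h3

section Bounds

variable {j w : V}

lemma sn_apply (x : K) : sn j x = Real.sin (Ph j x) := rfl
lemma cn_apply (x : K) : cn j x = Real.cos (Ph j x) := rfl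

lemma S2_apply (x : K) : S2 j x = Real.sin (2 * Ph j x) := by
  rw [Real.sin_two_mul]; rfl

lemma C2_apply (x : K) : C2 j x = Real.cos (2 * Ph j x) := by
  rw [Real.cos_two_mul']
  change Real.cos (Ph j x) * Real.cos (Ph j x) - Real.sin (Ph j x) * Real.sin (Ph j x) = _
  ring

lemma abs_S2 (x : K) : |S2 j x| ≤ 1 := by rw [S2_apply]; exact Real.abs_sin_le_one _
lemma abs_C2 (x : K) : |C2 j x| ≤ 1 := by rw [C2_apply]; exact Real.abs_cos_le_one _

lemma abs_M_le (hPh : ∀ x, |Ph j x| ≤ a) (m : V) (hm : ∀ x, |m x| ≤ 1) (x : K) :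
    |P (w * m * (j * j)) x| ≤ ‖w‖ * a := by
  refine (abs_P_le _ j ‖w‖ (fun y => ?_) x).trans ?_
  · rw [ContinuousMap.mul_apply, ContinuousMap.mul_apply, ContinuousMap.mul_apply, abs_mul,
      abs_mul, abs_mul_self]
    have h1 : |w y| ≤ ‖w‖ := w.norm_coe_le_norm y
    have h2 := hm y
    have h3 : |w y| * |m y| ≤ ‖w‖ * 1 := mul_le_mul h1 h2 (abs_nonneg _) (norm_nonneg _)
    rw [mul_one] at h3
    exact mul_le_mul_of_nonneg_right h3 (mul_self_nonneg _)
  · rw [abs_mul, abs_of_nonneg (norm_nonneg w)]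
    exact mul_le_mul_of_nonneg_left (hPh x) (norm_nonneg _)

lemma abs_Av_le (hPh : ∀ x, |Ph j x| ≤ a) (x : K) : |Av j w x| ≤ 2 * (‖w‖ * a) := by
  have h1 := abs_M_le (w := w) hPh (C2 j) abs_C2
  have e1 : Av j w x = M1 j w x - (M1 j w ka + M1 j w kma) / 2 := rfl
  rw [e1]
  have a1 := abs_le.1 (h1 x)
  have a2 := abs_le.1 (h1 ka)
  have a3 := abs_le.1 (h1 kma)
  have m1 : M1 j w x = P (w * C2 j * (j * j)) x := rfl
  have m2 : M1 j w ka = P (w * C2 j * (j * j)) ka := rfl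
  have m3 : M1 j w kma = P (w * C2 j * (j * j)) kma := rfl
  rw [m1, m2, m3, abs_le]
  constructor <;> linarith [a1.1, a1.2, a2.1, a2.2, a3.1, a3.2]

lemma abs_M2_le (hPh : ∀ x, |Ph j x| ≤ a) (x : K) : |M2 j w x| ≤ ‖w‖ * a :=
  abs_M_le hPh (S2 j) abs_S2 x

lemma a_lt : a < 1 := by
  unfold a
  linarith [Real.pi_lt_four]

lemma abs_Pd_le (hPh : ∀ x, |Ph j x| ≤ a) (x : K) : |Pd j w x| ≤ 3 * ‖w‖ := by
  have e : Pd j w x = C2 j x * Av j w x + S2 j x * M2 j w x := rfl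
  have h1 := abs_Av_le (w := w) hPh x
  have h2 := abs_M2_le (w := w) hPh x
  have h3 : |C2 j x * Av j w x| ≤ 1 * (2 * (‖w‖ * a)) := by
    rw [abs_mul]; exact mul_le_mul (abs_C2 x) h1 (abs_nonneg _) zero_le_one
  have h4 : |S2 j x * M2 j w x| ≤ 1 * (‖w‖ * a) := by
    rw [abs_mul]; exact mul_le_mul (abs_S2 x) h2 (abs_nonneg _) zero_le_one
  have h5 : ‖w‖ * a ≤ ‖w‖ * 1 := mul_le_mul_of_nonneg_left a_lt.le (norm_nonneg _)
  rw [e]
  refine (abs_add_le _ _).trans ?_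
  linarith

lemma abs_Ps_le (hPh : ∀ x, |Ph j x| ≤ a) (x : K) : |Ps j w x| ≤ 2 * ‖w‖ := by
  have e : Ps j w x = 1 / 2 * (S2 j x * Av j w x - C2 j x * M2 j w x) := rfl
  have h1 := abs_Av_le (w := w) hPh x
  have h2 := abs_M2_le (w := w) hPh x
  have h3 : |S2 j x * Av j w x| ≤ 1 * (2 * (‖w‖ * a)) := by
    rw [abs_mul]; exact mul_le_mul (abs_S2 x) h1 (abs_nonneg _) zero_le_one
  have h4 : |C2 j x * M2 j w x| ≤ 1 * (‖w‖ * a) := by
    rw [abs_mul]; exact mul_le_mul (abs_C2 x) h2 (abs_nonneg _) zero_le_one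
  have h5 : ‖w‖ * a ≤ ‖w‖ * 1 := mul_le_mul_of_nonneg_left a_lt.le (norm_nonneg _)
  rw [e, abs_mul, abs_of_pos (by norm_num : (0 : ℝ) < 1 / 2)]
  have h6 := abs_sub (S2 j x * Av j w x) (C2 j x * M2 j w x)
  have h7 := norm_nonneg w
  linarith

lemma norm_Pd_le (hPh : ∀ x, |Ph j x| ≤ a) : ‖Pd j w‖ ≤ 3 * ‖w‖ :=
  (ContinuousMap.norm_le _ (by positivity)).2 fun x => abs_Pd_le hPh x

lemma norm_Ps_le (hPh : ∀ x, |Ph j x| ≤ a) : ‖Ps j w‖ ≤ 2 * ‖w‖ :=
  (ContinuousMap.norm_le _ (by positivity)).2 fun x => abs_Ps_le hPh x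

lemma norm_sn_le : ‖sn j‖ ≤ 1 :=
  (ContinuousMap.norm_le _ zero_le_one).2 fun _ => Real.abs_sin_le_one _

lemma norm_cn_le : ‖cn j‖ ≤ 1 :=
  (ContinuousMap.norm_le _ zero_le_one).2 fun _ => Real.abs_cos_le_one _

end Bounds

/-- The unknowns `(r, q, w)`. -/
def Y (U : V × V × V) : V × V × V := (R0v * U.1, U.2.1, U.2.2)

/-- Their derivative. -/
def Y' (U : V × V × V) : V × V × V :=
  (R0v * (Pd U.1 U.2.2 * U.1),
   (U.2.2 - 4 * Ps U.1 U.2.2) * (R0v * U.1) - Pd U.1 U.2.2 * U.2.1,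
   -(R0v * U.1 * sn U.1 + U.2.1 * cn U.1))

lemma hasDerivAt_Y {U : ℝ → V × V × V} {t : ℝ} (h : HasDerivAt U (F (U t)) t) :
    HasDerivAt (fun s => Y (U s)) (Y' (U t)) t := by
  have h1 : HasDerivAt (fun s => (U s).1) (Pd (U t).1 (U t).2.2 * (U t).1) t := by
    exact (hasFDerivAt_fst (𝕜 := ℝ)).comp_hasDerivAt t h
  have h2 : HasDerivAt (fun s => (U s).2) (F (U t)).2 t := by
    exact (hasFDerivAt_snd (𝕜 := ℝ)).comp_hasDerivAt t h
  exact (h1.const_mul R0v).prodMk h2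

lemma norm_Y' {U : V × V × V} (hPh : ∀ x, |Ph U.1 x| ≤ a) {N : ℝ} (hN : ‖Y U‖ ≤ N) :
    ‖Y' U‖ ≤ 12 * N ^ 2 + 2 * N := by
  have hN0 : 0 ≤ N := (norm_nonneg _).trans hN
  have hr : ‖R0v * U.1‖ ≤ N := (norm_fst_le (Y U)).trans hN
  have hq : ‖U.2.1‖ ≤ N := ((norm_fst_le (Y U).2).trans (norm_snd_le (Y U))).trans hN
  have hw : ‖U.2.2‖ ≤ N := ((norm_snd_le (Y U).2).trans (norm_snd_le (Y U))).trans hN
  have hPd : ‖Pd U.1 U.2.2‖ ≤ 3 * N := (norm_Pd_le hPh).trans (by linarith)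
  have hPs : ‖Ps U.1 U.2.2‖ ≤ 2 * N := (norm_Ps_le hPh).trans (by linarith)
  have h1 : ‖R0v * (Pd U.1 U.2.2 * U.1)‖ ≤ 3 * N ^ 2 := by
    have e : R0v * (Pd U.1 U.2.2 * U.1) = Pd U.1 U.2.2 * (R0v * U.1) := by ring
    rw [e]
    refine (norm_mul_le _ _).trans ?_
    calc ‖Pd U.1 U.2.2‖ * ‖R0v * U.1‖ ≤ (3 * N) * N :=
          mul_le_mul hPd hr (norm_nonneg _) (by positivity)
      _ = 3 * N ^ 2 := by ring
  have h4 : ‖(4 : V) * Ps U.1 U.2.2‖ ≤ 8 * N := by
    have e : (4 : V) * Ps U.1 U.2.2 = (4 : ℝ) • Ps U.1 U.2.2 := by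
      ext x
      rw [ContinuousMap.mul_apply, ContinuousMap.smul_apply, smul_eq_mul]
      rfl
    rw [e, norm_smul]
    have : ‖(4 : ℝ)‖ = 4 := by norm_num
    rw [this]
    linarith
  have h2 : ‖(U.2.2 - 4 * Ps U.1 U.2.2) * (R0v * U.1) - Pd U.1 U.2.2 * U.2.1‖ ≤ 12 * N ^ 2 := by
    have h5 : ‖U.2.2 - 4 * Ps U.1 U.2.2‖ ≤ 9 * N := (norm_sub_le _ _).trans (by linarith)
    have h6 : ‖(U.2.2 - 4 * Ps U.1 U.2.2) * (R0v * U.1)‖ ≤ 9 * N * N :=
      (norm_mul_le _ _).trans (mul_le_mul h5 hr (norm_nonneg _) (by positivity))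
    have h7 : ‖Pd U.1 U.2.2 * U.2.1‖ ≤ 3 * N * N :=
      (norm_mul_le _ _).trans (mul_le_mul hPd hq (norm_nonneg _) (by positivity))
    refine (norm_sub_le _ _).trans ?_
    nlinarith
  have h3 : ‖-(R0v * U.1 * sn U.1 + U.2.1 * cn U.1)‖ ≤ 2 * N := by
    rw [norm_neg]
    have h5 : ‖R0v * U.1 * sn U.1‖ ≤ N * 1 :=
      (norm_mul_le _ _).trans (mul_le_mul hr norm_sn_le (norm_nonneg _) hN0)
    have h6 : ‖U.2.1 * cn U.1‖ ≤ N * 1 :=
      (norm_mul_le _ _).trans (mul_le_mul hq norm_cn_le (norm_nonneg _) hN0)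
    refine (norm_add_le _ _).trans ?_
    linarith
  rw [Y', Prod.norm_def, Prod.norm_def]
  have hN2 : 0 ≤ N ^ 2 := sq_nonneg _
  exact max_le (by linarith) (max_le (by linarith) (by linarith))

lemma R₀_ends (x : K) (hx : ¬ (x : ℝ) ∈ Ioo (-a) a) : R0v x = 0 := by
  have hx1 : (x : ℝ) = -a ∨ (x : ℝ) = a := by
    have h1 := x.2.1
    have h2 := x.2.2
    rw [mem_Ioo, not_and_or, not_lt, not_lt] at hx
    rcases hx with hx | hx
    · exact Or.inl (le_antisymm hx h1)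
    · exact Or.inr (le_antisymm h2 hx)
  have hc : Real.cos (2 * (x : ℝ)) = 0 := by
    rcases hx1 with h | h
    · rw [h]
      have : 2 * -a = -(Real.pi / 2) := by unfold a; ring
      rw [this, Real.cos_neg, Real.cos_pi_div_two]
    · rw [h]
      have : 2 * a = Real.pi / 2 := by unfold a; ring
      rw [this, Real.cos_pi_div_two]
  change R₀ x = 0
  unfold R₀
  rw [hc, expNegInvGlue.zero_of_nonpos (by norm_num), mul_zero, neg_zero]

theorem main (_hL : S_LBF) (hI : S_ID) : S_CRIT := by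
  intro δ T hδ hT U hU hblow M
  by_contra hcon
  push Not at hcon
  -- `M` is nonnegative
  have hk0 : ((k0 : K) : ℝ) ∈ Ioo (-a) a := by
    change (0 : ℝ) ∈ Ioo (-a) a
    exact ⟨by linarith [a_pos], a_pos⟩
  have hM : 0 ≤ M := by
    obtain ⟨t, _, ht⟩ := hcon 0 ⟨le_rfl, hT⟩
    exact (add_nonneg (abs_nonneg _) (Real.sqrt_nonneg _)).trans (ht k0 hk0)
  have hID : ∀ t ∈ Ioo (-δ) T, (∀ x, |Ph (U t).1 x| ≤ a) ∧
      (∀ x : K, Real.pi / 6 ≤ |(x : ℝ)| → (U t).2.1 x = 0 ∧ (U t).2.2 x = 0) := by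
    intro t ht
    obtain ⟨_, _, _, h4, h5, h6⟩ := hI (-δ) T (by linarith) hT U hU t ht
    exact ⟨abs_Ph_le _ (fun x y hxy => (h4 x y hxy).1) h5, h6⟩
  have hcont : ContinuousOn U (Ioo (-δ) T) := fun t ht =>
    (hU.ode t ht).continuousAt.continuousWithinAt
  -- the bound at a good time
  have hgood : ∀ t ∈ Ioo (-δ) T, (∀ x : K, (x : ℝ) ∈ Ioo (-a) a → |(U t).2.2 x| +
      Real.sqrt ((R0v * (U t).1) x ^ 2 + (U t).2.1 x ^ 2) ≤ M) → ‖Y (U t)‖ ≤ M := by
    intro t ht h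
    have hall : ∀ x : K, |(U t).2.2 x| ≤ M ∧ |(R0v * (U t).1) x| ≤ M ∧ |(U t).2.1 x| ≤ M := by
      intro x
      by_cases hx : (x : ℝ) ∈ Ioo (-a) a
      · have h1 := h x hx
        have h2 := abs_nonneg ((U t).2.2 x)
        have h3 := Real.sqrt_nonneg ((R0v * (U t).1) x ^ 2 + (U t).2.1 x ^ 2)
        have h4 : |(R0v * (U t).1) x| ≤
            Real.sqrt ((R0v * (U t).1) x ^ 2 + (U t).2.1 x ^ 2) := by
          rw [← Real.sqrt_sq_eq_abs]
          exact Real.sqrt_le_sqrt (by nlinarith [sq_nonneg ((U t).2.1 x)])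
        have h5 : |(U t).2.1 x| ≤ Real.sqrt ((R0v * (U t).1) x ^ 2 + (U t).2.1 x ^ 2) := by
          rw [← Real.sqrt_sq_eq_abs]
          exact Real.sqrt_le_sqrt (by nlinarith [sq_nonneg ((R0v * (U t).1) x)])
        exact ⟨by linarith, by linarith, by linarith⟩
      · have h1 : Real.pi / 6 ≤ |(x : ℝ)| := by
          have hpi := Real.pi_pos
          rw [mem_Ioo, not_and_or, not_lt, not_lt] at hx
          rcases hx with hx | hx
          · have := neg_le_abs (x : ℝ)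
            unfold a at hx
            linarith
          · have := le_abs_self (x : ℝ)
            unfold a at hx
            linarith
        obtain ⟨h2, h3⟩ := (hID t ht).2 x h1
        rw [h2, h3, ContinuousMap.mul_apply, R₀_ends x hx, zero_mul, abs_zero]
        exact ⟨hM, hM, hM⟩
    rw [Y, Prod.norm_def, Prod.norm_def]
    refine max_le ((ContinuousMap.norm_le _ hM).2 fun x => (hall x).2.1) (max_le
      ((ContinuousMap.norm_le _ hM).2 fun x => (hall x).2.2)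
      ((ContinuousMap.norm_le _ hM).2 fun x => (hall x).1))
  -- a short interval at the end
  set L : ℝ := 12 * (M + 1) ^ 2 + 2 * (M + 1) + 1 with hL
  have hLpos : 0 < L := by positivity
  obtain ⟨t₁, ht₁, hbd⟩ := hcon (max 0 (T - 1 / L)) ⟨le_max_left _ _, max_lt hT (by
    have : 0 < 1 / L := by positivity
    linarith)⟩
  have ht₁0 : 0 < t₁ := (le_max_left _ _).trans_lt ht₁.1
  have ht₁T : t₁ < T := ht₁.2
  have ht₁d : T - 1 / L < t₁ := (le_max_right _ _).trans_lt ht₁.1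
  have hY₁ : ‖Y (U t₁)‖ ≤ M := hgood t₁ ⟨by linarith, ht₁T⟩ hbd
  have hY₂ : ∀ t ∈ Ico t₁ T, ‖Y (U t)‖ ≤ M + 1 := by
    intro t ht
    have hsub : Icc t₁ t ⊆ Ioo (-δ) T := fun s hs => ⟨by linarith [hs.1], hs.2.trans_lt ht.2⟩
    have key := image_norm_le_of_norm_deriv_right_lt_deriv_boundary'
      (f := fun s => Y (U s)) (f' := fun s => Y' (U s)) (a := t₁) (b := t)
      (B := fun s => M + L * (s - t₁)) (B' := fun _ => L)
      (fun s hs => (hasDerivAt_Y (hU.ode s (hsub hs))).continuousAt.continuousWithinAt)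
      (fun s hs => (hasDerivAt_Y (hU.ode s (hsub (Ico_subset_Icc_self hs)))).hasDerivWithinAt)
      (by simpa using hY₁)
      (by fun_prop)
      (fun s _ => by
        have h1 : HasDerivAt (fun s : ℝ => M + L * (s - t₁)) (L * 1) s :=
          (((hasDerivAt_id s).sub_const t₁).const_mul L).const_add M
        rw [mul_one] at h1
        exact h1.hasDerivWithinAt)
      (fun s hs heq => by
        have hs' := hsub (Ico_subset_Icc_self hs)
        have h1 : ‖Y (U s)‖ ≤ M + 1 := by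
          have h2 : ‖Y (U s)‖ = M + L * (s - t₁) := heq
          rw [h2]
          have h3 : s - t₁ ≤ 1 / L := by linarith [hs.2, ht.2]
          have h4 : L * (s - t₁) ≤ L * (1 / L) := mul_le_mul_of_nonneg_left h3 hLpos.le
          have h5 : L * (1 / L) = 1 := by field_simp
          linarith
        have h2 := norm_Y' (hID s hs').1 h1
        change ‖Y' (U s)‖ < L
        rw [hL]
        linarith)
    have h1 := key (right_mem_Icc.2 ht.1)
    have h3 : t - t₁ ≤ 1 / L := by linarith [ht.2]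
    have h4 : L * (t - t₁) ≤ L * (1 / L) := mul_le_mul_of_nonneg_left h3 hLpos.le
    have h5 : L * (1 / L) = 1 := by field_simp
    have h6 : ‖Y (U t)‖ ≤ M + L * (t - t₁) := h1
    linarith
  -- a bound on `[0, T)`
  obtain ⟨C, hC⟩ : ∃ C, ∀ t ∈ Ico 0 T, ‖Y (U t)‖ ≤ C := by
    have hc : ContinuousOn (fun t => Y (U t)) (Icc 0 t₁) := fun s hs =>
      (hasDerivAt_Y (hU.ode s ⟨by linarith [hs.1], hs.2.trans_lt ht₁T⟩)).continuousAt.continuousWithinAt
    obtain ⟨C, hC⟩ := isCompact_Icc.exists_bound_of_continuousOn hc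
    refine ⟨max C (M + 1), fun t ht => ?_⟩
    by_cases h : t ≤ t₁
    · exact (hC t ⟨ht.1, h⟩).trans (le_max_left _ _)
    · exact (hY₂ t ⟨by linarith, ht.2⟩).trans (le_max_right _ _)
  have hC0 : 0 ≤ C := (norm_nonneg _).trans (hC 0 ⟨le_rfl, hT⟩)
  -- the bound for `j`
  have hj : ∀ t ∈ Ico 0 T, ‖(U t).1‖ ≤ ‖(U 0).1‖ * Real.exp (3 * C * T) := by
    intro t ht
    have hsub : Icc 0 t ⊆ Ioo (-δ) T := fun s hs => ⟨by linarith [hs.1], hs.2.trans_lt ht.2⟩
    have hd : ∀ s ∈ Icc 0 t, HasDerivAt (fun s => (U s).1) (Pd (U s).1 (U s).2.2 * (U s).1) s := by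
      intro s hs
      exact (hasFDerivAt_fst (𝕜 := ℝ)).comp_hasDerivAt s (hU.ode s (hsub hs))
    have key := norm_le_gronwallBound_of_norm_deriv_right_le
      (f := fun s => (U s).1) (f' := fun s => Pd (U s).1 (U s).2.2 * (U s).1)
      (δ := ‖(U 0).1‖) (K := 3 * C) (ε := 0) (a := 0) (b := t)
      (fun s hs => (hd s hs).continuousAt.continuousWithinAt)
      (fun s hs => (hd s (Ico_subset_Icc_self hs)).hasDerivWithinAt)
      le_rfl
      (fun s hs => by
        have hs' := hsub (Ico_subset_Icc_self hs)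
        have hw : ‖(U s).2.2‖ ≤ C := ((norm_snd_le (Y (U s)).2).trans
          (norm_snd_le (Y (U s)))).trans (hC s ⟨hs.1, hs'.2⟩)
        have h1 : ‖Pd (U s).1 (U s).2.2‖ ≤ 3 * C := (norm_Pd_le (hID s hs').1).trans (by linarith)
        rw [add_zero]
        exact (norm_mul_le _ _).trans (mul_le_mul_of_nonneg_right h1 (norm_nonneg _)))
      t (right_mem_Icc.2 ht.1)
    rw [gronwallBound_ε0, sub_zero] at key
    refine key.trans ?_
    have h1 : 3 * C * t ≤ 3 * C * T := mul_le_mul_of_nonneg_left ht.2.le (by positivity)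
    exact mul_le_mul_of_nonneg_left (Real.exp_le_exp.2 h1) (norm_nonneg _)
  -- contradiction
  obtain ⟨t, ht, hB⟩ := hblow (max (‖(U 0).1‖ * Real.exp (3 * C * T)) C)
  have h1 : ‖U t‖ ≤ max (‖(U 0).1‖ * Real.exp (3 * C * T)) C := by
    rw [Prod.norm_def]
    refine max_le ((hj t ht).trans (le_max_left _ _)) ?_
    exact ((norm_snd_le (Y (U t))).trans (hC t ht)).trans (le_max_right _ _)
  exact absurd h1 (not_le.2 hB)

end

end Pool.Agent.N982.BQ.Crit
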