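import Mathlib

/-!
Scale-invariant Boussinesq flows in a right-angle corner: the label space, the primitive operator,
curves in the space of continuous functions which are smooth in the label.
-/

set_option autoImplicit false

open Set MeasureTheory
open scoped ContDiff

namespace Pool.Agent.N982.BQ

noncomputable section

/-- Half of the opening angle. -/
def a : ℝ := Real.pi / 4

lemma a_pos : 0 < a := by unfold a; positivity

lemma neg_a_le : -a ≤ a := by linarith [a_pos]

/-- The labels. -/
abbrev K : Type := Icc (-a) a

/-- The continuous functions of the label, a Banach algebra. -/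
abbrev V : Type := C(K, ℝ)

/-- The label zero. -/
def k0 : K := ⟨0, by constructor <;> linarith [a_pos]⟩

/-- The label `a`. -/
def ka : K := ⟨a, by constructor <;> linarith [a_pos]⟩

/-- The label `-a`. -/
def kma : K := ⟨-a, by constructor <;> linarith [a_pos]⟩

/-- The extension of a function of the label to the real line, constant outside of `[-a, a]`. -/
def ext (f : V) (x : ℝ) : ℝ := f (projIcc (-a) a neg_a_le x)

lemma continuous_ext (f : V) : Continuous (ext f) := f.continuous.comp continuous_projIcc

lemma ext_of_mem (f : V) {x : ℝ} (h : x ∈ Icc (-a) a) : ext f x = f ⟨x, h⟩ := by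
  unfold ext; rw [projIcc_of_mem _ h]

lemma ext_coe (f : V) (x : K) : ext f x = f x := by
  rw [ext_of_mem f x.2]

lemma abs_ext_le (f : V) (x : ℝ) : |ext f x| ≤ ‖f‖ := f.norm_coe_le_norm _

/-- The primitive `P f (x) = ∫₀ˣ f` as a bounded operator. -/
def P : V →L[ℝ] V :=
  LinearMap.mkContinuous
    { toFun := fun f => (⟨fun x => ∫ y in (0 : ℝ)..x, ext f y,
        (intervalIntegral.continuous_primitive
          (fun c d => (continuous_ext f).intervalIntegrable c d) 0).comp
            continuous_subtype_val⟩ : V)
      map_add' := fun f g => by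
        ext x
        simp only [ContinuousMap.coe_mk, ContinuousMap.add_apply]
        rw [← intervalIntegral.integral_add ((continuous_ext f).intervalIntegrable _ _)
          ((continuous_ext g).intervalIntegrable _ _)]
        rfl
      map_smul' := fun c f => by
        ext x
        simp only [ContinuousMap.coe_mk, ContinuousMap.smul_apply, RingHom.id_apply]
        rw [← intervalIntegral.integral_smul]
        rfl } a (by
    intro f
    refine (ContinuousMap.norm_le _ (mul_nonneg a_pos.le (norm_nonneg _))).2 fun x => ?_
    have h1 := intervalIntegral.norm_integral_le_of_norm_le_const (a := (0 : ℝ)) (b := x)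
      (f := ext f) (C := ‖f‖) (fun r _ => abs_ext_le f r)
    have h2 : |(x : ℝ) - 0| ≤ a := by
      rw [sub_zero]; exact abs_le.2 ⟨x.2.1, x.2.2⟩
    calc _ ≤ ‖f‖ * |(x : ℝ) - 0| := h1
      _ ≤ ‖f‖ * a := by gcongr
      _ = a * ‖f‖ := by ring)

lemma P_apply (f : V) (x : K) : P f x = ∫ y in (0 : ℝ)..x, ext f y := rfl

/-- A function of the label which is `n` times continuously differentiable on `[-a, a]`. -/
def SmX : ℕ → V → Prop
  | 0, _ => True
  | n + 1, f => ∃ f₁ : V, SmX n f₁ ∧ f = algebraMap ℝ V (f k0) + P f₁

/-- A smooth curve of continuous functions of the label on the set `J` of times, which is `n` times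
differentiable in the label with derivatives of the same kind. -/
def Dx (J : Set ℝ) : ℕ → (ℝ → V) → Prop
  | 0, v => ContDiffOn ℝ ∞ v J
  | n + 1, v => ContDiffOn ℝ ∞ v J ∧ ∃ v₁ : ℝ → V, Dx J n v₁ ∧
      ∀ t ∈ J, v t = algebraMap ℝ V (v t k0) + P (v₁ t)

/-- Bounded on bounded sets and Lipschitz on bounded sets. -/
def LB {E F : Type*} [NormedAddCommGroup E] [NormedAddCommGroup F] (f : E → F) : Prop :=
  ∀ B : ℝ, ∃ C : ℝ, ∀ u v : E, ‖u‖ ≤ B → ‖v‖ ≤ B → ‖f u‖ ≤ C ∧ ‖f u - f v‖ ≤ C * ‖u - v‖

end

end Pool.Agent.N982.BQ
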