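import Pool.Agent.N982.BQ.Stm

/-!
From the Lagrangian to the Eulerian form of the solutions (by helper999).
-/

set_option autoImplicit false

open Set MeasureTheory Filter Topology
open scoped ContDiff

namespace Pool.Agent.N982.BQ.Eul

variable {J : Set ℝ} {Φ j r q w : ℝ → ℝ → ℝ}

/-! ### The flow map at a fixed time -/

lemma a_lt : -a < a := by linarith [a_pos]

lemma a_mem : a ∈ Icc (-a) a := ⟨a_lt.le, le_rfl⟩

lemma neg_a_mem : -a ∈ Icc (-a) a := ⟨le_rfl, a_lt.le⟩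

lemma zero_mem : (0 : ℝ) ∈ Icc (-a) a := ⟨by linarith [a_pos], a_pos.le⟩

lemma neg_mem_Icc {x : ℝ} (hx : x ∈ Icc (-a) a) : -x ∈ Icc (-a) a :=
  ⟨by linarith [hx.2], by linarith [hx.1]⟩

lemma Phi_deriv (L : Lag J Φ j r q w) {t : ℝ} (ht : t ∈ J) {x : ℝ} (hx : x ∈ Ioo (-a) a) :
    HasDerivAt (fun y => Φ y t) (j x t ^ 2) x :=
  (L.Φx t ht x (Ioo_subset_Icc_self hx)).hasDerivAt (Icc_mem_nhds hx.1 hx.2)

lemma Phi_cont (L : Lag J Φ j r q w) {t : ℝ} (ht : t ∈ J) :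
    ContinuousOn (fun y => Φ y t) (Icc (-a) a) :=
  fun x hx => (L.Φx t ht x hx).continuousWithinAt

lemma Phi_mono (L : Lag J Φ j r q w) {t : ℝ} (ht : t ∈ J) :
    StrictMonoOn (fun y => Φ y t) (Icc (-a) a) := by
  apply strictMonoOn_of_deriv_pos (convex_Icc _ _) (Phi_cont L ht)
  intro x hx
  rw [interior_Icc] at hx
  rw [(Phi_deriv L ht hx).deriv]
  have := L.jpos t ht x (Ioo_subset_Icc_self hx)
  positivity

lemma Phi_neg_a (L : Lag J Φ j r q w) {t : ℝ} (ht : t ∈ J) : Φ (-a) t = -a := by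
  rw [L.oddΦ t ht a a_mem, L.Φa t ht]

lemma Phi_mem (L : Lag J Φ j r q w) {t : ℝ} (ht : t ∈ J) {x : ℝ} (hx : x ∈ Icc (-a) a) :
    Φ x t ∈ Icc (-a) a := by
  have hm := (Phi_mono L ht).monotoneOn
  constructor
  · have := hm neg_a_mem hx hx.1
    simp only at this
    rwa [Phi_neg_a L ht] at this
  · have := hm hx a_mem hx.2
    simp only at this
    rwa [L.Φa t ht] at this

lemma Phi_mem' (L : Lag J Φ j r q w) {t : ℝ} (ht : t ∈ J) {x : ℝ} (hx : x ∈ Ioo (-a) a) :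
    Φ x t ∈ Ioo (-a) a := by
  have hm := Phi_mono L ht
  have hx' := Ioo_subset_Icc_self hx
  constructor
  · have := hm neg_a_mem hx' hx.1
    simp only at this
    rwa [Phi_neg_a L ht] at this
  · have := hm hx' a_mem hx.2
    simp only at this
    rwa [L.Φa t ht] at this

lemma Phi_surj (L : Lag J Φ j r q w) {t : ℝ} (ht : t ∈ J) {θ : ℝ} (hθ : θ ∈ Icc (-a) a) :
    ∃ x ∈ Icc (-a) a, Φ x t = θ := by
  have h := intermediate_value_Icc a_lt.le (Phi_cont L ht)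
  rw [Phi_neg_a L ht, L.Φa t ht] at h
  obtain ⟨x, hx, h1⟩ := h hθ
  exact ⟨x, hx, h1⟩

lemma Phi_surj' (L : Lag J Φ j r q w) {t : ℝ} (ht : t ∈ J) {θ : ℝ} (hθ : θ ∈ Ioo (-a) a) :
    ∃ x ∈ Ioo (-a) a, Φ x t = θ := by
  obtain ⟨x, hx, h1⟩ := Phi_surj L ht (Ioo_subset_Icc_self hθ)
  refine ⟨x, ⟨lt_of_le_of_ne hx.1 ?_, lt_of_le_of_ne hx.2 ?_⟩, h1⟩
  · rintro rfl
    rw [Phi_neg_a L ht] at h1
    exact absurd h1 hθ.1.ne
  · rintro rfl
    rw [L.Φa t ht] at h1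
    exact absurd h1 hθ.2.ne'

open Classical in
/-- a function of the label as a function of the position, zero outside of the corner -/
noncomputable def E (Φ f : ℝ → ℝ → ℝ) (θ t : ℝ) : ℝ :=
  if θ ∈ Icc (-a) a then f (Function.invFunOn (fun x => Φ x t) (Icc (-a) a) θ) t else 0

lemma E_apply (L : Lag J Φ j r q w) (f : ℝ → ℝ → ℝ) {t : ℝ} (ht : t ∈ J) {x : ℝ}
    (hx : x ∈ Icc (-a) a) : E Φ f (Φ x t) t = f x t := by
  unfold E
  rw [if_pos (Phi_mem L ht hx)]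
  have h := (Phi_mono L ht).injOn.leftInvOn_invFunOn hx
  rw [h]

lemma E_out (f : ℝ → ℝ → ℝ) {θ t : ℝ} (h : θ ∉ Icc (-a) a) : E Φ f θ t = 0 := by
  unfold E
  rw [if_neg h]

/-! ### Smoothness -/

/-- the derivative of `(x, t) ↦ (Φ x t, t)` -/
noncomputable def eqv (c d : ℝ) (hc : c ≠ 0) : (ℝ × ℝ) ≃L[ℝ] (ℝ × ℝ) :=
  ContinuousLinearEquiv.equivOfInverse
    ((c • ContinuousLinearMap.fst ℝ ℝ ℝ + d • ContinuousLinearMap.snd ℝ ℝ ℝ).prod
      (ContinuousLinearMap.snd ℝ ℝ ℝ))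
    ((c⁻¹ • (ContinuousLinearMap.fst ℝ ℝ ℝ - d • ContinuousLinearMap.snd ℝ ℝ ℝ)).prod
      (ContinuousLinearMap.snd ℝ ℝ ℝ))
    (by
      rintro ⟨x, y⟩
      apply Prod.ext
      · show c⁻¹ * (c * x + d * y - d * y) = x
        field_simp
        ring
      · rfl)
    (by
      rintro ⟨x, y⟩
      apply Prod.ext
      · show c * (c⁻¹ * (x - d * y)) + d * y = x
        field_simp
        ring
      · rfl)

lemma smooth_int (hJ : IsOpen J) (L : Lag J Φ j r q w) {f g : ℝ → ℝ → ℝ}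
    (hf : ContDiffOn ℝ ∞ (fun p : ℝ × ℝ => f p.1 p.2) (Ioo (-a) a ×ˢ J))
    (hg : ∀ t ∈ J, ∀ x ∈ Icc (-a) a, g (Φ x t) t = f x t) {x₀ t₀ : ℝ} (hx : x₀ ∈ Ioo (-a) a)
    (ht : t₀ ∈ J) : ContDiffAt ℝ ∞ (fun p : ℝ × ℝ => g p.1 p.2) (Φ x₀ t₀, t₀) := by
  have hop : IsOpen (Ioo (-a) a ×ˢ J) := isOpen_Ioo.prod hJ
  have hmem : Ioo (-a) a ×ˢ J ∈ 𝓝 (x₀, t₀) := hop.mem_nhds ⟨hx, ht⟩
  have hΦ : ContDiffAt ℝ ∞ (fun p : ℝ × ℝ => Φ p.1 p.2) (x₀, t₀) := L.sΦ.contDiffAt hmem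
  have hfA : ContDiffAt ℝ ∞ (fun p : ℝ × ℝ => f p.1 p.2) (x₀, t₀) := hf.contDiffAt hmem
  have hG : ContDiffAt ℝ ∞ (fun p : ℝ × ℝ => (Φ p.1 p.2, p.2)) (x₀, t₀) :=
    hΦ.prodMk contDiffAt_snd
  obtain ⟨φ', hφ'⟩ : ∃ φ', φ' = fderiv ℝ (fun p : ℝ × ℝ => Φ p.1 p.2) (x₀, t₀) := ⟨_, rfl⟩
  have hdΦ : HasFDerivAt (fun p : ℝ × ℝ => Φ p.1 p.2) φ' (x₀, t₀) := by
    rw [hφ']
    exact (hΦ.differentiableAt (by norm_num)).hasFDerivAt
  have hc : φ' (1, 0) = j x₀ t₀ ^ 2 := by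
    have h1 : HasDerivAt (fun y : ℝ => (y, t₀)) ((1 : ℝ), (0 : ℝ)) x₀ :=
      (hasDerivAt_id x₀).prodMk (hasDerivAt_const x₀ t₀)
    have h2 := hdΦ.comp_hasDerivAt x₀ h1
    exact h2.unique (Phi_deriv L ht hx)
  have hjp := L.jpos t₀ ht x₀ (Ioo_subset_Icc_self hx)
  have hc0 : φ' (1, 0) ≠ 0 := by rw [hc]; positivity
  have hdG : HasFDerivAt (fun p : ℝ × ℝ => (Φ p.1 p.2, p.2))
      ((eqv (φ' (1, 0)) (φ' (0, 1)) hc0 : (ℝ × ℝ) ≃L[ℝ] (ℝ × ℝ)) : (ℝ × ℝ) →L[ℝ] (ℝ × ℝ))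
      (x₀, t₀) := by
    have h1 : HasFDerivAt (fun p : ℝ × ℝ => (Φ p.1 p.2, p.2))
      (φ'.prod (ContinuousLinearMap.snd ℝ ℝ ℝ)) (x₀, t₀) :=
      hdΦ.prodMk hasFDerivAt_snd
    have h2 : φ'.prod (ContinuousLinearMap.snd ℝ ℝ ℝ) =
        ((eqv (φ' (1, 0)) (φ' (0, 1)) hc0 : (ℝ × ℝ) ≃L[ℝ] (ℝ × ℝ)) :
          (ℝ × ℝ) →L[ℝ] (ℝ × ℝ)) := by
      apply ContinuousLinearMap.ext
      rintro ⟨x, y⟩
      show (φ' (x, y), y) = (φ' (1, 0) * x + φ' (0, 1) * y, y)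
      have h3 : φ' (x, y) = φ' (1, 0) * x + φ' (0, 1) * y := by
        have h4 : ((x, y) : ℝ × ℝ) = x • ((1 : ℝ), (0 : ℝ)) + y • ((0 : ℝ), (1 : ℝ)) := by
          ext <;> simp
        rw [h4, map_add, map_smul, map_smul, smul_eq_mul, smul_eq_mul]
        ring
      rw [h3]
    rw [← h2]
    exact h1
  have hn : (∞ : WithTop ℕ∞) ≠ 0 := by norm_num
  obtain ⟨ψ, hψ⟩ : ∃ ψ, ψ = hG.localInverse hdG hn := ⟨_, rfl⟩
  have hψs : ContDiffAt ℝ ∞ ψ (Φ x₀ t₀, t₀) := by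
    rw [hψ]; exact hG.to_localInverse hdG hn
  have hψ0 : ψ (Φ x₀ t₀, t₀) = (x₀, t₀) := by
    rw [hψ]; exact hG.localInverse_apply_image hdG hn
  have hψr : ∀ᶠ y in 𝓝 ((Φ x₀ t₀, t₀) : ℝ × ℝ), (Φ (ψ y).1 (ψ y).2, (ψ y).2) = y := by
    rw [hψ]
    exact (hG.hasStrictFDerivAt' hdG hn).eventually_right_inverse
  have hψm : ∀ᶠ y in 𝓝 ((Φ x₀ t₀, t₀) : ℝ × ℝ), ψ y ∈ Ioo (-a) a ×ˢ J := by
    apply hψs.continuousAt
    rw [hψ0]
    exact hmem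
  have hfA' : ContDiffAt ℝ ∞ (fun p : ℝ × ℝ => f p.1 p.2) (ψ (Φ x₀ t₀, t₀)) := by
    rw [hψ0]
    exact hfA
  have hcomp : ContDiffAt ℝ ∞ ((fun p : ℝ × ℝ => f p.1 p.2) ∘ ψ) (Φ x₀ t₀, t₀) :=
    hfA'.comp _ hψs
  refine hcomp.congr_of_eventuallyEq ?_
  filter_upwards [hψr, hψm] with y h1 h2
  have h3 := hg (ψ y).2 h2.2 (ψ y).1 (Ioo_subset_Icc_self h2.1)
  have h4 : y.1 = Φ (ψ y).1 (ψ y).2 := (congrArg Prod.fst h1).symm
  have h5 : y.2 = (ψ y).2 := (congrArg Prod.snd h1).symm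
  show g y.1 y.2 = f (ψ y).1 (ψ y).2
  rw [h4, h5, h3]

/-- the functions vanish near the walls -/
lemma vanish (hJ : IsOpen J) (L : Lag J Φ j r q w) {f : ℝ → ℝ → ℝ}
    (hf : ∀ t ∈ J, ∀ x ∈ Icc (-a) a, Real.pi / 6 ≤ |x| → f x t = 0) {θ₀ t₀ : ℝ}
    (hθ : |θ₀| = a) (ht : t₀ ∈ J) : ∀ᶠ y in 𝓝 ((θ₀, t₀) : ℝ × ℝ), E Φ f y.1 y.2 = 0 := by
  have hpi := Real.pi_pos
  have hb : Real.pi / 6 ∈ Icc (-a) a := by
    unfold a; constructor <;> linarith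
  have hb' : Real.pi / 6 ∈ Ioo (-a) a := by
    unfold a; constructor <;> linarith
  have hc : ContinuousAt (fun t => Φ (Real.pi / 6) t) t₀ := by
    have h1 : ContinuousOn (fun t : ℝ => ((Real.pi / 6, t) : ℝ × ℝ)) J := by fun_prop
    have h2 : MapsTo (fun t : ℝ => ((Real.pi / 6, t) : ℝ × ℝ)) J (Icc (-a) a ×ˢ J) :=
      fun t ht => ⟨hb, ht⟩
    exact (L.cΦ.comp h1 h2).continuousAt (hJ.mem_nhds ht)
  have hc' : ContinuousAt (fun y : ℝ × ℝ => Φ (Real.pi / 6) y.2) (θ₀, t₀) :=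
    ContinuousAt.comp (x := ((θ₀, t₀) : ℝ × ℝ)) (g := fun t => Φ (Real.pi / 6) t) hc
      continuousAt_snd
  have habs : ContinuousAt (fun y : ℝ × ℝ => |y.1|) (θ₀, t₀) := by fun_prop
  have hlt : Φ (Real.pi / 6) t₀ < |θ₀| := by
    rw [hθ]; exact (Phi_mem' L ht hb').2
  have h1 : ∀ᶠ y in 𝓝 ((θ₀, t₀) : ℝ × ℝ), Φ (Real.pi / 6) y.2 < |y.1| :=
    hc'.eventually_lt habs hlt
  have h2 : ∀ᶠ y in 𝓝 ((θ₀, t₀) : ℝ × ℝ), y.2 ∈ J :=
    continuousAt_snd.eventually_mem (hJ.mem_nhds ht)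
  filter_upwards [h1, h2] with y h1 h2
  by_cases hy : y.1 ∈ Icc (-a) a
  · obtain ⟨x, hx, hxy⟩ := Phi_surj L h2 hy
    rw [← hxy, E_apply L f h2 hx]
    refine hf _ h2 x hx ?_
    by_contra hcon
    push Not at hcon
    obtain ⟨h3, h4⟩ := abs_lt.1 hcon
    have hm := Phi_mono L h2
    have h5 : Φ x y.2 < Φ (Real.pi / 6) y.2 := hm hx hb h4
    have h6 : Φ (-(Real.pi / 6)) y.2 < Φ x y.2 := hm (neg_mem_Icc hb) hx h3
    rw [L.oddΦ _ h2 _ hb] at h6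
    have h7 : |y.1| < Φ (Real.pi / 6) y.2 := by
      rw [← hxy]; exact abs_lt.2 ⟨h6, h5⟩
    linarith
  · exact E_out f hy

/-- smoothness up to the walls -/
lemma smooth_all (hJ : IsOpen J) (L : Lag J Φ j r q w) {f : ℝ → ℝ → ℝ}
    (hs : ContDiffOn ℝ ∞ (fun p : ℝ × ℝ => f p.1 p.2) (Ioo (-a) a ×ˢ J))
    (hf : ∀ t ∈ J, ∀ x ∈ Icc (-a) a, Real.pi / 6 ≤ |x| → f x t = 0) {θ₀ t₀ : ℝ}
    (hθ : θ₀ ∈ Icc (-a) a) (ht : t₀ ∈ J) :
    ContDiffAt ℝ ∞ (fun p : ℝ × ℝ => E Φ f p.1 p.2) (θ₀, t₀) := by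
  by_cases h : |θ₀| = a
  · have h1 := vanish hJ L hf h ht
    refine (contDiffAt_const (c := (0 : ℝ))).congr_of_eventuallyEq ?_
    filter_upwards [h1] with y hy
    exact hy
  · have h1 : |θ₀| < a := lt_of_le_of_ne (abs_le.2 ⟨hθ.1, hθ.2⟩) h
    obtain ⟨x, hx, hxθ⟩ := Phi_surj' L ht (abs_lt.1 h1)
    rw [← hxθ]
    exact smooth_int hJ L hs (fun t ht x hx => E_apply L f ht hx) hx ht

/-- continuity in the position -/
lemma cont_pos (hJ : IsOpen J) (L : Lag J Φ j r q w) {f : ℝ → ℝ → ℝ}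
    (hs : ContDiffOn ℝ ∞ (fun p : ℝ × ℝ => f p.1 p.2) (Ioo (-a) a ×ˢ J))
    (hf : ∀ t ∈ J, ∀ x ∈ Icc (-a) a, Real.pi / 6 ≤ |x| → f x t = 0) {t : ℝ} (ht : t ∈ J) :
    Continuous (fun θ => E Φ f θ t) := by
  rw [continuous_iff_continuousAt]
  intro θ
  by_cases hθ : θ ∈ Icc (-a) a
  · have h1 := (smooth_all hJ L hs hf hθ ht).continuousAt
    exact ContinuousAt.comp (x := θ) (f := fun θ : ℝ => ((θ, t) : ℝ × ℝ)) h1 (by fun_prop)
  · have h1 : ∀ᶠ y in 𝓝 θ, y ∉ Icc (-a) a :=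
      isClosed_Icc.isOpen_compl.mem_nhds hθ
    refine (continuousAt_const (y := (0 : ℝ))).congr ?_
    filter_upwards [h1] with y hy
    exact (E_out f hy).symm

lemma E_odd (L : Lag J Φ j r q w) {f : ℝ → ℝ → ℝ}
    (hf : ∀ t ∈ J, ∀ x ∈ Icc (-a) a, f (-x) t = -f x t) {t : ℝ} (ht : t ∈ J) (θ : ℝ) :
    E Φ f (-θ) t = -E Φ f θ t := by
  by_cases hθ : θ ∈ Icc (-a) a
  · obtain ⟨x, hx, hxθ⟩ := Phi_surj L ht hθ
    rw [← hxθ, ← L.oddΦ t ht x hx, E_apply L f ht hx, E_apply L f ht (neg_mem_Icc hx),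
      hf t ht x hx]
  · have h1 : -θ ∉ Icc (-a) a := by
      intro h
      apply hθ
      have := neg_mem_Icc h
      rwa [neg_neg] at this
    rw [E_out f hθ, E_out f h1, neg_zero]

/-! ### The stream function -/

section stream

variable (W : ℝ → ℝ)

/-- the first moment -/
noncomputable def mA (θ : ℝ) : ℝ := ∫ p in (0 : ℝ)..θ, W p * Real.cos (2 * p)
/-- the second moment -/
noncomputable def mB (θ : ℝ) : ℝ := ∫ p in (0 : ℝ)..θ, W p * Real.sin (2 * p)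
/-- the stream function -/
noncomputable def Sf (θ : ℝ) : ℝ :=
  (Real.sin (2 * θ) * (mA W θ - mA W a) - Real.cos (2 * θ) * mB W θ) / 2
/-- its derivative -/
noncomputable def Sd (θ : ℝ) : ℝ :=
  Real.cos (2 * θ) * (mA W θ - mA W a) + Real.sin (2 * θ) * mB W θ

variable {W}

lemma mA_deriv (hW : Continuous W) (θ : ℝ) :
    HasDerivAt (mA W) (W θ * Real.cos (2 * θ)) θ := by
  have hc : Continuous (fun p => W p * Real.cos (2 * p)) := by fun_prop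
  exact (hc.integral_hasStrictDerivAt 0 θ).hasDerivAt

lemma mB_deriv (hW : Continuous W) (θ : ℝ) :
    HasDerivAt (mB W) (W θ * Real.sin (2 * θ)) θ := by
  have hc : Continuous (fun p => W p * Real.sin (2 * p)) := by fun_prop
  exact (hc.integral_hasStrictDerivAt 0 θ).hasDerivAt

lemma sin_deriv (θ : ℝ) : HasDerivAt (fun θ : ℝ => Real.sin (2 * θ)) (2 * Real.cos (2 * θ)) θ := by
  have h := ((hasDerivAt_id θ).const_mul 2).sin
  simp only [id, mul_one] at h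
  rw [mul_comm]
  exact h

lemma cos_deriv (θ : ℝ) : HasDerivAt (fun θ : ℝ => Real.cos (2 * θ)) (-(2 * Real.sin (2 * θ))) θ := by
  have h := ((hasDerivAt_id θ).const_mul 2).cos
  simp only [id, mul_one] at h
  have e : -(2 * Real.sin (2 * θ)) = -Real.sin (2 * θ) * 2 := by ring
  rw [e]
  exact h

lemma Sf_deriv (hW : Continuous W) (θ : ℝ) : HasDerivAt (Sf W) (Sd W θ) θ := by
  have h1 := ((sin_deriv θ).mul ((mA_deriv hW θ).sub_const (mA W a))).sub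
    ((cos_deriv θ).mul (mB_deriv hW θ))
  have h2 := h1.div_const 2
  refine h2.congr_deriv ?_
  unfold Sd
  ring

lemma Sd_deriv (hW : Continuous W) (θ : ℝ) : HasDerivAt (Sd W) (W θ - 4 * Sf W θ) θ := by
  have h1 := ((cos_deriv θ).mul ((mA_deriv hW θ).sub_const (mA W a))).add
    ((sin_deriv θ).mul (mB_deriv hW θ))
  refine h1.congr_deriv ?_
  unfold Sf
  have h3 := Real.sin_sq_add_cos_sq (2 * θ)
  linear_combination (W θ) * h3

lemma deriv_Sf (hW : Continuous W) : deriv (Sf W) = Sd W :=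
  funext fun θ => (Sf_deriv hW θ).deriv

lemma deriv_Sd (hW : Continuous W) : deriv (Sd W) = fun θ => W θ - 4 * Sf W θ :=
  funext fun θ => (Sd_deriv hW θ).deriv

lemma Sf_cont (hW : Continuous W) : Continuous (Sf W) :=
  continuous_iff_continuousAt.2 fun θ => (Sf_deriv hW θ).continuousAt

lemma Sf_contDiff (hW : Continuous W) : ContDiff ℝ 2 (Sf W) := by
  have h1 : ContDiff ℝ 1 (Sd W) := by
    rw [contDiff_one_iff_deriv]
    refine ⟨fun θ => (Sd_deriv hW θ).differentiableAt, ?_⟩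
    rw [deriv_Sd hW]
    have := Sf_cont hW
    fun_prop
  have e : (2 : WithTop ℕ∞) = 1 + 1 := by norm_num
  rw [e, contDiff_succ_iff_deriv]
  refine ⟨fun θ => (Sf_deriv hW θ).differentiableAt, ?_, ?_⟩
  · intro h
    exact absurd h (by norm_num)
  · rw [deriv_Sf hW]
    exact h1

lemma mA_even (hodd : ∀ p, W (-p) = -W p) (θ : ℝ) : mA W (-θ) = mA W θ := by
  unfold mA
  have h1 := intervalIntegral.integral_comp_neg (a := 0) (b := θ)
    (f := fun p => W p * Real.cos (2 * p))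
  rw [neg_zero] at h1
  have h2 : ∫ p in (0 : ℝ)..θ, W (-p) * Real.cos (2 * -p) =
      -∫ p in (0 : ℝ)..θ, W p * Real.cos (2 * p) := by
    rw [← intervalIntegral.integral_neg]
    refine intervalIntegral.integral_congr fun p _ => ?_
    show W (-p) * Real.cos (2 * -p) = -(W p * Real.cos (2 * p))
    rw [hodd, mul_neg, Real.cos_neg]
    ring
  rw [intervalIntegral.integral_symm, ← h1, h2, neg_neg]

lemma mB_odd (hodd : ∀ p, W (-p) = -W p) (θ : ℝ) : mB W (-θ) = -mB W θ := by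
  unfold mB
  have h1 := intervalIntegral.integral_comp_neg (a := 0) (b := θ)
    (f := fun p => W p * Real.sin (2 * p))
  rw [neg_zero] at h1
  have h2 : ∫ p in (0 : ℝ)..θ, W (-p) * Real.sin (2 * -p) =
      ∫ p in (0 : ℝ)..θ, W p * Real.sin (2 * p) := by
    refine intervalIntegral.integral_congr fun p _ => ?_
    show W (-p) * Real.sin (2 * -p) = W p * Real.sin (2 * p)
    rw [hodd, mul_neg, Real.sin_neg]
    ring
  rw [intervalIntegral.integral_symm, ← h1, h2]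

lemma Sf_odd (hodd : ∀ p, W (-p) = -W p) (θ : ℝ) : Sf W (-θ) = -Sf W θ := by
  unfold Sf
  rw [mA_even hodd, mB_odd hodd, mul_neg, Real.sin_neg, Real.cos_neg]
  ring

lemma two_a : 2 * a = Real.pi / 2 := by unfold a; ring

lemma Sf_a : Sf W a = 0 := by
  unfold Sf
  rw [two_a, Real.cos_pi_div_two, sub_self]
  ring

lemma Sf_neg_a (hodd : ∀ p, W (-p) = -W p) : Sf W (-a) = 0 := by
  rw [Sf_odd hodd, Sf_a, neg_zero]

lemma Sf_int (hodd : ∀ p, W (-p) = -W p) : ∫ θ in (-a)..a, Sf W θ * Real.cos (2 * θ) = 0 := by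
  have h1 := intervalIntegral.integral_comp_neg (a := -a) (b := a)
    (f := fun p => Sf W p * Real.cos (2 * p))
  rw [neg_neg] at h1
  have h2 : ∫ p in (-a)..a, Sf W (-p) * Real.cos (2 * -p) =
      -∫ p in (-a)..a, Sf W p * Real.cos (2 * p) := by
    rw [← intervalIntegral.integral_neg]
    refine intervalIntegral.integral_congr fun p _ => ?_
    show Sf W (-p) * Real.cos (2 * -p) = -(Sf W p * Real.cos (2 * p))
    rw [Sf_odd hodd, mul_neg, Real.cos_neg]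
    ring
  rw [h2] at h1
  linarith

end stream

/-! ### The change of variables -/

lemma cont_j (L : Lag J Φ j r q w) {t : ℝ} (ht : t ∈ J) :
    ContinuousOn (fun y => j y t ^ 2) (Icc (-a) a) := by
  have h1 : ContinuousOn (fun x : ℝ => ((x, t) : ℝ × ℝ)) (Icc (-a) a) := by fun_prop
  have h2 : MapsTo (fun x : ℝ => ((x, t) : ℝ × ℝ)) (Icc (-a) a) (Icc (-a) a ×ˢ J) :=
    fun x hx => ⟨hx, ht⟩
  exact (L.cj.comp h1 h2).pow 2

lemma change (L : Lag J Φ j r q w) {t : ℝ} (ht : t ∈ J) {x : ℝ} (hx : x ∈ Icc (-a) a)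
    {g : ℝ → ℝ} (hg : Continuous g) :
    ∫ p in (0 : ℝ)..Φ x t, g p = ∫ y in (0 : ℝ)..x, g (Φ y t) * j y t ^ 2 := by
  have hsub : uIcc 0 x ⊆ Icc (-a) a := uIcc_subset_Icc zero_mem hx
  have hsub' : Ioo (min 0 x) (max 0 x) ⊆ Ioo (-a) a := by
    refine Ioo_subset_Ioo ?_ ?_
    · exact le_min zero_mem.1 hx.1
    · exact max_le zero_mem.2 hx.2
  have h := intervalIntegral.integral_comp_mul_deriv'' (a := 0) (b := x)
    (f := fun y => Φ y t) (f' := fun y => j y t ^ 2) (g := g) ((Phi_cont L ht).mono hsub)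
    (fun y hy => (Phi_deriv L ht (hsub' hy)).hasDerivWithinAt) ((cont_j L ht).mono hsub)
    hg.continuousOn
  rw [L.Φ0 t ht] at h
  rw [← h]
  rfl

lemma mA_Phi (hJ : IsOpen J) (L : Lag J Φ j r q w)
    {t : ℝ} (ht : t ∈ J) {x : ℝ} (hx : x ∈ Icc (-a) a) :
    mA (fun θ => E Φ w θ t) (Φ x t) = m1 Φ j w x t := by
  have hc := cont_pos hJ L L.sw (fun t ht x hx h => (L.zr t ht x hx h).1) ht
  unfold mA m1
  rw [change L ht hx (g := fun p => E Φ w p t * Real.cos (2 * p)) (by fun_prop)]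
  refine intervalIntegral.integral_congr fun y hy => ?_
  have hy' : y ∈ Icc (-a) a := uIcc_subset_Icc zero_mem hx hy
  show E Φ w (Φ y t) t * Real.cos (2 * Φ y t) * j y t ^ 2 = _
  rw [E_apply L w ht hy']

lemma mB_Phi (hJ : IsOpen J) (L : Lag J Φ j r q w)
    {t : ℝ} (ht : t ∈ J) {x : ℝ} (hx : x ∈ Icc (-a) a) :
    mB (fun θ => E Φ w θ t) (Φ x t) = m2 Φ j w x t := by
  have hc := cont_pos hJ L L.sw (fun t ht x hx h => (L.zr t ht x hx h).1) ht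
  unfold mB m2
  rw [change L ht hx (g := fun p => E Φ w p t * Real.sin (2 * p)) (by fun_prop)]
  refine intervalIntegral.integral_congr fun y hy => ?_
  have hy' : y ∈ Icc (-a) a := uIcc_subset_Icc zero_mem hx hy
  show E Φ w (Φ y t) t * Real.sin (2 * Φ y t) * j y t ^ 2 = _
  rw [E_apply L w ht hy']

lemma Sf_Phi (hJ : IsOpen J) (L : Lag J Φ j r q w)
    {t : ℝ} (ht : t ∈ J) {x : ℝ} (hx : x ∈ Icc (-a) a) :
    Sf (fun θ => E Φ w θ t) (Φ x t) = ps Φ j w x t := by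
  have h1 := mA_Phi hJ L ht a_mem
  rw [L.Φa t ht] at h1
  unfold Sf ps
  rw [mA_Phi hJ L ht hx, mB_Phi hJ L ht hx, h1]

lemma Sd_Phi (hJ : IsOpen J) (L : Lag J Φ j r q w)
    {t : ℝ} (ht : t ∈ J) {x : ℝ} (hx : x ∈ Icc (-a) a) :
    Sd (fun θ => E Φ w θ t) (Φ x t) = pd Φ j w x t := by
  have h1 := mA_Phi hJ L ht a_mem
  rw [L.Φa t ht] at h1
  unfold Sd pd
  rw [mA_Phi hJ L ht hx, mB_Phi hJ L ht hx, h1]

/-! ### The equations -/

/-- the derivatives of the Eulerian function -/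
lemma E_hasFDeriv (hJ : IsOpen J) (L : Lag J Φ j r q w) {f : ℝ → ℝ → ℝ}
    (hs : ContDiffOn ℝ ∞ (fun p : ℝ × ℝ => f p.1 p.2) (Ioo (-a) a ×ˢ J))
    (hf : ∀ t ∈ J, ∀ x ∈ Icc (-a) a, Real.pi / 6 ≤ |x| → f x t = 0) {θ t : ℝ}
    (hθ : θ ∈ Icc (-a) a) (ht : t ∈ J) : ∃ F' : ℝ × ℝ →L[ℝ] ℝ,
    HasFDerivAt (fun p : ℝ × ℝ => E Φ f p.1 p.2) F' (θ, t) ∧
      deriv (fun s => E Φ f θ s) t = F' (0, 1) ∧
      HasDerivAt (fun φ => E Φ f φ t) (F' (1, 0)) θ := by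
  have h1 := (smooth_all hJ L hs hf hθ ht).differentiableAt (by norm_num)
  refine ⟨_, h1.hasFDerivAt, ?_, ?_⟩
  · have h2 : HasDerivAt (fun s : ℝ => (θ, s)) ((0 : ℝ), (1 : ℝ)) t :=
      (hasDerivAt_const t θ).prodMk (hasDerivAt_id t)
    exact (h1.hasFDerivAt.comp_hasDerivAt t h2).deriv
  · have h2 : HasDerivAt (fun s : ℝ => (s, t)) ((1 : ℝ), (0 : ℝ)) θ :=
      (hasDerivAt_id θ).prodMk (hasDerivAt_const θ t)
    exact h1.hasFDerivAt.comp_hasDerivAt θ h2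

/-- the chain rule along the particles -/
lemma along (hJ : IsOpen J) (L : Lag J Φ j r q w) {f : ℝ → ℝ → ℝ}
    (hs : ContDiffOn ℝ ∞ (fun p : ℝ × ℝ => f p.1 p.2) (Ioo (-a) a ×ˢ J))
    (hf : ∀ t ∈ J, ∀ x ∈ Icc (-a) a, Real.pi / 6 ≤ |x| → f x t = 0) {x t : ℝ}
    (hx : x ∈ Icc (-a) a) (ht : t ∈ J) {f' : ℝ} (hft : HasDerivAt (f x) f' t) :
    deriv (fun s => E Φ f (Φ x t) s) t +
      2 * ps Φ j w x t * deriv (fun φ => E Φ f φ t) (Φ x t) = f' := by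
  obtain ⟨F', h1, h2, h3⟩ := E_hasFDeriv hJ L hs hf (Phi_mem L ht hx) ht
  rw [h2, h3.deriv]
  have h4 : HasDerivAt (fun s : ℝ => (Φ x s, s)) ((2 * ps Φ j w x t : ℝ), (1 : ℝ)) t :=
    (L.Φt t ht x hx).prodMk (hasDerivAt_id t)
  have h5 := HasFDerivAt.comp_hasDerivAt (f := fun s : ℝ => ((Φ x s, s) : ℝ × ℝ)) t h1 h4
  have h6 : HasDerivAt (f x) (F' (2 * ps Φ j w x t, 1)) t := by
    refine h5.congr_of_eventuallyEq ?_
    filter_upwards [hJ.mem_nhds ht] with s hs'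
    exact (E_apply L f hs' hx).symm
  have h7 := h6.unique hft
  rw [← h7]
  have h8 : ((2 * ps Φ j w x t, 1) : ℝ × ℝ) =
      (2 * ps Φ j w x t) • ((1 : ℝ), (0 : ℝ)) + ((0 : ℝ), (1 : ℝ)) := by
    ext <;> simp
  rw [h8, map_add, map_smul, smul_eq_mul]
  ring

/-- the derivative of the density in the position -/
lemma R_theta (hJ : IsOpen J) (L : Lag J Φ j r q w) {x t : ℝ} (hx : x ∈ Ioo (-a) a)
    (ht : t ∈ J) : deriv (fun φ => E Φ r φ t) (Φ x t) = q x t := by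
  have hx' := Ioo_subset_Icc_self hx
  obtain ⟨F', h1, h2, h3⟩ := E_hasFDeriv hJ L L.sr (fun t ht x hx h => (L.zr t ht x hx h).2.1)
    (Phi_mem L ht hx') ht
  rw [h3.deriv]
  have h4 := h3.comp x (Phi_deriv L ht hx)
  have h5 : HasDerivAt (fun y => r y t) (F' (1, 0) * j x t ^ 2) x := by
    refine h4.congr_of_eventuallyEq ?_
    filter_upwards [isOpen_Ioo.mem_nhds hx] with y hy
    exact (E_apply L r ht (Ioo_subset_Icc_self hy)).symm
  have h6 : HasDerivAt (fun y => r y t) (q x t * j x t ^ 2) x :=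
    (L.rx t ht x hx').hasDerivAt (Icc_mem_nhds hx.1 hx.2)
  have h7 := h5.unique h6
  have h8 : (j x t ^ 2) ≠ 0 := by
    have := L.jpos t ht x hx'
    positivity
  exact mul_right_cancel₀ h8 h7

lemma pi6_le {θ₀ : ℝ} (hθ : |θ₀| = a) : Real.pi / 6 ≤ |θ₀| := by
  rw [hθ]
  unfold a
  linarith [Real.pi_pos]

/-- the values at the walls -/
lemma wall (hJ : IsOpen J) (L : Lag J Φ j r q w) {f : ℝ → ℝ → ℝ}
    (hf : ∀ t ∈ J, ∀ x ∈ Icc (-a) a, Real.pi / 6 ≤ |x| → f x t = 0) {θ₀ t : ℝ}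
    (hθ : |θ₀| = a) (ht : t ∈ J) : E Φ f θ₀ t = 0 ∧
      derivWithin (fun φ => E Φ f φ t) (Icc (-a) a) θ₀ = 0 := by
  have h1 := vanish hJ L hf hθ ht
  have hm : θ₀ ∈ Icc (-a) a := abs_le.1 hθ.le
  have h2 : ∀ᶠ θ in 𝓝 θ₀, E Φ f θ t = 0 := by
    have hc : ContinuousAt (fun θ : ℝ => ((θ, t) : ℝ × ℝ)) θ₀ := by fun_prop
    exact hc.eventually h1
  refine ⟨h2.self_of_nhds, ?_⟩
  have h3 : HasDerivAt (fun φ => E Φ f φ t) 0 θ₀ := by
    refine (hasDerivAt_const θ₀ (0 : ℝ)).congr_of_eventuallyEq ?_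
    filter_upwards [h2] with θ hθ
    exact hθ
  exact h3.hasDerivWithinAt.derivWithin (uniqueDiffOn_Icc a_lt θ₀ hm)

/-- **(EUL)** -/
theorem main : S_EUL := by
  intro δ T Φ j r q w hδ hT L hbl
  have hJ : IsOpen (Ioo (-δ) T) := isOpen_Ioo
  have hJm : ∀ t ∈ Ico 0 T, t ∈ Ioo (-δ) T := fun t ht => ⟨by linarith [ht.1], ht.2⟩
  have hJm' : ∀ t ∈ Ioo 0 T, t ∈ Ioo (-δ) T := fun t ht => ⟨by linarith [ht.1], ht.2⟩
  have w0 : ∀ t ∈ Ioo (-δ) T, ∀ x ∈ Icc (-a) a, Real.pi / 6 ≤ |x| → w x t = 0 :=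
    fun t ht x hx h => (L.zr t ht x hx h).1
  have r0 : ∀ t ∈ Ioo (-δ) T, ∀ x ∈ Icc (-a) a, Real.pi / 6 ≤ |x| → r x t = 0 :=
    fun t ht x hx h => (L.zr t ht x hx h).2.1
  have habs : |a| = a := abs_of_pos a_pos
  have habs' : |(-a)| = a := by rw [abs_neg]; exact habs
  refine ⟨T, E Φ w, E Φ r, fun θ t => Sf (fun φ => E Φ w φ t) θ, hT, ?_, ?_, ?_, ?_, ?_, ?_⟩
  · intro p hp
    exact (smooth_all hJ L L.sw w0 hp.1 (hJm _ hp.2)).contDiffWithinAt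
  · intro p hp
    exact (smooth_all hJ L L.sr r0 hp.1 (hJm _ hp.2)).contDiffWithinAt
  · intro t ht
    have ht' := hJm t ht
    have hW := cont_pos hJ L L.sw w0 ht'
    have hodd := E_odd L L.oddw ht'
    refine ⟨(Sf_contDiff hW).contDiffOn, Sf_neg_a hodd, Sf_a, Sf_int hodd, fun θ _ => ?_⟩
    show deriv (deriv (Sf fun φ => E Φ w φ t)) θ + 4 * Sf (fun φ => E Φ w φ t) θ = E Φ w θ t
    rw [deriv_Sf hW, deriv_Sd hW]
    ring
  · intro t ht θ hθ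
    have ht' := hJm' t ht
    have hW := cont_pos hJ L L.sw w0 ht'
    obtain ⟨x, hx, rfl⟩ := Phi_surj' L ht' hθ
    have hx' := Ioo_subset_Icc_self hx
    have e1 := along hJ L L.sw w0 hx' ht' (L.wt t ht' x hx')
    have e2 := R_theta hJ L hx ht'
    have hrt : HasDerivAt (r x) (pd Φ j w x t * r x t) t := by
      have h1 := (L.jt t ht' x hx').const_mul (R₀ x)
      have h2 : HasDerivAt (r x) (R₀ x * (pd Φ j w x t * j x t)) t := by
        refine h1.congr_of_eventuallyEq ?_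
        filter_upwards [hJ.mem_nhds ht'] with s hs
        exact L.rj s hs x hx'
      rw [L.rj t ht' x hx']
      refine h2.congr_deriv ?_
      ring
    have e3 := along hJ L L.sr r0 hx' ht' hrt
    have e4 := Sf_Phi hJ L ht' hx'
    have e5 := Sd_Phi hJ L ht' hx'
    constructor
    · show deriv (fun s => E Φ w (Φ x t) s) t +
        2 * Sf (fun φ => E Φ w φ t) (Φ x t) * deriv (fun φ => E Φ w φ t) (Φ x t) +
          (E Φ r (Φ x t) t * Real.sin (Φ x t) +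
            deriv (fun φ => E Φ r φ t) (Φ x t) * Real.cos (Φ x t)) = 0
      rw [e4, e1, e2, E_apply L r ht' hx']
      ring
    · show deriv (fun s => E Φ r (Φ x t) s) t +
        2 * Sf (fun φ => E Φ w φ t) (Φ x t) * deriv (fun φ => E Φ r φ t) (Φ x t) -
          deriv (Sf fun φ => E Φ w φ t) (Φ x t) * E Φ r (Φ x t) t = 0
      rw [e4, e3, deriv_Sf hW, e5, E_apply L r ht' hx']
      ring
  · intro t ht
    have ht' := hJm t ht
    exact ⟨(wall hJ L w0 habs' ht').1, (wall hJ L w0 habs ht').1, (wall hJ L r0 habs' ht').1,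
      (wall hJ L r0 habs ht').1, (wall hJ L r0 habs' ht').2, (wall hJ L r0 habs ht').2⟩
  · intro M
    obtain ⟨t₀, ht₀, h⟩ := hbl M
    refine ⟨t₀, ht₀, fun t ht => ?_⟩
    obtain ⟨x, hx, h1⟩ := h t ht
    have ht' : t ∈ Ioo (-δ) T := ⟨by linarith [ht.1, ht₀.1], ht.2⟩
    refine ⟨Φ x t, Phi_mem' L ht' hx, ?_⟩
    rw [E_apply L w ht' (Ioo_subset_Icc_self hx), E_apply L r ht' (Ioo_subset_Icc_self hx),
      R_theta hJ L hx ht']
    exact h1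

end Pool.Agent.N982.BQ.Eul
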