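import Pool.Agent.N982.BQ.Stm

/-!
# Identities for the solutions (helper99, task BQ/ID)
-/

set_option autoImplicit false

open Set MeasureTheory
open scoped ContDiff

namespace Pool.Agent.N982.BQ.Ident

noncomputable section

/-! ### primitives in the label -/

/-- `f₁` is the derivative of `f` in the label -/
def Pr (f f₁ : V) : Prop := ∀ x ∈ Ioo (-a) a, HasDerivAt (ext f) (ext f₁ x) x

theorem ext_k0 (f : V) : ext f 0 = f k0 := ext_of_mem f k0.2

theorem P_k0 (f : V) : P f k0 = 0 := by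
  rw [P_apply]
  exact intervalIntegral.integral_same

theorem pr_P (f : V) : Pr (P f) f := by
  intro x hx
  have h1 : HasDerivAt (fun u => ∫ y in (0 : ℝ)..u, ext f y) (ext f x) x :=
    intervalIntegral.integral_hasDerivAt_right ((continuous_ext f).intervalIntegrable _ _)
      (continuous_ext f).aestronglyMeasurable.stronglyMeasurableAtFilter
      (continuous_ext f).continuousAt
  refine h1.congr_of_eventuallyEq ?_
  filter_upwards [Icc_mem_nhds hx.1 hx.2] with y hy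
  rw [ext_of_mem _ hy, P_apply]

theorem pr_eq {f f₁ : V} (h : Pr f f₁) : f = algebraMap ℝ V (f k0) + P f₁ := by
  ext x
  have h1 : ∫ y in (0 : ℝ)..x, ext f₁ y = ext f x - ext f 0 := by
    apply intervalIntegral.integral_eq_sub_of_hasDeriv_right (continuous_ext f).continuousOn
    · intro y hy
      refine (h y ⟨?_, ?_⟩).hasDerivWithinAt
      · refine lt_of_le_of_lt ?_ hy.1
        exact le_min (by linarith [a_pos]) x.2.1
      · refine lt_of_lt_of_le hy.2 ?_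
        exact max_le a_pos.le x.2.2
    · exact (continuous_ext f₁).intervalIntegrable _ _
  have h2 : (algebraMap ℝ V (f k0) + P f₁) x = f k0 + P f₁ x := rfl
  rw [h2, P_apply, h1, ext_coe, ext_k0]
  ring

theorem pr_of_eq {f f₁ g : V} (h : Pr f f₁) (hg : f₁ = g) : Pr f g := hg ▸ h

theorem pr_mul {f f₁ g g₁ : V} (hf : Pr f f₁) (hg : Pr g g₁) :
    Pr (f * g) (f₁ * g + f * g₁) := fun x hx => (hf x hx).mul (hg x hx)

theorem pr_add {f f₁ g g₁ : V} (hf : Pr f f₁) (hg : Pr g g₁) : Pr (f + g) (f₁ + g₁) :=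
  fun x hx => (hf x hx).add (hg x hx)

theorem pr_sub {f f₁ g g₁ : V} (hf : Pr f f₁) (hg : Pr g g₁) : Pr (f - g) (f₁ - g₁) :=
  fun x hx => (hf x hx).sub (hg x hx)

theorem pr_const (c : ℝ) : Pr (algebraMap ℝ V c) 0 := fun x _ => hasDerivAt_const x c

theorem pr_smul {f f₁ : V} (c : ℝ) (hf : Pr f f₁) : Pr (c • f) (c • f₁) :=
  fun x hx => (hf x hx).const_smul c

theorem two_eq : (2 : V) = algebraMap ℝ V 2 := by rw [map_ofNat]

theorem pr_Ph (j : V) : Pr (Ph j) (j * j) := pr_P _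

theorem pr_sn (j : V) : Pr (sn j) (cn j * (j * j)) := fun x hx => (pr_Ph j x hx).sin

theorem pr_cn (j : V) : Pr (cn j) (-(sn j) * (j * j)) := by
  intro x hx
  have h := (pr_Ph j x hx).cos
  have e1 : ext (-(sn j) * (j * j)) x = -Real.sin (ext (Ph j) x) * ext (j * j) x := rfl
  rw [e1]
  exact h

theorem pr_S2 (j : V) : Pr (S2 j) (2 * C2 j * (j * j)) := by
  have h := pr_mul (pr_mul (pr_const 2) (pr_sn j)) (pr_cn j)
  rw [← two_eq] at h
  refine pr_of_eq h ?_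
  unfold C2
  ring

theorem pr_C2 (j : V) : Pr (C2 j) (-(2 * S2 j * (j * j))) := by
  have h := pr_sub (pr_mul (pr_cn j) (pr_cn j)) (pr_mul (pr_sn j) (pr_sn j))
  refine pr_of_eq h ?_
  unfold S2
  ring

theorem pr_M1 (j w : V) : Pr (M1 j w) (w * C2 j * (j * j)) := pr_P _
theorem pr_M2 (j w : V) : Pr (M2 j w) (w * S2 j * (j * j)) := pr_P _

theorem pr_Av (j w : V) : Pr (Av j w) (w * C2 j * (j * j)) := by
  refine pr_of_eq (pr_sub (pr_M1 j w) (pr_const _)) (by ring)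

theorem sn_cn (j : V) : sn j * sn j + cn j * cn j = 1 := by
  ext x
  change Real.sin (Ph j x) * Real.sin (Ph j x) + Real.cos (Ph j x) * Real.cos (Ph j x) = 1
  have := Real.sin_sq_add_cos_sq (Ph j x)
  nlinarith

theorem S2_C2 (j : V) : S2 j * S2 j + C2 j * C2 j = 1 := by
  have h := sn_cn j
  unfold S2 C2
  calc 2 * sn j * cn j * (2 * sn j * cn j) + (cn j * cn j - sn j * sn j) * (cn j * cn j - sn j * sn j)
      = (sn j * sn j + cn j * cn j) * (sn j * sn j + cn j * cn j) := by ring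
    _ = 1 := by rw [h, one_mul]

theorem smul_half (f : V) : (1 / 2 : ℝ) • (2 * f) = f := by
  rw [two_eq, ← Algebra.smul_def, smul_smul]
  norm_num

theorem pr_Ps (j w : V) : Pr (Ps j w) (Pd j w * (j * j)) := by
  have h := pr_smul (1 / 2) (pr_sub (pr_mul (pr_S2 j) (pr_Av j w)) (pr_mul (pr_C2 j) (pr_M2 j w)))
  refine pr_of_eq h ?_
  rw [← smul_half (Pd j w * (j * j))]
  congr 1
  unfold Pd
  ring

theorem two_Ps (j w : V) : 2 * Ps j w = S2 j * Av j w - C2 j * M2 j w := by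
  unfold Ps
  rw [two_eq, ← Algebra.smul_def, smul_smul]
  norm_num

theorem pr_Pd (j w : V) : Pr (Pd j w) ((w - 4 * Ps j w) * (j * j)) := by
  have h := pr_add (pr_mul (pr_C2 j) (pr_Av j w)) (pr_mul (pr_S2 j) (pr_M2 j w))
  refine pr_of_eq h ?_
  have h1 := two_Ps j w
  have h2 := S2_C2 j
  linear_combination (2 * (j * j)) * h1 + (w * (j * j)) * h2

theorem Ps_k0 (j w : V) : Ps j w k0 = 0 := by
  have h1 : S2 j k0 = 0 := by
    have : S2 j k0 = 2 * Real.sin (Ph j k0) * Real.cos (Ph j k0) := rfl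
    rw [this, Ph, P_k0, Real.sin_zero]
    ring
  have h2 : M2 j w k0 = 0 := P_k0 _
  have h3 : Ps j w k0 = (1 / 2 : ℝ) * (S2 j k0 * Av j w k0 - C2 j k0 * M2 j w k0) := rfl
  rw [h3, h1, h2]
  ring

theorem P_Pd (j w : V) : P (Pd j w * (j * j)) = Ps j w := by
  have h := pr_eq (pr_Ps j w)
  rw [Ps_k0, map_zero, zero_add] at h
  exact h.symm

/-! ### continuity -/

theorem sn_cont : Continuous sn :=
  (ContinuousMap.continuous_postcomp _).comp (P.continuous.comp (continuous_id.mul continuous_id))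

theorem cn_cont : Continuous cn :=
  (ContinuousMap.continuous_postcomp _).comp (P.continuous.comp (continuous_id.mul continuous_id))

theorem S2_cont : Continuous S2 := (continuous_const.mul sn_cont).mul cn_cont

theorem C2_cont : Continuous C2 := (cn_cont.mul cn_cont).sub (sn_cont.mul sn_cont)

theorem M1_cont : Continuous fun p : V × V => M1 p.1 p.2 :=
  P.continuous.comp ((continuous_snd.mul (C2_cont.comp continuous_fst)).mul
    (continuous_fst.mul continuous_fst))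

theorem M2_cont : Continuous fun p : V × V => M2 p.1 p.2 :=
  P.continuous.comp ((continuous_snd.mul (S2_cont.comp continuous_fst)).mul
    (continuous_fst.mul continuous_fst))

theorem eval_cont (x : K) : Continuous fun f : V => f x := (ContinuousMap.evalCLM ℝ x).continuous

theorem Av_cont : Continuous fun p : V × V => Av p.1 p.2 :=
  M1_cont.sub ((continuous_algebraMap ℝ V).comp
    ((((eval_cont ka).comp M1_cont).add ((eval_cont kma).comp M1_cont)).div_const 2))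

theorem Ps_cont : Continuous fun p : V × V => Ps p.1 p.2 :=
  (((S2_cont.comp continuous_fst).mul Av_cont).sub
    ((C2_cont.comp continuous_fst).mul M2_cont)).const_smul (1 / 2 : ℝ)

theorem Pd_cont : Continuous fun p : V × V => Pd p.1 p.2 :=
  ((C2_cont.comp continuous_fst).mul Av_cont).add ((S2_cont.comp continuous_fst).mul M2_cont)

/-! ### Gronwall -/

section gron
variable {W : Type*} [NormedAddCommGroup W] [NormedSpace ℝ W]

theorem gron_fwd {f f' : ℝ → W} {s₁ s₂ C : ℝ} (hf : ∀ t ∈ Icc s₁ s₂, HasDerivAt f (f' t) t)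
    (h0 : f s₁ = 0) (hb : ∀ t ∈ Icc s₁ s₂, ‖f' t‖ ≤ C * ‖f t‖) : ∀ t ∈ Icc s₁ s₂, f t = 0 := by
  intro t ht
  have h := norm_le_gronwallBound_of_norm_deriv_right_le (f := f) (f' := f') (δ := 0) (K := C)
    (ε := 0) (a := s₁) (b := s₂) (fun x hx => (hf x hx).continuousAt.continuousWithinAt)
    (fun x hx => (hf x ⟨hx.1, hx.2.le⟩).hasDerivWithinAt) (by rw [h0, norm_zero])
    (fun x hx => by rw [add_zero]; exact hb x ⟨hx.1, hx.2.le⟩) t ht
  rw [gronwallBound_ε0, zero_mul] at h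
  exact norm_le_zero_iff.1 h

theorem gron {t₁ t₂ s : ℝ} (hs : s ∈ Ioo t₁ t₂) {f f' : ℝ → W}
    (hf : ∀ t ∈ Ioo t₁ t₂, HasDerivAt f (f' t) t) (h0 : f s = 0)
    (hb : ∀ s₁ s₂, t₁ < s₁ → s₂ < t₂ → ∃ C, ∀ t ∈ Icc s₁ s₂, ‖f' t‖ ≤ C * ‖f t‖) :
    ∀ t ∈ Ioo t₁ t₂, f t = 0 := by
  intro t ht
  rcases le_total s t with hst | hst
  · obtain ⟨C, hC⟩ := hb s t hs.1 ht.2
    exact gron_fwd (fun x hx => hf x ⟨hs.1.trans_le hx.1, hx.2.trans_lt ht.2⟩) h0 hC t
      ⟨hst, le_rfl⟩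
  · obtain ⟨C, hC⟩ := hb t s ht.1 hs.2
    have h := gron_fwd (f := fun r => f (-r)) (f' := fun r => -f' (-r)) (s₁ := -s) (s₂ := -t)
      (C := C) (fun x hx => by
        have hx' : -x ∈ Ioo t₁ t₂ := ⟨by linarith [hx.2, ht.1], by linarith [hx.1, hs.2]⟩
        have h1 := (hf (-x) hx').scomp x (hasDerivAt_neg x)
        rw [neg_one_smul] at h1
        exact h1) (by simpa using h0) (fun x hx => by
        rw [norm_neg]
        exact hC (-x) ⟨by linarith [hx.2], by linarith [hx.1]⟩) (-t) ⟨by linarith, le_rfl⟩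
    simpa using h

theorem gron_c {t₁ t₂ s : ℝ} (hs : s ∈ Ioo t₁ t₂) {f f' : ℝ → W}
    (hf : ∀ t ∈ Ioo t₁ t₂, HasDerivAt f (f' t) t) (h0 : f s = 0) {c : ℝ → ℝ}
    (hc : ContinuousOn c (Ioo t₁ t₂)) (hb : ∀ t ∈ Ioo t₁ t₂, ‖f' t‖ ≤ c t * ‖f t‖) :
    ∀ t ∈ Ioo t₁ t₂, f t = 0 := by
  refine gron hs hf h0 fun s₁ s₂ h1 h2 => ?_
  have hsub : Icc s₁ s₂ ⊆ Ioo t₁ t₂ := fun x hx => ⟨h1.trans_le hx.1, hx.2.trans_lt h2⟩
  obtain ⟨C, hC⟩ := isCompact_Icc.exists_bound_of_continuousOn (hc.mono hsub)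
  refine ⟨C, fun t ht => (hb t (hsub ht)).trans ?_⟩
  exact mul_le_mul_of_nonneg_right ((le_abs_self _).trans (hC t ht)) (norm_nonneg _)

end gron

/-! ### reflection -/

/-- `x ↦ -x` on the labels -/
def ng : C(K, K) := ⟨fun x => ⟨-x, by constructor <;> linarith [x.2.1, x.2.2]⟩, by fun_prop⟩

/-- reflection -/
def rf : V →L[ℝ] V :=
  LinearMap.mkContinuous
    { toFun := fun f => f.comp ng
      map_add' := fun _ _ => rfl
      map_smul' := fun _ _ => rfl } 1 (by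
    intro f
    rw [one_mul]
    exact (ContinuousMap.norm_le _ (norm_nonneg _)).2 fun x => f.norm_coe_le_norm _)

theorem rf_apply (f : V) (x : K) : rf f x = f (ng x) := rfl

theorem rf_mul (f g : V) : rf (f * g) = rf f * rf g := rfl
theorem rf_one : rf 1 = 1 := rfl
theorem rf_alg (c : ℝ) : rf (algebraMap ℝ V c) = algebraMap ℝ V c := rfl
theorem rf_two : rf 2 = 2 := by rw [two_eq, rf_alg]
theorem rf_four : rf 4 = 4 := by
  have : (4 : V) = algebraMap ℝ V 4 := by rw [map_ofNat]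
  rw [this, rf_alg]

theorem ext_rf (f : V) (y : ℝ) : ext (rf f) y = ext f (-y) := by
  unfold ext
  rw [rf_apply]
  congr 1
  apply Subtype.ext
  change -((projIcc (-a) a neg_a_le y : K) : ℝ) = (projIcc (-a) a neg_a_le (-y) : K)
  rw [coe_projIcc, coe_projIcc]
  rcases le_total y (-a) with h | h
  · rw [min_eq_right (h.trans neg_a_le), max_eq_left h, min_eq_left (by linarith),
      max_eq_right neg_a_le]
    ring
  · rcases le_total y a with h' | h'
    · rw [min_eq_right h', max_eq_right h, min_eq_right (by linarith), max_eq_right (by linarith)]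
    · rw [min_eq_left h', max_eq_right neg_a_le, min_eq_right (by linarith),
        max_eq_left (by linarith)]

theorem rf_P (f : V) : rf (P f) = -(P (rf f)) := by
  ext x
  rw [rf_apply, P_apply]
  change _ = -(P (rf f) x)
  rw [P_apply]
  have h1 : ((ng x : K) : ℝ) = -(x : ℝ) := rfl
  rw [h1]
  simp only [ext_rf]
  rw [intervalIntegral.integral_comp_neg (fun y => ext f y), neg_zero,
    intervalIntegral.integral_symm]

theorem P_neg_rf (f : V) : P (-(rf f)) = rf (P f) := by rw [map_neg, rf_P]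
theorem P_rf (f : V) : P (rf f) = -(rf (P f)) := by rw [rf_P, neg_neg]

section refl
variable (j w : V)

theorem Ph_rf : Ph (rf j) = -(rf (Ph j)) := by
  unfold Ph
  rw [← rf_mul, P_rf]

theorem sn_rf : sn (rf j) = -(rf (sn j)) := by
  ext x
  change Real.sin (Ph (rf j) x) = -Real.sin (Ph j (ng x))
  rw [Ph_rf]
  change Real.sin (-(Ph j (ng x))) = _
  rw [Real.sin_neg]

theorem cn_rf : cn (rf j) = rf (cn j) := by
  ext x
  change Real.cos (Ph (rf j) x) = Real.cos (Ph j (ng x))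
  rw [Ph_rf]
  change Real.cos (-(Ph j (ng x))) = _
  rw [Real.cos_neg]

theorem S2_rf : S2 (rf j) = -(rf (S2 j)) := by
  unfold S2
  rw [sn_rf, cn_rf, rf_mul, rf_mul, rf_two]
  ring

theorem C2_rf : C2 (rf j) = rf (C2 j) := by
  unfold C2
  rw [sn_rf, cn_rf, map_sub, rf_mul, rf_mul]
  ring

theorem M1_rf : M1 (rf j) (-(rf w)) = rf (M1 j w) := by
  unfold M1
  rw [C2_rf, ← P_neg_rf, rf_mul, rf_mul, rf_mul]
  congr 1
  ring

theorem M2_rf : M2 (rf j) (-(rf w)) = -(rf (M2 j w)) := by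
  unfold M2
  rw [S2_rf, ← P_rf, rf_mul, rf_mul, rf_mul]
  congr 1
  ring

theorem ng_ka : ng ka = kma := rfl

theorem ng_kma : ng kma = ka := Subtype.ext (neg_neg a)

theorem Av_rf : Av (rf j) (-(rf w)) = rf (Av j w) := by
  unfold Av
  rw [M1_rf, map_sub, rf_alg, rf_apply, rf_apply, ng_ka, ng_kma, add_comm (M1 j w kma)]

theorem two_cancel {f g : V} (h : 2 * f = 2 * g) : f = g := by
  rw [← smul_half f, ← smul_half g, h]

theorem Ps_rf : Ps (rf j) (-(rf w)) = -(rf (Ps j w)) := by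
  apply two_cancel
  have h : rf (2 * Ps j w) = rf (S2 j * Av j w - C2 j * M2 j w) := by rw [two_Ps]
  rw [rf_mul, rf_two, map_sub, rf_mul, rf_mul] at h
  rw [two_Ps, S2_rf, C2_rf, Av_rf, M2_rf]
  linear_combination h

theorem Pd_rf : Pd (rf j) (-(rf w)) = rf (Pd j w) := by
  unfold Pd
  rw [S2_rf, C2_rf, Av_rf, M2_rf, map_add, rf_mul, rf_mul]
  ring

end refl

theorem R₀_neg (x : ℝ) : R₀ (-x) = R₀ x := by
  unfold R₀
  rw [Real.cos_neg, mul_neg, Real.cos_neg]

theorem w₀_neg (x : ℝ) : w₀ (-x) = -w₀ x := by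
  unfold w₀
  rw [mul_neg, Real.sin_neg, Real.cos_neg]
  ring

theorem dR₀_neg (x : ℝ) : deriv R₀ (-x) = -deriv R₀ x := by
  have h1 : (fun y => R₀ (-y)) = R₀ := funext R₀_neg
  have h2 := deriv_comp_neg (f := R₀) (x := x)
  rw [h1] at h2
  linarith

theorem R0v_rf : rf R0v = R0v := by
  ext x
  exact R₀_neg x

theorem q0v_rf : rf q0v = -q0v := by
  ext x
  exact dR₀_neg x

theorem w0v_rf : rf w0v = -w0v := by
  ext x
  exact w₀_neg x

/-- the reflected triple -/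
def RF : V × V × V →L[ℝ] V × V × V :=
  (rf.comp (ContinuousLinearMap.fst ℝ V (V × V))).prod
    ((-(rf.comp ((ContinuousLinearMap.fst ℝ V V).comp (ContinuousLinearMap.snd ℝ V (V × V))))).prod
      (-(rf.comp ((ContinuousLinearMap.snd ℝ V V).comp (ContinuousLinearMap.snd ℝ V (V × V))))))

theorem RF_apply (U : V × V × V) : RF U = (rf U.1, -(rf U.2.1), -(rf U.2.2)) := rfl

theorem F_RF (U : V × V × V) : F (RF U) = RF (F U) := by
  rw [RF_apply, RF_apply]
  unfold F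
  refine Prod.ext ?_ (Prod.ext ?_ ?_)
  · change Pd (rf U.1) (-(rf U.2.2)) * rf U.1 = rf (Pd U.1 U.2.2 * U.1)
    rw [Pd_rf, rf_mul]
  · change (-(rf U.2.2) - 4 * Ps (rf U.1) (-(rf U.2.2))) * (R0v * rf U.1) -
      Pd (rf U.1) (-(rf U.2.2)) * -(rf U.2.1) = -(rf ((U.2.2 - 4 * Ps U.1 U.2.2) * (R0v * U.1) -
        Pd U.1 U.2.2 * U.2.1))
    rw [Pd_rf, Ps_rf, map_sub, rf_mul, rf_mul, rf_mul, map_sub, rf_mul, R0v_rf, rf_four]
    ring
  · change -(R0v * rf U.1 * sn (rf U.1) + -(rf U.2.1) * cn (rf U.1)) =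
      -(rf (-(R0v * U.1 * sn U.1 + U.2.1 * cn U.1)))
    rw [sn_rf, cn_rf, map_neg, map_add, rf_mul, rf_mul, rf_mul, R0v_rf]
    ring

/-! ### solutions -/

section sol
variable {t₁ t₂ : ℝ} {U : ℝ → V × V × V}

theorem d1 (hU : VSol (Ioo t₁ t₂) U) {t : ℝ} (ht : t ∈ Ioo t₁ t₂) :
    HasDerivAt (fun s => (U s).1) (Pd (U t).1 (U t).2.2 * (U t).1) t :=
  (ContinuousLinearMap.fst ℝ V (V × V)).hasFDerivAt.comp_hasDerivAt t (hU.ode t ht)

theorem d2 (hU : VSol (Ioo t₁ t₂) U) {t : ℝ} (ht : t ∈ Ioo t₁ t₂) :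
    HasDerivAt (fun s => (U s).2.1) (((U t).2.2 - 4 * Ps (U t).1 (U t).2.2) * (R0v * (U t).1) -
      Pd (U t).1 (U t).2.2 * (U t).2.1) t :=
  ((ContinuousLinearMap.fst ℝ V V).comp
    (ContinuousLinearMap.snd ℝ V (V × V))).hasFDerivAt.comp_hasDerivAt t (hU.ode t ht)

theorem d3 (hU : VSol (Ioo t₁ t₂) U) {t : ℝ} (ht : t ∈ Ioo t₁ t₂) :
    HasDerivAt (fun s => (U s).2.2) (-(R0v * (U t).1 * sn (U t).1 + (U t).2.1 * cn (U t).1)) t :=
  ((ContinuousLinearMap.snd ℝ V V).comp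
    (ContinuousLinearMap.snd ℝ V (V × V))).hasFDerivAt.comp_hasDerivAt t (hU.ode t ht)

theorem ucont (hU : VSol (Ioo t₁ t₂) U) : ContinuousOn U (Ioo t₁ t₂) :=
  fun t ht => (hU.ode t ht).continuousAt.continuousWithinAt

theorem jwcont (hU : VSol (Ioo t₁ t₂) U) :
    ContinuousOn (fun t => ((U t).1, (U t).2.2)) (Ioo t₁ t₂) :=
  (continuous_fst.comp_continuousOn (ucont hU)).prodMk
    ((continuous_snd.comp continuous_snd).comp_continuousOn (ucont hU))

theorem at_x {f : ℝ → V} {f' : V} {t : ℝ} (h : HasDerivAt f f' t) (x : K) :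
    HasDerivAt (fun s => f s x) (f' x) t :=
  (ContinuousMap.evalCLM ℝ x : V →L[ℝ] ℝ).hasFDerivAt.comp_hasDerivAt t h

/-- the first identity -/
theorem id1 (hU : VSol (Ioo t₁ t₂) U) {t : ℝ} (ht : t ∈ Ioo t₁ t₂) :
    HasDerivAt (fun s => Ph (U s).1) (2 * Ps (U t).1 (U t).2.2) t := by
  have h := P.hasFDerivAt.comp_hasDerivAt t ((d1 hU ht).mul (d1 hU ht))
  have e1 : 2 * Ps (U t).1 (U t).2.2 = P (Pd (U t).1 (U t).2.2 * (U t).1 * (U t).1 +
      (U t).1 * (Pd (U t).1 (U t).2.2 * (U t).1)) := by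
    rw [← P_Pd, two_mul, ← map_add]
    congr 1
    ring
  rw [e1]
  exact h

/-- positivity -/
theorem id2 (h1 : t₁ < 0) (h2 : 0 < t₂) (hU : VSol (Ioo t₁ t₂) U) {t : ℝ} (ht : t ∈ Ioo t₁ t₂)
    (x : K) : 0 < (U t).1 x := by
  have hd : ∀ s ∈ Ioo t₁ t₂, HasDerivAt (fun s => (U s).1 x)
      (Pd (U s).1 (U s).2.2 x * (U s).1 x) s := fun s hs => at_x (d1 hU hs) x
  have h0 : (U 0).1 x = 1 := by rw [hU.ini]; rfl
  by_contra hcon
  push Not at hcon
  -- a zero
  have hc : ContinuousOn (fun s => (U s).1 x) (uIcc 0 t) := by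
    intro s hs
    refine (hd s ?_).continuousAt.continuousWithinAt
    rcases le_total 0 t with h | h
    · rw [uIcc_of_le h] at hs
      exact ⟨h1.trans_le hs.1, hs.2.trans_lt ht.2⟩
    · rw [uIcc_of_ge h] at hs
      exact ⟨ht.1.trans_le hs.1, hs.2.trans_lt h2⟩
  obtain ⟨s, hs, hs0⟩ : (0 : ℝ) ∈ (fun s => (U s).1 x) '' uIcc 0 t := by
    apply intermediate_value_uIcc hc
    change (0 : ℝ) ∈ uIcc ((U 0).1 x) ((U t).1 x)
    rw [h0, uIcc_of_ge (hcon.trans zero_le_one)]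
    exact ⟨hcon, zero_le_one⟩
  have hs' : s ∈ Ioo t₁ t₂ := by
    rcases le_total 0 t with h | h
    · rw [uIcc_of_le h] at hs
      exact ⟨h1.trans_le hs.1, hs.2.trans_lt ht.2⟩
    · rw [uIcc_of_ge h] at hs
      exact ⟨ht.1.trans_le hs.1, hs.2.trans_lt h2⟩
  have hz := gron_c hs' hd hs0 (c := fun s => ‖Pd (U s).1 (U s).2.2‖)
    ((Pd_cont.comp_continuousOn (jwcont hU)).norm) (fun s _ => by
      rw [norm_mul]
      exact mul_le_mul_of_nonneg_right ((Pd (U s).1 (U s).2.2).norm_coe_le_norm x)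
        (norm_nonneg _)) 0 ⟨h1, h2⟩
  rw [h0] at hz
  exact one_ne_zero hz

theorem ini3 : R0v * 1 - algebraMap ℝ V ((R0v * 1) k0) - P (q0v * (1 * 1)) = 0 := by
  have h : Pr R0v q0v := by
    intro x hx
    have h1 : HasDerivAt R₀ (deriv R₀ x) x :=
      ((contDiff_R₀.differentiable (by norm_num)) x).hasDerivAt
    have h2 : ext q0v x = deriv R₀ x := by
      rw [ext_of_mem _ (Ioo_subset_Icc_self hx)]; rfl
    rw [h2]
    refine h1.congr_of_eventuallyEq ?_
    filter_upwards [Icc_mem_nhds hx.1 hx.2] with y hy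
    rw [ext_of_mem _ hy]; rfl
  have h2 := pr_eq h
  rw [mul_one, mul_one, mul_one]
  nth_rewrite 1 [h2]
  ring

/-- the derivative of the density -/
theorem id3 (h1 : t₁ < 0) (h2 : 0 < t₂) (hU : VSol (Ioo t₁ t₂) U) {t : ℝ} (ht : t ∈ Ioo t₁ t₂) :
    R0v * (U t).1 = algebraMap ℝ V ((R0v * (U t).1) k0) +
      P ((U t).2.1 * ((U t).1 * (U t).1)) := by
  set E : ℝ → V := fun s => R0v * (U s).1 - algebraMap ℝ V ((R0v * (U s).1) k0) -
    P ((U s).2.1 * ((U s).1 * (U s).1)) with hE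
  have hEk : ∀ s, E s k0 = 0 := by
    intro s
    have : E s k0 = (R0v * (U s).1) k0 - (R0v * (U s).1) k0 -
      P ((U s).2.1 * ((U s).1 * (U s).1)) k0 := rfl
    rw [this, P_k0]; ring
  have hd : ∀ s ∈ Ioo t₁ t₂, HasDerivAt E (Pd (U s).1 (U s).2.2 * E s -
      P ((((U s).2.2 - 4 * Ps (U s).1 (U s).2.2) * ((U s).1 * (U s).1)) * E s)) s := by
    intro s hs
    have j' := d1 hU hs
    have q' := d2 hU hs
    have r' : HasDerivAt (fun s => R0v * (U s).1) (R0v * (Pd (U s).1 (U s).2.2 * (U s).1)) s :=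
      j'.const_mul R0v
    have a' : HasDerivAt (fun s => algebraMap ℝ V ((R0v * (U s).1) k0))
        (algebraMap ℝ V ((R0v * (Pd (U s).1 (U s).2.2 * (U s).1)) k0)) s := by
      have h3 := at_x r' k0
      have h4 := h3.smul_const (1 : V)
      simp only [← Algebra.algebraMap_eq_smul_one] at h4
      exact h4
    have jj' : HasDerivAt (fun s => (U s).1 * (U s).1) (Pd (U s).1 (U s).2.2 * (U s).1 * (U s).1 +
        (U s).1 * (Pd (U s).1 (U s).2.2 * (U s).1)) s := j'.mul j'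
    have qj' : HasDerivAt (fun s => (U s).2.1 * ((U s).1 * (U s).1))
        ((((U s).2.2 - 4 * Ps (U s).1 (U s).2.2) * (R0v * (U s).1) -
          Pd (U s).1 (U s).2.2 * (U s).2.1) * ((U s).1 * (U s).1) +
          (U s).2.1 * (Pd (U s).1 (U s).2.2 * (U s).1 * (U s).1 +
            (U s).1 * (Pd (U s).1 (U s).2.2 * (U s).1))) s := q'.mul jj'
    have p' := P.hasFDerivAt.comp_hasDerivAt s qj'
    have e' := (r'.sub a').sub p'
    refine e'.congr_deriv ?_
    set j := (U s).1 with hj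
    set q := (U s).2.1 with hq
    set w := (U s).2.2 with hw
    set f := Pd j w with hf
    set f₁ := (w - 4 * Ps j w) * (j * j) with hf₁
    set g := algebraMap ℝ V ((R0v * j) k0) + P (q * (j * j)) with hg
    have hEs : E s = R0v * j - g := by
      rw [hE, hg]
      simp only [← hj, ← hq]
      ring
    have hpf : Pr f f₁ := pr_Pd j w
    have hpg : Pr g (q * (j * j)) := pr_of_eq (pr_add (pr_const _) (pr_P _)) (zero_add _)
    have hfg := pr_eq (pr_mul hpf hpg)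
    have hfgk : (f * g) k0 = (f * (R0v * j)) k0 := by
      have h5 : (f * E s) k0 = 0 := by
        change f k0 * E s k0 = 0
        rw [hEk, mul_zero]
      have h6 : (f * (R0v * j)) k0 = (f * E s) k0 + (f * g) k0 := by
        have : f * (R0v * j) = f * E s + f * g := by rw [hEs]; ring
        rw [this]; rfl
      rw [h6, h5, zero_add]
    rw [hfgk, map_add] at hfg
    have e1 : R0v * (f * j) = f * E s + f * g := by rw [hEs]; ring
    have e2 : (R0v * (f * j)) = f * (R0v * j) := by ring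
    have e3 : P (((w - 4 * Ps j w) * (R0v * j) - f * q) * (j * j) + q * (f * j * j + j * (f * j))) =
        P (f₁ * E s) + (P (f₁ * g) + P (f * (q * (j * j)))) := by
      rw [← map_add, ← map_add]
      congr 1
      rw [hEs, hf₁]
      ring
    rw [e3, e2, e2.symm, e1, ← e1, e2]
    have e4 : f * (R0v * j) = f * E s + f * g := by rw [hEs]; ring
    linear_combination e4 + hfg
  have hz := gron_c (s := 0) ⟨h1, h2⟩ hd (by
    simp only [hE]
    rw [hU.ini]
    exact ini3)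
    (c := fun s => ‖Pd (U s).1 (U s).2.2‖ +
      ‖P‖ * ‖((U s).2.2 - 4 * Ps (U s).1 (U s).2.2) * ((U s).1 * (U s).1)‖) ?_ ?_ t ht
  · simp only [hE] at hz
    linear_combination hz
  · refine (Pd_cont.comp_continuousOn (jwcont hU)).norm.add (continuousOn_const.mul ?_)
    refine ContinuousOn.norm ?_
    have hj := continuous_fst.comp_continuousOn (jwcont hU)
    have hw := continuous_snd.comp_continuousOn (jwcont hU)
    exact (hw.sub (continuousOn_const.mul (Ps_cont.comp_continuousOn (jwcont hU)))).mul (hj.mul hj)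
  · intro s _
    refine (norm_sub_le _ _).trans ?_
    rw [add_mul]
    refine add_le_add (norm_mul_le _ _) ?_
    refine (P.le_opNorm _).trans ?_
    rw [mul_assoc ‖P‖]
    exact mul_le_mul_of_nonneg_left (norm_mul_le _ _) (norm_nonneg _)

/-- parity -/
theorem id4 (hL : S_LBF) (h1 : t₁ < 0) (h2 : 0 < t₂) (hU : VSol (Ioo t₁ t₂) U) {t : ℝ}
    (ht : t ∈ Ioo t₁ t₂) : RF (U t) = U t := by
  have hd : ∀ s ∈ Ioo t₁ t₂, HasDerivAt (fun s => RF (U s) - U s) (F (RF (U s)) - F (U s)) s := by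
    intro s hs
    have h3 := RF.hasFDerivAt.comp_hasDerivAt s (hU.ode s hs)
    rw [F_RF]
    exact h3.sub (hU.ode s hs)
  have h0 : RF (U 0) - U 0 = 0 := by
    rw [hU.ini, RF_apply, sub_eq_zero]
    refine Prod.ext rfl (Prod.ext ?_ ?_)
    · change -(rf q0v) = q0v
      rw [q0v_rf, neg_neg]
    · change -(rf w0v) = w0v
      rw [w0v_rf, neg_neg]
  have hz := gron (s := 0) ⟨h1, h2⟩ hd h0 (fun s₁ s₂ hs1 hs2 => by
    have hsub : Icc s₁ s₂ ⊆ Ioo t₁ t₂ := fun x hx => ⟨hs1.trans_le hx.1, hx.2.trans_lt hs2⟩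
    obtain ⟨B₁, hB₁⟩ := isCompact_Icc.exists_bound_of_continuousOn ((ucont hU).mono hsub)
    obtain ⟨B₂, hB₂⟩ := isCompact_Icc.exists_bound_of_continuousOn
      ((RF.continuous.comp_continuousOn (ucont hU)).mono hsub)
    obtain ⟨C, hC⟩ := hL (max B₁ B₂)
    exact ⟨C, fun s hs => (hC _ _ ((hB₂ s hs).trans (le_max_right _ _))
      ((hB₁ s hs).trans (le_max_left _ _))).2⟩) t ht
  exact sub_eq_zero.1 hz

theorem id4' (hL : S_LBF) (h1 : t₁ < 0) (h2 : 0 < t₂) (hU : VSol (Ioo t₁ t₂) U) {t : ℝ}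
    (ht : t ∈ Ioo t₁ t₂) (x y : K) (hxy : (y : ℝ) = -x) : (U t).1 y = (U t).1 x ∧
      (U t).2.1 y = -(U t).2.1 x ∧ (U t).2.2 y = -(U t).2.2 x := by
  have h := id4 hL h1 h2 hU ht
  have hy : y = ng x := Subtype.ext hxy
  have e1 : rf (U t).1 = (U t).1 := congrArg Prod.fst h
  have e2 : -(rf (U t).2.1) = (U t).2.1 := congrArg (fun q => q.2.1) h
  have e3 : -(rf (U t).2.2) = (U t).2.2 := congrArg (fun q => q.2.2) h
  rw [hy]
  refine ⟨?_, ?_, ?_⟩
  · exact congrArg (fun f : V => f x) e1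
  · have h3 : -((U t).2.1 (ng x)) = (U t).2.1 x := congrArg (fun f : V => f x) e2
    linarith
  · have h3 : -((U t).2.2 (ng x)) = (U t).2.2 x := congrArg (fun f : V => f x) e3
    linarith

theorem Av_ka (hL : S_LBF) (h1 : t₁ < 0) (h2 : 0 < t₂) (hU : VSol (Ioo t₁ t₂) U) {t : ℝ}
    (ht : t ∈ Ioo t₁ t₂) : Av (U t).1 (U t).2.2 ka = 0 := by
  have h := id4 hL h1 h2 hU ht
  have e1 : rf (U t).1 = (U t).1 := congrArg Prod.fst h
  have e3 : -(rf (U t).2.2) = (U t).2.2 := congrArg (fun q => q.2.2) h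
  have e4 : M1 (U t).1 (U t).2.2 = rf (M1 (U t).1 (U t).2.2) := by
    rw [← M1_rf, e1, e3]
  have e5 : M1 (U t).1 (U t).2.2 ka = M1 (U t).1 (U t).2.2 kma := by
    have := congrArg (fun f : V => f ka) e4
    simp only [rf_apply, ng_ka] at this
    exact this
  have e6 : Av (U t).1 (U t).2.2 ka = M1 (U t).1 (U t).2.2 ka -
    (M1 (U t).1 (U t).2.2 ka + M1 (U t).1 (U t).2.2 kma) / 2 := rfl
  rw [e6, ← e5]
  ring

theorem C2_ka (j : V) (x : K) : C2 j x = Real.cos (2 * Ph j x) := by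
  have : C2 j x = Real.cos (Ph j x) * Real.cos (Ph j x) - Real.sin (Ph j x) * Real.sin (Ph j x) :=
    rfl
  rw [this, Real.cos_two_mul]
  have := Real.sin_sq_add_cos_sq (Ph j x)
  nlinarith

/-- the wall -/
theorem id5 (hL : S_LBF) (h1 : t₁ < 0) (h2 : 0 < t₂) (hU : VSol (Ioo t₁ t₂) U) {t : ℝ}
    (ht : t ∈ Ioo t₁ t₂) : Ph (U t).1 ka = a := by
  have hd : ∀ s ∈ Ioo t₁ t₂, HasDerivAt (fun s => Ph (U s).1 ka - a)
      ((2 * Ps (U s).1 (U s).2.2) ka) s := fun s hs => (at_x (id1 hU hs) ka).sub_const a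
  have h0 : Ph (U 0).1 ka - a = 0 := by
    rw [hU.ini]
    change P (1 * 1) ka - a = 0
    rw [mul_one, P_apply]
    have : ∀ y : ℝ, ext (1 : V) y = 1 := fun y => rfl
    simp only [this]
    rw [intervalIntegral.integral_const]
    change (a - 0) • (1 : ℝ) - a = 0
    simp
  have hz := gron_c (s := 0) ⟨h1, h2⟩ hd h0 (c := fun s => 2 * ‖M2 (U s).1 (U s).2.2‖)
    (continuousOn_const.mul (M2_cont.comp_continuousOn (jwcont hU)).norm) (fun s hs => by
      rw [two_Ps]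
      have e1 : (S2 (U s).1 * Av (U s).1 (U s).2.2 - C2 (U s).1 * M2 (U s).1 (U s).2.2) ka =
        S2 (U s).1 ka * Av (U s).1 (U s).2.2 ka - C2 (U s).1 ka * M2 (U s).1 (U s).2.2 ka := rfl
      rw [e1, Av_ka hL h1 h2 hU hs, mul_zero, zero_sub, norm_neg, norm_mul, C2_ka]
      have e2 : ‖Real.cos (2 * Ph (U s).1 ka)‖ ≤ 2 * ‖Ph (U s).1 ka - a‖ := by
        have e3 : Real.cos (2 * a) = 0 := by
          have : 2 * a = Real.pi / 2 := by unfold a; ring
          rw [this, Real.cos_pi_div_two]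
        have e4 := Real.abs_cos_sub_cos_le (2 * Ph (U s).1 ka) (2 * a)
        rw [e3, sub_zero, ← mul_sub, abs_mul, abs_two] at e4
        exact e4
      have e5 : ‖M2 (U s).1 (U s).2.2 ka‖ ≤ ‖M2 (U s).1 (U s).2.2‖ :=
        (M2 (U s).1 (U s).2.2).norm_coe_le_norm ka
      calc ‖Real.cos (2 * Ph (U s).1 ka)‖ * ‖M2 (U s).1 (U s).2.2 ka‖ ≤
            (2 * ‖Ph (U s).1 ka - a‖) * ‖M2 (U s).1 (U s).2.2‖ :=
            mul_le_mul e2 e5 (norm_nonneg _) (by positivity)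
        _ = _ := by ring) t ht
  linarith

theorem eni_zero {x : ℝ} (h1 : Real.pi / 6 ≤ |x|) (h2 : |x| ≤ a) :
    expNegInvGlue (Real.cos (2 * x) - 1 / 2) = 0 := by
  apply expNegInvGlue.zero_of_nonpos
  have h3 : Real.cos (2 * x) = Real.cos (2 * |x|) := by
    rw [← Real.cos_abs (2 * x), abs_mul, abs_two]
  have h4 : Real.cos (2 * |x|) ≤ Real.cos (Real.pi / 3) := by
    apply Real.cos_le_cos_of_nonneg_of_le_pi (by positivity)
    · unfold a at h2
      linarith [Real.pi_pos]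
    · linarith
  rw [Real.cos_pi_div_three] at h4
  rw [h3]
  linarith

theorem R₀_zero {x : ℝ} (h1 : Real.pi / 6 ≤ |x|) (h2 : |x| ≤ a) : R₀ x = 0 := by
  unfold R₀
  rw [eni_zero h1 h2]
  ring

theorem w₀_zero {x : ℝ} (h1 : Real.pi / 6 ≤ |x|) (h2 : |x| ≤ a) : w₀ x = 0 := by
  unfold w₀
  rw [eni_zero h1 h2]
  ring

theorem dR₀_zero {x : ℝ} (h1 : Real.pi / 6 ≤ |x|) (h2 : |x| ≤ a) : deriv R₀ x = 0 := by
  apply IsLocalMax.deriv_eq_zero
  have h3 : 0 < Real.cos x := by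
    apply Real.cos_pos_of_mem_Ioo
    have h4 : |x| < Real.pi / 2 := by
      unfold a at h2
      linarith [Real.pi_pos]
    exact ⟨(abs_lt.1 h4).1, (abs_lt.1 h4).2⟩
  filter_upwards [Real.continuous_cos.continuousAt.eventually (lt_mem_nhds h3)] with y hy
  rw [R₀_zero h1 h2]
  unfold R₀
  have := mul_nonneg hy.le (expNegInvGlue.nonneg (Real.cos (2 * y) - 1 / 2))
  linarith

/-- the support -/
theorem id6 (h1 : t₁ < 0) (h2 : 0 < t₂) (hU : VSol (Ioo t₁ t₂) U) {t : ℝ}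
    (ht : t ∈ Ioo t₁ t₂) (x : K) (hx : Real.pi / 6 ≤ |(x : ℝ)|) :
    (U t).2.1 x = 0 ∧ (U t).2.2 x = 0 := by
  have hxa : |(x : ℝ)| ≤ a := abs_le.2 ⟨x.2.1, x.2.2⟩
  have hR : R0v x = 0 := R₀_zero hx hxa
  have hq : ∀ s ∈ Ioo t₁ t₂, (U s).2.1 x = 0 := by
    refine gron_c (s := 0) ⟨h1, h2⟩ (fun s hs => at_x (d2 hU hs) x) ?_
      (c := fun s => ‖Pd (U s).1 (U s).2.2‖) ((Pd_cont.comp_continuousOn (jwcont hU)).norm)
      (fun s _ => ?_)
    · rw [hU.ini]
      exact dR₀_zero hx hxa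
    · have e1 : (((U s).2.2 - 4 * Ps (U s).1 (U s).2.2) * (R0v * (U s).1) -
          Pd (U s).1 (U s).2.2 * (U s).2.1) x =
          ((U s).2.2 - 4 * Ps (U s).1 (U s).2.2) x * (R0v x * (U s).1 x) -
          Pd (U s).1 (U s).2.2 x * (U s).2.1 x := rfl
      rw [e1, hR, zero_mul, mul_zero, zero_sub, norm_neg, norm_mul]
      exact mul_le_mul_of_nonneg_right ((Pd (U s).1 (U s).2.2).norm_coe_le_norm x)
        (norm_nonneg _)
  refine ⟨hq t ht, ?_⟩
  refine gron_c (s := 0) ⟨h1, h2⟩ (fun s hs => at_x (d3 hU hs) x) ?_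
      (c := fun _ => 0) continuousOn_const (fun s hs => ?_) t ht
  · rw [hU.ini]
    exact w₀_zero hx hxa
  · have e1 : (-(R0v * (U s).1 * sn (U s).1 + (U s).2.1 * cn (U s).1)) x =
        -(R0v x * (U s).1 x * sn (U s).1 x + (U s).2.1 x * cn (U s).1 x) := rfl
    rw [e1, hR, hq s hs]
    simp

end sol

/-- identities for the solutions -/
theorem main (hL : S_LBF) : S_ID := by
  intro t₁ t₂ h1 h2 U hU t ht
  exact ⟨id1 hU ht, fun x => id2 h1 h2 hU ht x, id3 h1 h2 hU ht,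
    fun x y hxy => id4' hL h1 h2 hU ht x y hxy, id5 hL h1 h2 hU ht,
    fun x hx => id6 h1 h2 hU ht x hx⟩

end

end Pool.Agent.N982.BQ.Ident
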