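import Pool.Agent.N982.BQ.Stm

/-!
Project BQ, part JOINT (helper391): joint smoothness in the label and in time.

`L N x f = (Pᴺ f)(x)` as a functional of `f`; `x ↦ L (N + 1) x` is `N` times continuously
differentiable in the norm of the dual space, so by Taylor's formula in the label no theorem about
partial derivatives is needed.
-/

set_option autoImplicit false

open Set MeasureTheory
open scoped ContDiff

namespace Pool.Agent.N982.BQ.Joint

noncomputable section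

/-- evaluation at `x` -/
def ev (x : ℝ) : V →L[ℝ] ℝ := ContinuousMap.evalCLM ℝ (projIcc (-a) a neg_a_le x)

lemma ev_apply (x : ℝ) (f : V) : ev x f = ext f x := rfl

/-- the functional `f ↦ (Pᴺ f)(x)` -/
def L (N : ℕ) (x : ℝ) : V →L[ℝ] ℝ := (ev x).comp (P ^ N)

lemma L_apply (N : ℕ) (x : ℝ) (f : V) : L N x f = ext ((P ^ N) f) x := rfl

lemma L_zero (x : ℝ) (f : V) : L 0 x f = ext f x := rfl

lemma L_succ (N : ℕ) (x : ℝ) : L (N + 1) x = (L 1 x).comp (P ^ N) := by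
  ext f
  rw [L_apply, pow_succ', ContinuousLinearMap.comp_apply, L_apply, pow_one]
  rfl

lemma L_P (N : ℕ) (x : ℝ) (f : V) : L N x (P f) = L (N + 1) x f := by
  rw [L_apply, L_apply, pow_succ]
  rfl

lemma ext_P (f : V) (x : ℝ) :
    ext (P f) x = ∫ y in (0 : ℝ)..(projIcc (-a) a neg_a_le x : ℝ), ext f y := rfl

lemma ext_P_mem (f : V) {x : ℝ} (hx : x ∈ Icc (-a) a) :
    ext (P f) x = ∫ y in (0 : ℝ)..x, ext f y := by
  rw [ext_P, projIcc_of_mem _ hx]

lemma L_mem (N : ℕ) (f : V) {x : ℝ} (hx : x ∈ Icc (-a) a) :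
    L (N + 1) x f = ∫ y in (0 : ℝ)..x, L N y f := by
  rw [L_apply, pow_succ']
  exact ext_P_mem ((P ^ N) f) hx

lemma lip_L1 : LipschitzWith 1 (L 1) := by
  refine LipschitzWith.of_dist_le_mul fun x y => ?_
  rw [dist_eq_norm, NNReal.coe_one, one_mul]
  refine ContinuousLinearMap.opNorm_le_bound _ dist_nonneg fun f => ?_
  have h1 : (L 1 x - L 1 y) f = ∫ s in (projIcc (-a) a neg_a_le y : ℝ)..(projIcc (-a) a neg_a_le x : ℝ),
      ext f s := by
    rw [sub_apply, L_apply, L_apply, pow_one, ext_P, ext_P]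
    exact intervalIntegral.integral_interval_sub_left
      ((continuous_ext f).intervalIntegrable _ _) ((continuous_ext f).intervalIntegrable _ _)
  rw [h1]
  have h2 := intervalIntegral.norm_integral_le_of_norm_le_const
    (a := (projIcc (-a) a neg_a_le y : ℝ)) (b := (projIcc (-a) a neg_a_le x : ℝ))
    (f := ext f) (C := ‖f‖) (fun r _ => abs_ext_le f r)
  refine h2.trans ?_
  rw [mul_comm]
  gcongr
  have h3 := (LipschitzWith.projIcc neg_a_le).dist_le_mul x y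
  rw [NNReal.coe_one, one_mul] at h3
  exact h3

lemma cont_L (N : ℕ) : Continuous (L (N + 1)) := by
  have h : L (N + 1) = fun x => (L 1 x).comp (P ^ N) := funext fun x => L_succ N x
  rw [h]
  exact lip_L1.continuous.clm_comp continuous_const

lemma deriv_of {E : Type*} [NormedAddCommGroup E] [NormedSpace ℝ E] [CompleteSpace E]
    {g G : ℝ → E} (hg : Continuous g) (h : ∀ y ∈ Ioo (-a) a, G y = ∫ s in (0 : ℝ)..y, g s)
    {x : ℝ} (hx : x ∈ Ioo (-a) a) : HasDerivAt G (g x) x := by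
  have h1 : HasDerivAt (fun y => ∫ s in (0 : ℝ)..y, g s) (g x) x :=
    (hg.integral_hasStrictDerivAt 0 x).hasDerivAt
  refine h1.congr_of_eventuallyEq ?_
  filter_upwards [isOpen_Ioo.mem_nhds hx] with y hy
  exact h y hy

lemma int_app {E : Type*} [NormedAddCommGroup E] [NormedSpace ℝ E] [CompleteSpace E]
    {g : ℝ → E} (hg : Continuous g) (T : E →L[ℝ] ℝ) (u v : ℝ) :
    ∫ s in u..v, T (g s) = T (∫ s in u..v, g s) :=
  T.intervalIntegral_comp_comm (hg.intervalIntegrable u v)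

lemma deriv_L (N : ℕ) {x : ℝ} (hx : x ∈ Ioo (-a) a) : HasDerivAt (L (N + 2)) (L (N + 1) x) x := by
  have hc := cont_L N
  refine deriv_of (E := V →L[ℝ] ℝ) (g := L (N + 1)) (G := L (N + 2)) hc (fun y hy => ?_) hx
  ext f
  rw [L_mem (N + 1) f ⟨hy.1.le, hy.2.le⟩]
  exact int_app (E := V →L[ℝ] ℝ) (g := L (N + 1)) hc (ContinuousLinearMap.apply ℝ ℝ f) 0 y

lemma deriv_Lf (N : ℕ) (f : V) {x : ℝ} (hx : x ∈ Ioo (-a) a) :
    HasDerivAt (fun y => L (N + 1) y f) (L N x f) x := by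
  have hc : Continuous fun y => L N y f := continuous_ext _
  have h1 : HasDerivAt (fun y => ∫ s in (0 : ℝ)..y, L N s f) (L N x f) x :=
    (hc.integral_hasStrictDerivAt 0 x).hasDerivAt
  refine h1.congr_of_eventuallyEq ?_
  filter_upwards [isOpen_Ioo.mem_nhds hx] with y hy
  exact L_mem N f ⟨hy.1.le, hy.2.le⟩

lemma smooth_L (N : ℕ) : ContDiffOn ℝ N (L (N + 1)) (Ioo (-a) a) := by
  induction N with
  | zero =>
    rw [Nat.cast_zero, contDiffOn_zero]
    exact (cont_L 0).continuousOn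
  | succ N ih =>
    rw [Nat.cast_add, Nat.cast_one, contDiffOn_succ_iff_deriv_of_isOpen isOpen_Ioo]
    refine ⟨fun x hx => (deriv_L N hx).differentiableAt.differentiableWithinAt, ?_, ?_⟩
    · intro h
      exact absurd h (by simp)
    · exact ih.congr fun x hx => (deriv_L N hx).deriv

lemma smooth_one (N : ℕ) : ContDiffOn ℝ ∞ (fun x => L N x (1 : V)) (Ioo (-a) a) := by
  induction N with
  | zero =>
    have h : (fun x => L 0 x (1 : V)) = fun _ => (1 : ℝ) := rfl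
    rw [h]
    exact contDiffOn_const
  | succ N ih =>
    rw [contDiffOn_infty_iff_deriv_of_isOpen isOpen_Ioo]
    exact ⟨fun x hx => (deriv_Lf N 1 hx).differentiableAt.differentiableWithinAt,
      ih.congr fun x hx => (deriv_Lf N 1 hx).deriv⟩

variable {t₁ t₂ : ℝ}

lemma fst_maps : MapsTo (Prod.fst : ℝ × ℝ → ℝ) (Ioo (-a) a ×ˢ Ioo t₁ t₂) (Ioo (-a) a) :=
  fun _ hp => hp.1

lemma snd_maps : MapsTo (Prod.snd : ℝ × ℝ → ℝ) (Ioo (-a) a ×ˢ Ioo t₁ t₂) (Icc t₁ t₂) :=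
  fun _ hp => ⟨hp.2.1.le, hp.2.2.le⟩

lemma smooth_pair (k : ℕ) : ∀ (N : ℕ) (v : ℝ → V), Dx (Icc t₁ t₂) k v →
    ContDiffOn ℝ ((N + k : ℕ) : WithTop ℕ∞) (fun p : ℝ × ℝ => L (N + 1) p.1 (v p.2))
      (Ioo (-a) a ×ˢ Ioo t₁ t₂) := by
  induction k with
  | zero =>
    intro N v hv
    have hv' : ContDiffOn ℝ ∞ v (Icc t₁ t₂) := hv
    have h1 : ContDiffOn ℝ ((N : ℕ) : WithTop ℕ∞) (fun p : ℝ × ℝ => L (N + 1) p.1)
        (Ioo (-a) a ×ˢ Ioo t₁ t₂) := (smooth_L N).comp contDiffOn_fst fst_maps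
    have h2 : ContDiffOn ℝ ((N : ℕ) : WithTop ℕ∞) (fun p : ℝ × ℝ => v p.2)
        (Ioo (-a) a ×ˢ Ioo t₁ t₂) :=
      (hv'.of_le (by exact_mod_cast le_top)).comp contDiffOn_snd snd_maps
    exact h1.clm_apply h2
  | succ k ih =>
    intro N v hv
    obtain ⟨hv0, v₁, hv1, he⟩ := hv
    have h1 := ih (N + 1) v₁ hv1
    have h2 : ContDiffOn ℝ ∞ (fun p : ℝ × ℝ => (v p.2) k0) (Ioo (-a) a ×ˢ Ioo t₁ t₂) :=
      ((ContinuousMap.evalCLM ℝ k0 : V →L[ℝ] ℝ).contDiff.comp_contDiffOn hv0).comp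
        contDiffOn_snd snd_maps
    have h3 : ContDiffOn ℝ ∞ (fun p : ℝ × ℝ => L (N + 1) p.1 (1 : V)) (Ioo (-a) a ×ˢ Ioo t₁ t₂) :=
      (smooth_one (N + 1)).comp contDiffOn_fst fst_maps
    have h4 : ContDiffOn ℝ ((N + (k + 1) : ℕ) : WithTop ℕ∞)
        (fun p : ℝ × ℝ => (v p.2) k0 * L (N + 1) p.1 (1 : V) + L (N + 1 + 1) p.1 (v₁ p.2))
        (Ioo (-a) a ×ˢ Ioo t₁ t₂) := by
      refine ((h2.mul h3).of_le (by exact_mod_cast le_top)).add ?_
      rw [show N + (k + 1) = N + 1 + k by ring]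
      exact h1
    refine h4.congr fun p hp => ?_
    have h5 := he p.2 (snd_maps hp)
    show L (N + 1) p.1 (v p.2) = (v p.2) k0 * L (N + 1) p.1 (1 : V) + L (N + 1 + 1) p.1 (v₁ p.2)
    conv_lhs => rw [h5]
    rw [map_add, L_P, Algebra.algebraMap_eq_smul_one, map_smul, smul_eq_mul]

theorem main : S_JOINT := by
  intro t₁ t₂ h12 v hv
  rw [contDiffOn_infty]
  intro k
  obtain ⟨hv0, v₁, hv1, he⟩ := hv (k + 1)
  have h1 := smooth_pair k 0 v₁ hv1
  rw [zero_add, zero_add] at h1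
  have h2 : ContDiffOn ℝ ∞ (fun p : ℝ × ℝ => (v p.2) k0) (Ioo (-a) a ×ˢ Ioo t₁ t₂) :=
    ((ContinuousMap.evalCLM ℝ k0 : V →L[ℝ] ℝ).contDiff.comp_contDiffOn hv0).comp
      contDiffOn_snd snd_maps
  refine ((h2.of_le (by exact_mod_cast le_top)).add h1).congr fun p hp => ?_
  have h5 := he p.2 (snd_maps hp)
  show ext (v p.2) p.1 = (v p.2) k0 + L 1 p.1 (v₁ p.2)
  conv_lhs => rw [h5]
  rw [← L_P 0, L_zero]
  rfl

end

end Pool.Agent.N982.BQ.Joint
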