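import Pool.Agent.N982.BQ.Stm

/-!
(LAG) The solutions in pointwise form.
-/

set_option autoImplicit false

open Set MeasureTheory
open scoped ContDiff

namespace Pool.Agent.N982.BQ.Lagr

open Pool.Agent.N982.BQ

noncomputable section

/-! ### Pointwise formulas -/

theorem ext_mul (f g : V) (x : ℝ) : ext (f * g) x = ext f x * ext g x := rfl

theorem ext_add (f g : V) (x : ℝ) : ext (f + g) x = ext f x + ext g x := rfl

theorem ext_alg (c : ℝ) (x : ℝ) : ext (algebraMap ℝ V c) x = c := rfl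

theorem ext_P (f : V) {x : ℝ} (hx : x ∈ Icc (-a) a) : ext (P f) x = ∫ y in (0 : ℝ)..x, ext f y := by
  rw [ext_of_mem _ hx, P_apply]

/-- the derivative of the primitive -/
theorem hasDeriv_P (f : V) {x : ℝ} (hx : x ∈ Icc (-a) a) :
    HasDerivWithinAt (ext (P f)) (ext f x) (Icc (-a) a) x := by
  have h1 : HasDerivAt (fun y => ∫ z in (0 : ℝ)..y, ext f z) (ext f x) x :=
    intervalIntegral.integral_hasDerivAt_right ((continuous_ext f).intervalIntegrable _ _)
      (continuous_ext f).stronglyMeasurable.stronglyMeasurableAtFilter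
      (continuous_ext f).continuousAt
  exact h1.hasDerivWithinAt.congr (fun y hy => ext_P f hy) (ext_P f hx)

theorem mem_neg {x : ℝ} (hx : x ∈ Icc (-a) a) : -x ∈ Icc (-a) a :=
  ⟨by linarith [hx.2], by linarith [hx.1]⟩

/-- even functions of the label -/
def Ev (f : V) : Prop := ∀ x y : K, (y : ℝ) = -x → f y = f x

/-- odd functions of the label -/
def Od (f : V) : Prop := ∀ x y : K, (y : ℝ) = -x → f y = -f x

theorem ext_ev {f : V} (hf : Ev f) {x : ℝ} (hx : x ∈ Icc (-a) a) : ext f (-x) = ext f x := by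
  rw [ext_of_mem f hx, ext_of_mem f (mem_neg hx)]
  exact hf ⟨x, hx⟩ ⟨-x, mem_neg hx⟩ rfl

theorem ext_od {f : V} (hf : Od f) {x : ℝ} (hx : x ∈ Icc (-a) a) : ext f (-x) = -ext f x := by
  rw [ext_of_mem f hx, ext_of_mem f (mem_neg hx)]
  exact hf ⟨x, hx⟩ ⟨-x, mem_neg hx⟩ rfl

theorem uIcc_sub {x : ℝ} (hx : x ∈ Icc (-a) a) : uIcc 0 x ⊆ Icc (-a) a := by
  have h0 : (0 : ℝ) ∈ Icc (-a) a := ⟨by linarith [a_pos], a_pos.le⟩
  exact (convex_Icc (-a) a).ordConnected.uIcc_subset h0 hx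

theorem P_ev {f : V} (hf : Ev f) : Od (P f) := by
  intro x y hxy
  rw [P_apply, P_apply, hxy]
  have h1 : ∫ z in (0 : ℝ)..-(x : ℝ), ext f z = -∫ z in (0 : ℝ)..(x : ℝ), ext f (-z) := by
    rw [intervalIntegral.integral_comp_neg (fun z => ext f z), neg_zero,
      intervalIntegral.integral_symm]
  rw [h1]
  congr 1
  refine intervalIntegral.integral_congr fun z hz => ?_
  exact ext_ev hf (uIcc_sub x.2 hz)

theorem P_od {f : V} (hf : Od f) : Ev (P f) := by
  intro x y hxy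
  rw [P_apply, P_apply, hxy]
  have h1 : ∫ z in (0 : ℝ)..-(x : ℝ), ext f z = -∫ z in (0 : ℝ)..(x : ℝ), ext f (-z) := by
    rw [intervalIntegral.integral_comp_neg (fun z => ext f z), neg_zero,
      intervalIntegral.integral_symm]
  rw [h1, ← intervalIntegral.integral_neg]
  refine intervalIntegral.integral_congr fun z hz => ?_
  show -ext f (-z) = ext f z
  rw [ext_od hf (uIcc_sub x.2 hz), neg_neg]

theorem sn_apply (j : V) (x : K) : sn j x = Real.sin (Ph j x) := rfl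

theorem cn_apply (j : V) (x : K) : cn j x = Real.cos (Ph j x) := rfl

theorem S2_apply (j : V) (x : K) : S2 j x = Real.sin (2 * Ph j x) := by
  rw [Real.sin_two_mul]
  rfl

theorem C2_apply (j : V) (x : K) : C2 j x = Real.cos (2 * Ph j x) := by
  rw [Real.cos_two_mul']
  show Real.cos (Ph j x) * Real.cos (Ph j x) - Real.sin (Ph j x) * Real.sin (Ph j x) = _
  ring

theorem M1_ev {j w : V} (hj : Ev j) (hw : Od w) : Ev (M1 j w) := by
  refine P_od ?_
  have hP : Od (Ph j) := P_ev fun x y h => by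
    show j y * j y = j x * j x
    rw [hj x y h]
  intro x y h
  show w y * C2 j y * (j y * j y) = -(w x * C2 j x * (j x * j x))
  rw [C2_apply, C2_apply, hP x y h, hj x y h, hw x y h]
  have : Real.cos (2 * -(Ph j x)) = Real.cos (2 * Ph j x) := by
    rw [mul_neg, Real.cos_neg]
  rw [this]
  ring

theorem m1_eq (U : ℝ → V × V × V) (x : K) (t : ℝ) :
    M1 (U t).1 (U t).2.2 x = m1 (fun x t => ext (Ph (U t).1) x) (fun x t => ext (U t).1 x)
      (fun x t => ext (U t).2.2 x) x t := by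
  unfold M1 m1
  rw [P_apply]
  refine intervalIntegral.integral_congr fun y _ => ?_
  show ext (U t).2.2 y * ext (C2 (U t).1) y * (ext (U t).1 y * ext (U t).1 y) = _
  have h1 : ext (C2 (U t).1) y = Real.cos (2 * ext (Ph (U t).1) y) := C2_apply _ _
  rw [h1]
  ring

theorem m2_eq (U : ℝ → V × V × V) (x : K) (t : ℝ) :
    M2 (U t).1 (U t).2.2 x = m2 (fun x t => ext (Ph (U t).1) x) (fun x t => ext (U t).1 x)
      (fun x t => ext (U t).2.2 x) x t := by
  unfold M2 m2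
  rw [P_apply]
  refine intervalIntegral.integral_congr fun y _ => ?_
  show ext (U t).2.2 y * ext (S2 (U t).1) y * (ext (U t).1 y * ext (U t).1 y) = _
  have h1 : ext (S2 (U t).1) y = Real.sin (2 * ext (Ph (U t).1) y) := S2_apply _ _
  rw [h1]
  ring

theorem Av_apply {j w : V} (hj : Ev j) (hw : Od w) (x : K) :
    Av j w x = M1 j w x - M1 j w ka := by
  show M1 j w x - (M1 j w ka + M1 j w kma) / 2 = _
  rw [M1_ev hj hw ka kma rfl]
  ring

theorem ps_eq (U : ℝ → V × V × V) (x : K) (t : ℝ) (hj : Ev (U t).1) (hw : Od (U t).2.2) :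
    Ps (U t).1 (U t).2.2 x = ps (fun x t => ext (Ph (U t).1) x) (fun x t => ext (U t).1 x)
      (fun x t => ext (U t).2.2 x) x t := by
  unfold ps
  show (1 / 2 : ℝ) * (S2 (U t).1 x * Av (U t).1 (U t).2.2 x -
    C2 (U t).1 x * M2 (U t).1 (U t).2.2 x) = _
  rw [Av_apply hj hw, m1_eq U x t, m1_eq U ka t, m2_eq U x t, S2_apply, C2_apply]
  have h1 : ((ka : K) : ℝ) = a := rfl
  have h2 : (fun x t => ext (Ph (U t).1) x) (x : ℝ) t = Ph (U t).1 x := ext_coe _ _
  rw [h1, h2]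
  ring

theorem pd_eq (U : ℝ → V × V × V) (x : K) (t : ℝ) (hj : Ev (U t).1) (hw : Od (U t).2.2) :
    Pd (U t).1 (U t).2.2 x = pd (fun x t => ext (Ph (U t).1) x) (fun x t => ext (U t).1 x)
      (fun x t => ext (U t).2.2 x) x t := by
  unfold pd
  show C2 (U t).1 x * Av (U t).1 (U t).2.2 x + S2 (U t).1 x * M2 (U t).1 (U t).2.2 x = _
  rw [Av_apply hj hw, m1_eq U x t, m1_eq U ka t, m2_eq U x t, S2_apply, C2_apply]
  have h1 : ((ka : K) : ℝ) = a := rfl
  have h2 : (fun x t => ext (Ph (U t).1) x) (x : ℝ) t = Ph (U t).1 x := ext_coe _ _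
  rw [h1, h2]

theorem contOn_ext {J : Set ℝ} {f : ℝ → V} (hf : ContinuousOn f J) :
    ContinuousOn (fun p : ℝ × ℝ => ext (f p.2) p.1) (Icc (-a) a ×ˢ J) := by
  refine ContinuousOn.eval (f := fun p : ℝ × ℝ => f p.2)
    (g := fun p : ℝ × ℝ => projIcc (-a) a neg_a_le p.1) ?_ ?_
  · exact hf.comp continuousOn_snd fun p hp => hp.2
  · exact (continuous_projIcc.comp continuous_fst).continuousOn

theorem R₀_even (x : ℝ) : R₀ (-x) = R₀ x := by
  unfold R₀
  rw [Real.cos_neg, mul_neg, Real.cos_neg]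

theorem R₀_zero {x : ℝ} (hx : x ∈ Icc (-a) a) (h : Real.pi / 6 ≤ |x|) : R₀ x = 0 := by
  unfold R₀
  have hx2 : |x| ≤ Real.pi / 4 := abs_le.2 hx
  have h1 : Real.cos (2 * x) ≤ 1 / 2 := by
    have h2 : Real.cos (2 * x) = Real.cos (2 * |x|) := by
      rw [← Real.cos_abs (2 * x), abs_mul]
      norm_num
    rw [h2, ← Real.cos_pi_div_three]
    refine Real.cos_le_cos_of_nonneg_of_le_pi (by positivity) ?_ (by linarith)
    linarith [Real.pi_pos]
  rw [expNegInvGlue.zero_of_nonpos (by linarith), mul_zero, neg_zero]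

/-- (LAG) -/
theorem main (hI : S_ID) (hR : S_REG) (hJ : S_JOINT) : S_LAG := by
  intro δ J hδ hJJ U hU
  have hcont : ∀ t ∈ J, ContinuousAt U t := fun t ht => (hU.ode t ht).continuousAt
  have hUc : ContinuousOn U J := fun t ht => (hcont t ht).continuousWithinAt
  have h0J : (0 : ℝ) ∈ J := by
    rcases hJJ with rfl | ⟨T, hT, rfl⟩
    · show -δ < 0
      linarith
    · exact ⟨by linarith, hT⟩
  have hJopen : IsOpen J := by
    rcases hJJ with rfl | ⟨T, hT, rfl⟩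
    · exact isOpen_Ioi
    · exact isOpen_Ioo
  -- bounded intervals
  have hint : ∀ t ∈ J, ∃ t₂ : ℝ, 0 < t₂ ∧ t < t₂ ∧ -δ < t ∧ Ioo (-δ) t₂ ⊆ J := by
    intro t ht
    rcases hJJ with rfl | ⟨T, hT, rfl⟩
    · refine ⟨max t 0 + 1, ?_, ?_, ht, fun s hs => hs.1⟩
      · linarith [le_max_right t 0]
      · linarith [le_max_left t 0]
    · exact ⟨T, hT, ht.2, ht.1, subset_rfl⟩
  have hid : ∀ t ∈ J, HasDerivAt (fun s => Ph (U s).1) (2 * Ps (U t).1 (U t).2.2) t ∧
      (∀ x, 0 < (U t).1 x) ∧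
      R0v * (U t).1 = algebraMap ℝ V ((R0v * (U t).1) k0) + P ((U t).2.1 * ((U t).1 * (U t).1)) ∧
      (∀ x y : K, (y : ℝ) = -x → (U t).1 y = (U t).1 x ∧ (U t).2.1 y = -(U t).2.1 x ∧
        (U t).2.2 y = -(U t).2.2 x) ∧
      Ph (U t).1 ka = a ∧
      (∀ x : K, Real.pi / 6 ≤ |(x : ℝ)| → (U t).2.1 x = 0 ∧ (U t).2.2 x = 0) := by
    intro t ht
    obtain ⟨t₂, h1, h2, h3, h4⟩ := hint t ht
    exact hI (-δ) t₂ (by linarith) h1 U ⟨hU.ini, fun s hs => hU.ode s (h4 hs)⟩ t ⟨h3, h2⟩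
  have hev : ∀ t ∈ J, Ev (U t).1 := fun t ht x y h => ((hid t ht).2.2.2.1 x y h).1
  have hodq : ∀ t ∈ J, Od (U t).2.1 := fun t ht x y h => ((hid t ht).2.2.2.1 x y h).2.1
  have hodw : ∀ t ∈ J, Od (U t).2.2 := fun t ht x y h => ((hid t ht).2.2.2.1 x y h).2.2
  have hPhc : ContinuousOn (fun t => Ph (U t).1) J := by
    have h1 : ContinuousOn (fun t => (U t).1) J := continuous_fst.comp_continuousOn hUc
    exact P.continuous.comp_continuousOn (h1.mul h1)
  -- smoothness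
  have hsm : ∀ v : ℝ → V, (∀ s₁ s₂ : ℝ, s₁ < 0 → 0 < s₂ → Icc s₁ s₂ ⊆ J →
      ∀ n, Dx (Icc s₁ s₂) n v) →
      ContDiffOn ℝ ∞ (fun p : ℝ × ℝ => ext (v p.2) p.1) (Ioo (-a) a ×ˢ J) := by
    intro v hv p hp
    obtain ⟨hp1, hp2⟩ := hp
    obtain ⟨t₂, h1, h2, h3, h4⟩ := hint p.2 hp2
    obtain ⟨s₁, hs1, hs1'⟩ : ∃ s₁, -δ < s₁ ∧ s₁ < min p.2 0 :=
      exists_between (lt_min h3 (by linarith))
    obtain ⟨s₂, hs2, hs2'⟩ : ∃ s₂, max p.2 0 < s₂ ∧ s₂ < t₂ := exists_between (max_lt h2 h1)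
    have h5 := hJ s₁ s₂ (by
      have := min_le_right p.2 0
      have := le_max_right p.2 0
      linarith) v (hv s₁ s₂ (hs1'.trans_le (min_le_right _ _))
        ((le_max_right _ _).trans_lt hs2) fun s hs => h4 ⟨hs1.trans_le hs.1, hs.2.trans_lt hs2'⟩)
    have h6 : p ∈ Ioo (-a) a ×ˢ Ioo s₁ s₂ :=
      ⟨hp1, hs1'.trans_le (min_le_left _ _), (le_max_left _ _).trans_lt hs2⟩
    exact (h5.contDiffAt ((isOpen_Ioo.prod isOpen_Ioo).mem_nhds h6)).contDiffWithinAt
  have hreg : ∀ s₁ s₂ : ℝ, s₁ < 0 → 0 < s₂ → Icc s₁ s₂ ⊆ J → ∀ n : ℕ,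
      Dx (Icc s₁ s₂) n (fun t => (U t).1) ∧ Dx (Icc s₁ s₂) n (fun t => (U t).2.1) ∧
      Dx (Icc s₁ s₂) n (fun t => (U t).2.2) ∧ Dx (Icc s₁ s₂) n (fun t => Ph (U t).1) := by
    intro s₁ s₂ h1 h2 h3 n
    have g1 := h3 (left_mem_Icc.2 (h1.trans h2).le)
    have g2 := h3 (right_mem_Icc.2 (h1.trans h2).le)
    obtain ⟨t₂, k1, k2, k3, k4⟩ := hint s₂ g2
    obtain ⟨t₂', l1, l2, l3, l4⟩ := hint s₁ g1
    exact hR (-δ) t₂ (by linarith) k1 U ⟨hU.ini, fun s hs => hU.ode s (k4 hs)⟩ s₁ s₂ l3 h1 h2 k2 n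
  have hsj := hsm (fun t => (U t).1) fun s₁ s₂ h1 h2 h3 n => (hreg s₁ s₂ h1 h2 h3 n).1
  -- evaluation
  have heval : ∀ (L : V × V × V →L[ℝ] V) (t : ℝ), t ∈ J → ∀ k : K,
      HasDerivAt (fun s => L (U s) k) (L (F (U t)) k) t := by
    intro L t ht k
    have h1 := ((ContinuousMap.evalCLM ℝ k : V →L[ℝ] ℝ).comp L).hasFDerivAt.comp_hasDerivAt t
      (hU.ode t ht)
    exact h1
  refine
    { cΦ := contOn_ext hPhc
      cj := contOn_ext (continuous_fst.comp_continuousOn hUc)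
      cr := contOn_ext (f := fun t => R0v * (U t).1)
        (continuousOn_const.mul (continuous_fst.comp_continuousOn hUc))
      cq := contOn_ext (f := fun t => (U t).2.1)
        ((continuous_fst.comp continuous_snd).comp_continuousOn hUc)
      cw := contOn_ext (f := fun t => (U t).2.2)
        ((continuous_snd.comp continuous_snd).comp_continuousOn hUc)
      sΦ := hsm (fun t => Ph (U t).1) fun s₁ s₂ h1 h2 h3 n => (hreg s₁ s₂ h1 h2 h3 n).2.2.2
      sr := ?_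
      sw := hsm (fun t => (U t).2.2) fun s₁ s₂ h1 h2 h3 n => (hreg s₁ s₂ h1 h2 h3 n).2.2.1
      jpos := fun t ht x hx => (hid t ht).2.1 _
      Φx := ?_
      rx := ?_
      Φ0 := ?_
      Φa := ?_
      oddΦ := ?_
      oddw := fun t ht x hx => ext_od (hodw t ht) hx
      evj := fun t ht x hx => ext_ev (hev t ht) hx
      evr := ?_
      zr := ?_
      rj := ?_
      ini := ?_
      Φt := ?_
      jt := ?_
      qt := ?_
      wt := ?_ }
  · -- sr
    have h1 : ContDiffOn ℝ ∞ (fun p : ℝ × ℝ => R₀ p.1 * ext (U p.2).1 p.1) (Ioo (-a) a ×ˢ J) :=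
      (contDiff_R₀.comp contDiff_fst).contDiffOn.mul hsj
    refine h1.congr fun p hp => ?_
    have hp1 : p.1 ∈ Icc (-a) a := Ioo_subset_Icc_self hp.1
    show ext R0v p.1 * ext (U p.2).1 p.1 = _
    rw [ext_of_mem R0v hp1]
    rfl
  · -- Φx
    intro t ht x hx
    have h1 := hasDeriv_P ((U t).1 * (U t).1) hx
    have h2 : ext ((U t).1 * (U t).1) x = ext (U t).1 x ^ 2 := by
      rw [ext_mul]
      ring
    rw [h2] at h1
    exact h1
  · -- rx
    intro t ht x hx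
    have h1 := (hasDeriv_P ((U t).2.1 * ((U t).1 * (U t).1)) hx).const_add
      ((R0v * (U t).1) k0)
    have h2 : ext ((U t).2.1 * ((U t).1 * (U t).1)) x = ext (U t).2.1 x * ext (U t).1 x ^ 2 := by
      rw [ext_mul, ext_mul]
      ring
    rw [h2] at h1
    refine h1.congr_of_eventuallyEq (Filter.Eventually.of_forall fun y => ?_) ?_
    · show ext (R0v * (U t).1) y = _
      conv_lhs => rw [(hid t ht).2.2.1]
      rfl
    · show ext (R0v * (U t).1) x = _
      conv_lhs => rw [(hid t ht).2.2.1]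
      rfl
  · -- Φ0
    intro t ht
    have h0 : (0 : ℝ) ∈ Icc (-a) a := ⟨by linarith [a_pos], a_pos.le⟩
    show ext (P _) 0 = 0
    rw [ext_P _ h0, intervalIntegral.integral_same]
  · -- Φa
    intro t ht
    have h0 : a ∈ Icc (-a) a := ⟨by linarith [a_pos], le_rfl⟩
    show ext (Ph (U t).1) a = a
    rw [ext_of_mem _ h0]
    exact (hid t ht).2.2.2.2.1
  · -- oddΦ
    intro t ht x hx
    refine ext_od (P_ev fun x y h => ?_) hx
    show (U t).1 y * (U t).1 y = (U t).1 x * (U t).1 x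
    rw [hev t ht x y h]
  · -- evr
    intro t ht x hx
    refine ext_ev (f := R0v * (U t).1) (fun x y h => ?_) hx
    show R₀ y * (U t).1 y = R₀ x * (U t).1 x
    rw [hev t ht x y h, h, R₀_even]
  · -- zr
    intro t ht x hx h
    obtain ⟨h1, h2⟩ := (hid t ht).2.2.2.2.2 ⟨x, hx⟩ h
    refine ⟨?_, ?_, ?_⟩
    · show ext (U t).2.2 x = 0
      rw [ext_of_mem _ hx]
      exact h2
    · show ext (R0v * (U t).1) x = 0
      rw [ext_of_mem _ hx]
      show R₀ x * (U t).1 ⟨x, hx⟩ = 0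
      rw [R₀_zero hx h, zero_mul]
    · show ext (U t).2.1 x = 0
      rw [ext_of_mem _ hx]
      exact h1
  · -- rj
    intro t ht x hx
    show ext (R0v * (U t).1) x = R₀ x * ext (U t).1 x
    rw [ext_of_mem _ hx, ext_of_mem _ hx]
    rfl
  · -- ini
    intro x hx
    have hi := hU.ini
    simp only [hi]
    refine ⟨?_, rfl, ?_, ?_, ?_⟩
    · show ext (P (1 * 1)) x = x
      rw [ext_P _ hx, mul_one]
      have h1 : ∀ y : ℝ, ext (1 : V) y = 1 := fun y => rfl
      simp only [h1]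
      rw [intervalIntegral.integral_const, sub_zero, smul_eq_mul, mul_one]
    · show ext (R0v * 1) x = R₀ x
      rw [ext_of_mem _ hx, mul_one]
      rfl
    · show ext q0v x = _
      rw [ext_of_mem _ hx]
      rfl
    · show ext w0v x = _
      rw [ext_of_mem _ hx]
      rfl
  · -- Φt
    intro t ht x hx
    have h1 := (ContinuousMap.evalCLM ℝ (⟨x, hx⟩ : K) : V →L[ℝ] ℝ).hasFDerivAt.comp_hasDerivAt t
      (hid t ht).1
    have h2 := ps_eq U ⟨x, hx⟩ t (hev t ht) (hodw t ht)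
    rw [show 2 * ps (fun x t => ext (Ph (U t).1) x) (fun x t => ext (U t).1 x)
      (fun x t => ext (U t).2.2 x) x t = (2 * Ps (U t).1 (U t).2.2) ⟨x, hx⟩ from by
        show _ = 2 * Ps (U t).1 (U t).2.2 ⟨x, hx⟩
        rw [h2]]
    refine HasDerivAt.congr_of_eventuallyEq h1 (Filter.Eventually.of_forall fun s => ?_)
    show ext (Ph (U s).1) x = _
    rw [ext_of_mem _ hx]
    rfl
  · -- jt
    intro t ht x hx
    have h1 := heval (ContinuousLinearMap.fst ℝ V (V × V)) t ht ⟨x, hx⟩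
    have h2 := pd_eq U ⟨x, hx⟩ t (hev t ht) (hodw t ht)
    have e : (ContinuousLinearMap.fst ℝ V (V × V)) (F (U t)) ⟨x, hx⟩ =
        pd (fun x t => ext (Ph (U t).1) x) (fun x t => ext (U t).1 x)
          (fun x t => ext (U t).2.2 x) x t * ext (U t).1 x := by
      show Pd (U t).1 (U t).2.2 ⟨x, hx⟩ * (U t).1 ⟨x, hx⟩ = _
      rw [h2, ext_of_mem _ hx]
    rw [e] at h1
    refine HasDerivAt.congr_of_eventuallyEq h1 (Filter.Eventually.of_forall fun s => ?_)
    show ext (U s).1 x = _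
    rw [ext_of_mem _ hx]
    rfl
  · -- qt
    intro t ht x hx
    have h1 := heval ((ContinuousLinearMap.fst ℝ V V).comp (ContinuousLinearMap.snd ℝ V (V × V)))
      t ht ⟨x, hx⟩
    have h2 := pd_eq U ⟨x, hx⟩ t (hev t ht) (hodw t ht)
    have h3 := ps_eq U ⟨x, hx⟩ t (hev t ht) (hodw t ht)
    have e : ((ContinuousLinearMap.fst ℝ V V).comp (ContinuousLinearMap.snd ℝ V (V × V)))
        (F (U t)) ⟨x, hx⟩ =
        (ext (U t).2.2 x - 4 * ps (fun x t => ext (Ph (U t).1) x) (fun x t => ext (U t).1 x)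
          (fun x t => ext (U t).2.2 x) x t) * ext (R0v * (U t).1) x -
        pd (fun x t => ext (Ph (U t).1) x) (fun x t => ext (U t).1 x)
          (fun x t => ext (U t).2.2 x) x t * ext (U t).2.1 x := by
      show ((U t).2.2 ⟨x, hx⟩ - 4 * Ps (U t).1 (U t).2.2 ⟨x, hx⟩) *
        (R0v * (U t).1) ⟨x, hx⟩ - Pd (U t).1 (U t).2.2 ⟨x, hx⟩ * (U t).2.1 ⟨x, hx⟩ = _
      rw [h2, h3, ext_of_mem _ hx, ext_of_mem _ hx, ext_of_mem _ hx]
    rw [e] at h1
    refine HasDerivAt.congr_of_eventuallyEq h1 (Filter.Eventually.of_forall fun s => ?_)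
    show ext (U s).2.1 x = _
    rw [ext_of_mem _ hx]
    rfl
  · -- wt
    intro t ht x hx
    have h1 := heval ((ContinuousLinearMap.snd ℝ V V).comp (ContinuousLinearMap.snd ℝ V (V × V)))
      t ht ⟨x, hx⟩
    have e : ((ContinuousLinearMap.snd ℝ V V).comp (ContinuousLinearMap.snd ℝ V (V × V)))
        (F (U t)) ⟨x, hx⟩ =
        -(ext (R0v * (U t).1) x * Real.sin (ext (Ph (U t).1) x) +
          ext (U t).2.1 x * Real.cos (ext (Ph (U t).1) x)) := by
      show -((R0v * (U t).1) ⟨x, hx⟩ * sn (U t).1 ⟨x, hx⟩ +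
        (U t).2.1 ⟨x, hx⟩ * cn (U t).1 ⟨x, hx⟩) = _
      rw [sn_apply, cn_apply, ext_of_mem _ hx, ext_of_mem _ hx, ext_of_mem _ hx]
    rw [e] at h1
    refine HasDerivAt.congr_of_eventuallyEq h1 (Filter.Eventually.of_forall fun s => ?_)
    show ext (U s).2.2 x = _
    rw [ext_of_mem _ hx]
    rfl

end

end Pool.Agent.N982.BQ.Lagr

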