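import Pool.Agent.N982.BQ.Stm

/-!
(LBF) The vector field is bounded and Lipschitz on bounded sets. The closure lemmas `lb_*` for
`LB` can be reused.
-/

set_option autoImplicit false

open Set MeasureTheory
open scoped ContDiff

namespace Pool.Agent.N982.BQ.Lbf

noncomputable section

variable {E G H : Type*} [NormedAddCommGroup E] [NormedAddCommGroup G] [NormedAddCommGroup H]

/-- The constant can be taken nonnegative. -/
lemma lb_get {f : E → G} (hf : LB f) (B : ℝ) : ∃ C : ℝ, 0 ≤ C ∧ ∀ u v : E, ‖u‖ ≤ B → ‖v‖ ≤ B →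
    ‖f u‖ ≤ C ∧ ‖f u - f v‖ ≤ C * ‖u - v‖ := by
  obtain ⟨C, hC⟩ := hf B
  refine ⟨max C 0, le_max_right _ _, fun u v hu hv => ?_⟩
  obtain ⟨h1, h2⟩ := hC u v hu hv
  exact ⟨h1.trans (le_max_left _ _),
    h2.trans (mul_le_mul_of_nonneg_right (le_max_left _ _) (norm_nonneg _))⟩

lemma lb_const (c : G) : LB (fun _ : E => c) := by
  intro B
  refine ⟨‖c‖, fun u v _ _ => ⟨le_rfl, ?_⟩⟩
  rw [sub_self, norm_zero]
  positivity

lemma lb_id : LB (fun u : E => u) := by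
  intro B
  refine ⟨max B 1, fun u v hu _ => ⟨hu.trans (le_max_left _ _), ?_⟩⟩
  have h : (1 : ℝ) ≤ max B 1 := le_max_right _ _
  nlinarith [norm_nonneg (u - v)]

lemma lb_comp {g : G → H} {f : E → G} (hg : LB g) (hf : LB f) : LB (fun u => g (f u)) := by
  intro B
  obtain ⟨C, hC0, hC⟩ := lb_get hf B
  obtain ⟨D, hD0, hD⟩ := lb_get hg C
  refine ⟨max D (D * C), fun u v hu hv => ?_⟩
  obtain ⟨h1, h2⟩ := hC u v hu hv
  obtain ⟨h3, -⟩ := hC v u hv hu
  obtain ⟨h4, h5⟩ := hD (f u) (f v) h1 h3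
  refine ⟨h4.trans (le_max_left _ _), ?_⟩
  calc ‖g (f u) - g (f v)‖ ≤ D * ‖f u - f v‖ := h5
    _ ≤ D * (C * ‖u - v‖) := mul_le_mul_of_nonneg_left h2 hD0
    _ = D * C * ‖u - v‖ := by ring
    _ ≤ max D (D * C) * ‖u - v‖ := mul_le_mul_of_nonneg_right (le_max_right _ _) (norm_nonneg _)

lemma lb_add {f g : E → G} (hf : LB f) (hg : LB g) : LB (fun u => f u + g u) := by
  intro B
  obtain ⟨C, hC⟩ := hf B
  obtain ⟨D, hD⟩ := hg B
  refine ⟨C + D, fun u v hu hv => ?_⟩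
  obtain ⟨h1, h2⟩ := hC u v hu hv
  obtain ⟨h3, h4⟩ := hD u v hu hv
  refine ⟨(norm_add_le _ _).trans (add_le_add h1 h3), ?_⟩
  have e : f u + g u - (f v + g v) = (f u - f v) + (g u - g v) := by abel
  rw [e]
  calc _ ≤ ‖f u - f v‖ + ‖g u - g v‖ := norm_add_le _ _
    _ ≤ C * ‖u - v‖ + D * ‖u - v‖ := add_le_add h2 h4
    _ = (C + D) * ‖u - v‖ := by ring

lemma lb_neg {f : E → G} (hf : LB f) : LB (fun u => -f u) := by
  intro B
  obtain ⟨C, hC⟩ := hf B
  refine ⟨C, fun u v hu hv => ?_⟩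
  obtain ⟨h1, h2⟩ := hC u v hu hv
  have e : -f u - -f v = -(f u - f v) := by abel
  rw [e, norm_neg, norm_neg]
  exact ⟨h1, h2⟩

lemma lb_sub {f g : E → G} (hf : LB f) (hg : LB g) : LB (fun u => f u - g u) := by
  have := lb_add hf (lb_neg hg)
  simpa only [sub_eq_add_neg] using this

lemma lb_pair {f : E → G} {g : E → H} (hf : LB f) (hg : LB g) : LB (fun u => (f u, g u)) := by
  intro B
  obtain ⟨C, hC⟩ := hf B
  obtain ⟨D, hD⟩ := hg B
  refine ⟨max C D, fun u v hu hv => ?_⟩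
  obtain ⟨h1, h2⟩ := hC u v hu hv
  obtain ⟨h3, h4⟩ := hD u v hu hv
  refine ⟨?_, ?_⟩
  · rw [Prod.norm_mk]
    exact max_le_max h1 h3
  · rw [Prod.mk_sub_mk, Prod.norm_mk]
    refine max_le ?_ ?_
    · exact h2.trans (mul_le_mul_of_nonneg_right (le_max_left _ _) (norm_nonneg _))
    · exact h4.trans (mul_le_mul_of_nonneg_right (le_max_right _ _) (norm_nonneg _))

lemma lb_fst {f : E → G × H} (hf : LB f) : LB (fun u => (f u).1) := by
  intro B
  obtain ⟨C, hC⟩ := hf B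
  refine ⟨C, fun u v hu hv => ?_⟩
  obtain ⟨h1, h2⟩ := hC u v hu hv
  exact ⟨(norm_fst_le _).trans h1, (norm_fst_le (f u - f v)).trans h2⟩

lemma lb_snd {f : E → G × H} (hf : LB f) : LB (fun u => (f u).2) := by
  intro B
  obtain ⟨C, hC⟩ := hf B
  refine ⟨C, fun u v hu hv => ?_⟩
  obtain ⟨h1, h2⟩ := hC u v hu hv
  exact ⟨(norm_snd_le _).trans h1, (norm_snd_le (f u - f v)).trans h2⟩

/-- Products in a (semi)normed ring. -/
lemma lb_mul {R : Type*} [NormedRing R] {f g : E → R} (hf : LB f) (hg : LB g) :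
    LB (fun u => f u * g u) := by
  intro B
  obtain ⟨C, hC0, hC⟩ := lb_get hf B
  obtain ⟨D, hD0, hD⟩ := lb_get hg B
  refine ⟨2 * (C * D), fun u v hu hv => ?_⟩
  obtain ⟨h1, h2⟩ := hC u v hu hv
  obtain ⟨h3, h4⟩ := hD u v hu hv
  obtain ⟨h5, -⟩ := hD v u hv hu
  have hCD : 0 ≤ C * D := mul_nonneg hC0 hD0
  refine ⟨?_, ?_⟩
  · calc ‖f u * g u‖ ≤ ‖f u‖ * ‖g u‖ := norm_mul_le _ _
      _ ≤ C * D := mul_le_mul h1 h3 (norm_nonneg _) hC0
      _ ≤ 2 * (C * D) := by linarith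
  · have e : f u * g u - f v * g v = f u * (g u - g v) + (f u - f v) * g v := by noncomm_ring
    rw [e]
    calc _ ≤ ‖f u * (g u - g v)‖ + ‖(f u - f v) * g v‖ := norm_add_le _ _
      _ ≤ ‖f u‖ * ‖g u - g v‖ + ‖f u - f v‖ * ‖g v‖ :=
        add_le_add (norm_mul_le _ _) (norm_mul_le _ _)
      _ ≤ C * (D * ‖u - v‖) + (C * ‖u - v‖) * D := by
        refine add_le_add ?_ ?_
        · exact mul_le_mul h1 h4 (norm_nonneg _) hC0
        · exact mul_le_mul h2 h5 (norm_nonneg _) (mul_nonneg hC0 (norm_nonneg _))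
      _ = 2 * (C * D) * ‖u - v‖ := by ring

section normed

variable {E' G' : Type*} [NormedAddCommGroup E'] [NormedSpace ℝ E'] [NormedAddCommGroup G']
  [NormedSpace ℝ G']

/-- Continuous linear maps. -/
lemma lb_clm (L : E' →L[ℝ] G') {f : E → E'} (hf : LB f) : LB (fun u => L (f u)) := by
  intro B
  obtain ⟨C, hC⟩ := hf B
  refine ⟨‖L‖ * C, fun u v hu hv => ?_⟩
  obtain ⟨h1, h2⟩ := hC u v hu hv
  refine ⟨(L.le_opNorm _).trans (mul_le_mul_of_nonneg_left h1 (norm_nonneg _)), ?_⟩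
  rw [← map_sub]
  calc _ ≤ ‖L‖ * ‖f u - f v‖ := L.le_opNorm _
    _ ≤ ‖L‖ * (C * ‖u - v‖) := mul_le_mul_of_nonneg_left h2 (norm_nonneg _)
    _ = ‖L‖ * C * ‖u - v‖ := by ring

/-- Multiplication by a constant real number. -/
lemma lb_smul (c : ℝ) {f : E → E'} (hf : LB f) : LB (fun u => c • f u) := by
  have := lb_clm (c • ContinuousLinearMap.id ℝ E') hf
  simpa using this

end normed

/-- Evaluation at a label. -/
lemma lb_eval (x : K) {f : E → V} (hf : LB f) : LB (fun u => f u x) := by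
  intro B
  obtain ⟨C, hC⟩ := hf B
  refine ⟨C, fun u v hu hv => ?_⟩
  obtain ⟨h1, h2⟩ := hC u v hu hv
  exact ⟨((f u).norm_coe_le_norm x).trans h1, ((f u - f v).norm_coe_le_norm x).trans h2⟩

/-- The constant function with a variable real value. -/
lemma lb_alg {f : E → ℝ} (hf : LB f) : LB (fun u => algebraMap ℝ V (f u)) := by
  intro B
  obtain ⟨C, hC0, hC⟩ := lb_get hf B
  refine ⟨C, fun u v hu hv => ?_⟩
  obtain ⟨h1, h2⟩ := hC u v hu hv
  refine ⟨(ContinuousMap.norm_le _ hC0).2 fun x => ?_,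
    (ContinuousMap.norm_le _ (mul_nonneg hC0 (norm_nonneg _))).2 fun x => ?_⟩
  · have e : (algebraMap ℝ V (f u)) x = f u := by
      rw [Algebra.algebraMap_eq_smul_one]; simp
    rw [e]; exact h1
  · have e : (algebraMap ℝ V (f u) - algebraMap ℝ V (f v)) x = f u - f v := by
      rw [Algebra.algebraMap_eq_smul_one, Algebra.algebraMap_eq_smul_one]; simp
    rw [e]; exact h2

/-- Composition on the left with a bounded `1`-Lipschitz function. -/
lemma lb_lcomp (φ : C(ℝ, ℝ)) (M : ℝ) (hM : ∀ r, |φ r| ≤ M) (hL : ∀ r s, |φ r - φ s| ≤ |r - s|)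
    {f : E → V} (hf : LB f) : LB (fun u => φ.comp (f u)) := by
  intro B
  obtain ⟨C, hC0, hC⟩ := lb_get hf B
  have hM0 : 0 ≤ M := (abs_nonneg _).trans (hM 0)
  refine ⟨max M C, fun u v hu hv => ?_⟩
  obtain ⟨h1, h2⟩ := hC u v hu hv
  refine ⟨(ContinuousMap.norm_le _ (hM0.trans (le_max_left _ _))).2 fun x => ?_,
    (ContinuousMap.norm_le _ (mul_nonneg (hM0.trans (le_max_left _ _)) (norm_nonneg _))).2
      fun x => ?_⟩
  · exact (hM _).trans (le_max_left _ _)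
  · calc ‖(φ.comp (f u) - φ.comp (f v)) x‖ = |φ (f u x) - φ (f v x)| := rfl
      _ ≤ |f u x - f v x| := hL _ _
      _ = ‖(f u - f v) x‖ := rfl
      _ ≤ ‖f u - f v‖ := (f u - f v).norm_coe_le_norm x
      _ ≤ C * ‖u - v‖ := h2
      _ ≤ max M C * ‖u - v‖ := mul_le_mul_of_nonneg_right (le_max_right _ _) (norm_nonneg _)

lemma abs_sin_sub_le (r s : ℝ) : |Real.sin r - Real.sin s| ≤ |r - s| := by
  have h := (Convex.norm_image_sub_le_of_norm_deriv_le (f := Real.sin) (s := Set.univ) (C := 1)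
    (x := s) (y := r) (fun x _ => Real.differentiable_sin x)
    (fun x _ => by rw [Real.deriv_sin]; exact Real.abs_cos_le_one x) convex_univ
    (Set.mem_univ _) (Set.mem_univ _))
  simpa [Real.norm_eq_abs] using h

lemma abs_cos_sub_le (r s : ℝ) : |Real.cos r - Real.cos s| ≤ |r - s| := by
  have h := (Convex.norm_image_sub_le_of_norm_deriv_le (f := Real.cos) (s := Set.univ) (C := 1)
    (x := s) (y := r) (fun x _ => Real.differentiable_cos x)
    (fun x _ => by rw [Real.deriv_cos, norm_neg]; exact Real.abs_sin_le_one x) convex_univ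
    (Set.mem_univ _) (Set.mem_univ _))
  simpa [Real.norm_eq_abs] using h

lemma lb_Ph {f : E → V} (hf : LB f) : LB (fun u => Ph (f u)) :=
  lb_clm P (lb_mul hf hf)

lemma lb_sn {f : E → V} (hf : LB f) : LB (fun u => sn (f u)) :=
  lb_lcomp _ 1 Real.abs_sin_le_one abs_sin_sub_le (lb_Ph hf)

lemma lb_cn {f : E → V} (hf : LB f) : LB (fun u => cn (f u)) :=
  lb_lcomp _ 1 Real.abs_cos_le_one abs_cos_sub_le (lb_Ph hf)

lemma lb_S2 {f : E → V} (hf : LB f) : LB (fun u => S2 (f u)) :=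
  lb_mul (lb_mul (lb_const 2) (lb_sn hf)) (lb_cn hf)

lemma lb_C2 {f : E → V} (hf : LB f) : LB (fun u => C2 (f u)) :=
  lb_sub (lb_mul (lb_cn hf) (lb_cn hf)) (lb_mul (lb_sn hf) (lb_sn hf))

lemma lb_M1 {f g : E → V} (hf : LB f) (hg : LB g) : LB (fun u => M1 (f u) (g u)) :=
  lb_clm P (lb_mul (lb_mul hg (lb_C2 hf)) (lb_mul hf hf))

lemma lb_M2 {f g : E → V} (hf : LB f) (hg : LB g) : LB (fun u => M2 (f u) (g u)) :=
  lb_clm P (lb_mul (lb_mul hg (lb_S2 hf)) (lb_mul hf hf))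

lemma lb_Av {f g : E → V} (hf : LB f) (hg : LB g) : LB (fun u => Av (f u) (g u)) := by
  refine lb_sub (lb_M1 hf hg) (lb_alg ?_)
  have h := lb_mul (lb_add (lb_eval ka (lb_M1 hf hg)) (lb_eval kma (lb_M1 hf hg)))
    (lb_const (E := E) (2 : ℝ)⁻¹)
  simpa only [div_eq_mul_inv] using h

lemma lb_Ps {f g : E → V} (hf : LB f) (hg : LB g) : LB (fun u => Ps (f u) (g u)) :=
  lb_smul _ (lb_sub (lb_mul (lb_S2 hf) (lb_Av hf hg)) (lb_mul (lb_C2 hf) (lb_M2 hf hg)))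

lemma lb_Pd {f g : E → V} (hf : LB f) (hg : LB g) : LB (fun u => Pd (f u) (g u)) :=
  lb_add (lb_mul (lb_C2 hf) (lb_Av hf hg)) (lb_mul (lb_S2 hf) (lb_M2 hf hg))

theorem main : S_LBF := by
  have h1 : LB (fun U : V × V × V => U.1) := lb_fst lb_id
  have h2 : LB (fun U : V × V × V => U.2) := lb_snd lb_id
  have h3 : LB (fun U : V × V × V => U.2.1) := lb_fst h2
  have h4 : LB (fun U : V × V × V => U.2.2) := lb_snd h2
  have h5 : LB (fun U : V × V × V => R0v * U.1) := lb_mul (lb_const _) h1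
  refine lb_pair (lb_mul (lb_Pd h1 h4) h1) (lb_pair (lb_sub (lb_mul (lb_sub h4
    (lb_mul (lb_const 4) (lb_Ps h1 h4))) h5) (lb_mul (lb_Pd h1 h4) h3)) ?_)
  exact lb_neg (lb_add (lb_mul h5 (lb_sn h1)) (lb_mul h3 (lb_cn h1)))

end

end Pool.Agent.N982.BQ.Lbf
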