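import Pool.Agent.N982.BQ.Stm
import Pool.Agent.R906.LinODE

/-!
(LIN): regularity in the label of the solutions of linear systems.
-/

set_option autoImplicit false

open Set MeasureTheory Filter Topology
open scoped ContDiff

namespace Pool.Agent.N982.BQ.Lin

open Pool.Agent.N982.BQ

noncomputable section

/-! ### The product rule for the primitive operator -/

/-- the projection to the constants -/
def Z : V →L[ℝ] V :=
  (ContinuousLinearMap.toSpanSingleton ℝ (1 : V)).comp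
    (ContinuousMap.evalCLM ℝ k0)

theorem Z_apply (f : V) : Z f = algebraMap ℝ V (f k0) := by
  rw [Algebra.algebraMap_eq_smul_one]
  rfl

theorem Z_apply_apply (f : V) (x : K) : Z f x = f k0 := by
  rw [Z_apply]; rfl

theorem P_k0 (f : V) : P f k0 = 0 := by
  rw [P_apply]
  simp [k0]

/-- the product rule -/
theorem prod_rule (f g f' g' : V) (hf : f = Z f + P f') (hg : g = Z g + P g') :
    f * g = Z (f * g) + P (f' * g + f * g') := by
  have key : ∀ h h' : V, h = Z h + P h' → ∀ y ∈ Icc (-a) a,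
      ext h y = h k0 + ∫ s in (0 : ℝ)..y, ext h' s := by
    intro h h' hh y hy
    rw [ext_of_mem h hy]
    conv_lhs => rw [hh]
    rw [ContinuousMap.add_apply, Z_apply_apply, P_apply]
  have hd : ∀ h h' : V, ∀ y : ℝ, HasDerivAt (fun y => h k0 + ∫ s in (0 : ℝ)..y, ext h' s)
      (ext h' y) y := by
    intro h h' y
    refine HasDerivAt.const_add _ ?_
    exact intervalIntegral.integral_hasDerivAt_right
      ((continuous_ext h').intervalIntegrable _ _)
      ((continuous_ext h').stronglyMeasurableAtFilter _ _) (continuous_ext h').continuousAt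
  ext x
  rw [ContinuousMap.add_apply, Z_apply_apply, P_apply]
  have hx : (x : ℝ) ∈ Icc (-a) a := x.2
  have hsub : uIcc (0 : ℝ) x ⊆ Icc (-a) a := by
    apply uIcc_subset_Icc
    · constructor <;> linarith [a_pos]
    · exact hx
  have h1 : ∫ y in (0 : ℝ)..x, ext (f' * g + f * g') y =
      ∫ y in (0 : ℝ)..x, (ext f' y * (g k0 + ∫ s in (0 : ℝ)..y, ext g' s) +
        (f k0 + ∫ s in (0 : ℝ)..y, ext f' s) * ext g' y) := by
    refine intervalIntegral.integral_congr fun y hy => ?_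
    have hy' := hsub hy
    show f' _ * g _ + f _ * g' _ = _
    have e1 : g (projIcc (-a) a neg_a_le y) = ext g y := rfl
    have e2 : f (projIcc (-a) a neg_a_le y) = ext f y := rfl
    rw [e1, e2, key f f' hf y hy', key g g' hg y hy']
    rfl
  have hcont : Continuous (fun y : ℝ => ext f' y * (g k0 + ∫ s in (0 : ℝ)..y, ext g' s) +
        (f k0 + ∫ s in (0 : ℝ)..y, ext f' s) * ext g' y) := by
    have c1 : Continuous (fun y : ℝ => g k0 + ∫ s in (0 : ℝ)..y, ext g' s) :=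
      continuous_iff_continuousAt.2 fun y => (hd g g' y).continuousAt
    have c2 : Continuous (fun y : ℝ => f k0 + ∫ s in (0 : ℝ)..y, ext f' s) :=
      continuous_iff_continuousAt.2 fun y => (hd f f' y).continuousAt
    exact ((continuous_ext f').mul c1).add (c2.mul (continuous_ext g'))
  rw [h1, intervalIntegral.integral_eq_sub_of_hasDerivAt
    (f := fun y => (f k0 + ∫ s in (0 : ℝ)..y, ext f' s) * (g k0 + ∫ s in (0 : ℝ)..y, ext g' s))
    (fun y _ => (hd f f' y).mul (hd g g' y)) (hcont.intervalIntegrable _ _)]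
  have e3 := key f f' hf x hx
  have e4 := key g g' hg x hx
  rw [ext_coe] at e3 e4
  rw [← e3, ← e4, intervalIntegral.integral_same, intervalIntegral.integral_same]
  simp only [ContinuousMap.mul_apply, add_zero]
  ring

theorem SmX_mono (n : ℕ) (f : V) (h : SmX (n + 1) f) : SmX n f := by
  induction n generalizing f with
  | zero => trivial
  | succ n ih =>
    obtain ⟨f₁, h1, h2⟩ := h
    exact ⟨f₁, ih f₁ h1, h2⟩

/-! ### Existence -/

/-- multiplication as an operator -/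
def mu : V →L[ℝ] V →L[ℝ] V := ContinuousLinearMap.mul ℝ V

theorem mu_apply (f g : V) : mu f g = f * g := rfl

theorem exi (b₁₁ b₁₂ b₂₁ b₂₂ c₁ c₂ : ℝ → V) (h₁₁ : Continuous b₁₁) (h₁₂ : Continuous b₁₂)
    (h₂₁ : Continuous b₂₁) (h₂₂ : Continuous b₂₂) (k₁ : Continuous c₁) (k₂ : Continuous c₂)
    (t₀ : ℝ) (x₀ y₀ : V) : ∃ u v : ℝ → V, u t₀ = x₀ ∧ v t₀ = y₀ ∧
      (∀ t, HasDerivAt u (b₁₁ t * u t + b₁₂ t * v t + c₁ t) t) ∧
      ∀ t, HasDerivAt v (b₂₁ t * u t + b₂₂ t * v t + c₂ t) t := by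
  let p₁ : V × V × V →L[ℝ] V := ContinuousLinearMap.fst ℝ V (V × V)
  let p₂ : V × V × V →L[ℝ] V :=
    (ContinuousLinearMap.fst ℝ V V).comp (ContinuousLinearMap.snd ℝ V (V × V))
  let p₃ : V × V × V →L[ℝ] V :=
    (ContinuousLinearMap.snd ℝ V V).comp (ContinuousLinearMap.snd ℝ V (V × V))
  let i₁ : V →L[ℝ] V × V × V := ContinuousLinearMap.inl ℝ V (V × V)
  let i₂ : V →L[ℝ] V × V × V :=
    (ContinuousLinearMap.inr ℝ V (V × V)).comp (ContinuousLinearMap.inl ℝ V V)
  let L : ℝ → (V × V × V) →L[ℝ] (V × V × V) := fun s =>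
    i₁.comp ((mu (b₁₁ (s + t₀))).comp p₁ + (mu (b₁₂ (s + t₀))).comp p₂ +
      (mu (c₁ (s + t₀))).comp p₃) +
    i₂.comp ((mu (b₂₁ (s + t₀))).comp p₁ + (mu (b₂₂ (s + t₀))).comp p₂ +
      (mu (c₂ (s + t₀))).comp p₃)
  have hsh : Continuous (fun s : ℝ => s + t₀) := continuous_id.add continuous_const
  have hc : ∀ (b : ℝ → V), Continuous b → ∀ p : V × V × V →L[ℝ] V,
      Continuous (fun s : ℝ => (mu (b (s + t₀))).comp p) := fun b hb p =>
    (mu.continuous.comp (hb.comp hsh)).clm_comp continuous_const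
  have hL : Continuous L := by
    refine Continuous.add ?_ ?_
    · exact continuous_const.clm_comp (((hc _ h₁₁ _).add (hc _ h₁₂ _)).add (hc _ k₁ _))
    · exact continuous_const.clm_comp (((hc _ h₂₁ _).add (hc _ h₂₂ _)).add (hc _ k₂ _))
  obtain ⟨Y, hY0, hY⟩ := Pool.Agent.R906.LinODE.lin_exists L hL (x₀, y₀, 1)
  have hL1 : ∀ s w, p₁ (L s w) = b₁₁ (s + t₀) * p₁ w + b₁₂ (s + t₀) * p₂ w +
      c₁ (s + t₀) * p₃ w := by
    intro s w
    simp [L, i₁, i₂, p₁, p₂, p₃, mu_apply]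
  have hL2 : ∀ s w, p₂ (L s w) = b₂₁ (s + t₀) * p₁ w + b₂₂ (s + t₀) * p₂ w +
      c₂ (s + t₀) * p₃ w := by
    intro s w
    simp [L, i₁, i₂, p₁, p₂, p₃, mu_apply]
  have hL3 : ∀ s w, p₃ (L s w) = 0 := by
    intro s w
    simp [L, i₁, i₂, p₃]
  have hp : ∀ (p : V × V × V →L[ℝ] V) (s : ℝ), HasDerivAt (fun s => p (Y s)) (p (L s (Y s))) s :=
    fun p s => p.hasFDerivAt.comp_hasDerivAt s (hY s)
  have h3 : ∀ s, p₃ (Y s) = 1 := by
    intro s
    have hconst := is_const_of_deriv_eq_zero (f := fun s => p₃ (Y s))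
      (fun s => (hp p₃ s).differentiableAt) (fun s => by rw [(hp p₃ s).deriv, hL3])
    have h30 : p₃ (Y s) = p₃ (Y 0) := hconst s 0
    rw [h30, hY0]
    rfl
  refine ⟨fun t => p₁ (Y (t - t₀)), fun t => p₂ (Y (t - t₀)), by simp [hY0, p₁], by simp [hY0, p₂],
    fun t => ?_, fun t => ?_⟩
  · have h := (hp p₁ (t - t₀)).comp_sub_const t t₀
    rw [hL1, h3, sub_add_cancel, mul_one] at h
    exact h
  · have h := (hp p₂ (t - t₀)).comp_sub_const t t₀
    rw [hL2, h3, sub_add_cancel, mul_one] at h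
    exact h

/-! ### Smoothness in time -/

theorem smooth {t₁ t₂ : ℝ} (h12 : t₁ < t₂) {b₁₁ b₁₂ b₂₁ b₂₂ c₁ c₂ u v : ℝ → V}
    (h₁₁ : ContDiffOn ℝ ∞ b₁₁ (Icc t₁ t₂)) (h₁₂ : ContDiffOn ℝ ∞ b₁₂ (Icc t₁ t₂))
    (h₂₁ : ContDiffOn ℝ ∞ b₂₁ (Icc t₁ t₂)) (h₂₂ : ContDiffOn ℝ ∞ b₂₂ (Icc t₁ t₂))
    (k₁ : ContDiffOn ℝ ∞ c₁ (Icc t₁ t₂)) (k₂ : ContDiffOn ℝ ∞ c₂ (Icc t₁ t₂))
    (hu : ∀ t ∈ Icc t₁ t₂, HasDerivWithinAt u (b₁₁ t * u t + b₁₂ t * v t + c₁ t) (Icc t₁ t₂) t)
    (hv : ∀ t ∈ Icc t₁ t₂, HasDerivWithinAt v (b₂₁ t * u t + b₂₂ t * v t + c₂ t) (Icc t₁ t₂) t) :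
    ContDiffOn ℝ ∞ u (Icc t₁ t₂) ∧ ContDiffOn ℝ ∞ v (Icc t₁ t₂) := by
  have hU : UniqueDiffOn ℝ (Icc t₁ t₂) := uniqueDiffOn_Icc h12
  have main : ∀ k : ℕ, ContDiffOn ℝ k u (Icc t₁ t₂) ∧ ContDiffOn ℝ k v (Icc t₁ t₂) := by
    intro k
    induction k with
    | zero =>
      exact ⟨contDiffOn_zero.2 fun t ht => (hu t ht).continuousWithinAt,
        contDiffOn_zero.2 fun t ht => (hv t ht).continuousWithinAt⟩
    | succ k ih =>
      have hle : ((k : ℕ) : WithTop ℕ∞) ≤ ∞ := by exact_mod_cast le_top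
      have d1 : ContDiffOn ℝ k (fun t => b₁₁ t * u t + b₁₂ t * v t + c₁ t) (Icc t₁ t₂) :=
        (((h₁₁.of_le hle).mul ih.1).add ((h₁₂.of_le hle).mul ih.2)).add (k₁.of_le hle)
      have d2 : ContDiffOn ℝ k (fun t => b₂₁ t * u t + b₂₂ t * v t + c₂ t) (Icc t₁ t₂) :=
        (((h₂₁.of_le hle).mul ih.1).add ((h₂₂.of_le hle).mul ih.2)).add (k₂.of_le hle)
      have aux : ∀ (w w' : ℝ → V), (∀ t ∈ Icc t₁ t₂, HasDerivWithinAt w (w' t) (Icc t₁ t₂) t) →
          ContDiffOn ℝ k w' (Icc t₁ t₂) → ContDiffOn ℝ ((k + 1 : ℕ) : WithTop ℕ∞) w (Icc t₁ t₂) := by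
        intro w w' hw hw'
        push_cast
        rw [contDiffOn_succ_iff_derivWithin hU]
        refine ⟨fun t ht => (hw t ht).differentiableWithinAt, fun h => ?_, ?_⟩
        · exact absurd h (by simp)
        · refine hw'.congr fun t ht => ?_
          exact (hw t ht).derivWithin (hU t ht)
      exact ⟨aux u _ hu d1, aux v _ hv d2⟩
  exact ⟨contDiffOn_infty.2 fun k => (main k).1, contDiffOn_infty.2 fun k => (main k).2⟩

/-! ### Uniqueness -/

theorem uniq {t₁ t₂ t₀ : ℝ} (h0 : t₀ ∈ Icc t₁ t₂) (A : ℝ → (V × V) →L[ℝ] (V × V))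
    (hA : ContinuousOn A (Icc t₁ t₂)) (E : ℝ → V × V)
    (hE : ∀ t ∈ Icc t₁ t₂, HasDerivWithinAt E (A t (E t)) (Icc t₁ t₂) t) (hE0 : E t₀ = 0) :
    ∀ t ∈ Icc t₁ t₂, E t = 0 := by
  obtain ⟨C, hC⟩ : ∃ C, ∀ t ∈ Icc t₁ t₂, ‖A t‖ ≤ C := by
    have hn : ContinuousOn (fun t => ‖A t‖) (Icc t₁ t₂) :=
      (continuous_norm (E := (V × V) →L[ℝ] (V × V))).comp_continuousOn hA
    obtain ⟨C, hC⟩ := isCompact_Icc.exists_bound_of_continuousOn hn
    exact ⟨C, fun t ht => (le_abs_self _).trans (hC t ht)⟩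
  have hv : ∀ t ∈ Icc t₁ t₂, LipschitzOnWith (Real.toNNReal C) (fun x => A t x) univ := by
    intro t ht
    have h2 : LipschitzWith (Real.toNNReal C) (A t) := by
      refine (A t).lipschitz.weaken ?_
      rw [← NNReal.coe_le_coe]
      simpa using (hC t ht).trans (Real.le_coe_toNNReal C)
    exact h2.lipschitzOnWith
  have hcont : ContinuousOn E (Icc t₁ t₂) := fun t ht => (hE t ht).continuousWithinAt
  intro t ht
  rcases le_total t₀ t with h | h
  · have := ODE_solution_unique_of_mem_Icc_right (v := fun t x => A t x) (s := fun _ => univ)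
      (f := E) (g := fun _ => 0) (a := t₀) (b := t₂) (K := Real.toNNReal C)
      (fun s hs => hv s ⟨h0.1.trans hs.1, hs.2.le⟩)
      (hcont.mono (Icc_subset_Icc_left h0.1))
      (fun s hs => (hE s ⟨h0.1.trans hs.1, hs.2.le⟩).mono_of_mem_nhdsWithin
        (Icc_mem_nhdsGE_of_mem ⟨h0.1.trans hs.1, hs.2⟩))
      (fun _ _ => mem_univ _) continuousOn_const
      (fun s _ => by simpa using (hasDerivWithinAt_const s (Ici s) (0 : V × V)))
      (fun _ _ => mem_univ _) hE0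
    exact this ⟨h, ht.2⟩
  · have := ODE_solution_unique_of_mem_Icc_left (v := fun t x => A t x) (s := fun _ => univ)
      (f := E) (g := fun _ => 0) (a := t₁) (b := t₀) (K := Real.toNNReal C)
      (fun s hs => hv s ⟨hs.1.le, hs.2.trans h0.2⟩)
      (hcont.mono (Icc_subset_Icc_right h0.2))
      (fun s hs => (hE s ⟨hs.1.le, hs.2.trans h0.2⟩).mono_of_mem_nhdsWithin
        (Icc_mem_nhdsLE_of_mem ⟨hs.1, hs.2.trans h0.2⟩))
      (fun _ _ => mem_univ _) continuousOn_const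
      (fun s _ => by simpa using (hasDerivWithinAt_const s (Iic s) (0 : V × V)))
      (fun _ _ => mem_univ _) hE0
    exact this ⟨ht.1, h⟩

theorem Dx_smooth {J : Set ℝ} {n : ℕ} {v : ℝ → V} (h : Dx J n v) : ContDiffOn ℝ ∞ v J := by
  cases n with
  | zero => exact h
  | succ n => exact h.1

theorem extend {t₁ t₂ : ℝ} (h12 : t₁ ≤ t₂) {b : ℝ → V} (hb : ContinuousOn b (Icc t₁ t₂)) :
    ∃ B : ℝ → V, Continuous B ∧ ∀ t ∈ Icc t₁ t₂, B t = b t := by
  refine ⟨fun t => b (projIcc t₁ t₂ h12 t), ?_, fun t ht => ?_⟩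
  · exact hb.comp_continuous (continuous_subtype_val.comp continuous_projIcc)
      (fun t => (projIcc t₁ t₂ h12 t).2)
  · show b (projIcc t₁ t₂ h12 t) = b t
    rw [projIcc_of_mem h12 ht]

/-- **LIN**. -/
theorem main (hA : S_ALG) : S_LIN := by
  intro n t₁ t₂ t₀ h12 h0
  have hU : UniqueDiffOn ℝ (Icc t₁ t₂) := uniqueDiffOn_Icc h12
  induction n with
  | zero =>
    intro b₁₁ b₁₂ b₂₁ b₂₂ c₁ c₂ u v h₁₁ h₁₂ h₂₁ h₂₂ k₁ k₂ hu hv _ _
    exact smooth h12 h₁₁ h₁₂ h₂₁ h₂₂ k₁ k₂ hu hv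
  | succ n ih =>
    intro b₁₁ b₁₂ b₂₁ b₂₂ c₁ c₂ u v h₁₁ h₁₂ h₂₁ h₂₂ k₁ k₂ hu hv su sv
    have mono : ∀ w, Dx (Icc t₁ t₂) (n + 1) w → Dx (Icc t₁ t₂) n w := fun w hw =>
      (hA _ hU (n + 1) w w hw hw).2.2.2 n (Nat.le_succ n)
    obtain ⟨du, dv⟩ := ih b₁₁ b₁₂ b₂₁ b₂₂ c₁ c₂ u v (mono _ h₁₁) (mono _ h₁₂) (mono _ h₂₁)
      (mono _ h₂₂) (mono _ k₁) (mono _ k₂) hu hv (SmX_mono n _ su) (SmX_mono n _ sv)
    have S := smooth h12 (Dx_smooth h₁₁) (Dx_smooth h₁₂) (Dx_smooth h₂₁) (Dx_smooth h₂₂)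
      (Dx_smooth k₁) (Dx_smooth k₂) hu hv
    have e11 := mono _ h₁₁
    have e12 := mono _ h₁₂
    have e21 := mono _ h₂₁
    have e22 := mono _ h₂₂
    obtain ⟨s11, b11', d11, q11⟩ := h₁₁
    obtain ⟨s12, b12', d12, q12⟩ := h₁₂
    obtain ⟨s21, b21', d21, q21⟩ := h₂₁
    obtain ⟨s22, b22', d22, q22⟩ := h₂₂
    obtain ⟨s1, c1', d1, q1⟩ := k₁
    obtain ⟨s2, c2', d2, q2⟩ := k₂
    obtain ⟨f, sf, hf⟩ := su
    obtain ⟨g, sg, hg⟩ := sv
    have add' : ∀ w w', Dx (Icc t₁ t₂) n w → Dx (Icc t₁ t₂) n w' →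
      Dx (Icc t₁ t₂) n (fun t => w t + w' t) := fun w w' h h' => (hA _ hU n w w' h h').1
    have mul' : ∀ w w', Dx (Icc t₁ t₂) n w → Dx (Icc t₁ t₂) n w' →
      Dx (Icc t₁ t₂) n (fun t => w t * w' t) := fun w w' h h' => (hA _ hU n w w' h h').2.1
    -- the forcing terms
    have F1 : Dx (Icc t₁ t₂) n (fun t => b11' t * u t + b12' t * v t + c1' t) :=
      add' _ _ (add' _ _ (mul' _ _ d11 du) (mul' _ _ d12 dv)) d1
    have F2 : Dx (Icc t₁ t₂) n (fun t => b21' t * u t + b22' t * v t + c2' t) :=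
      add' _ _ (add' _ _ (mul' _ _ d21 du) (mul' _ _ d22 dv)) d2
    obtain ⟨B11, B11c, B11e⟩ := extend h12.le s11.continuousOn
    obtain ⟨B12, B12c, B12e⟩ := extend h12.le s12.continuousOn
    obtain ⟨B21, B21c, B21e⟩ := extend h12.le s21.continuousOn
    obtain ⟨B22, B22c, B22e⟩ := extend h12.le s22.continuousOn
    obtain ⟨C1, C1c, C1e⟩ := extend h12.le (Dx_smooth F1).continuousOn
    obtain ⟨C2, C2c, C2e⟩ := extend h12.le (Dx_smooth F2).continuousOn
    obtain ⟨u', v', u0, v0, hu', hv'⟩ := exi B11 B12 B21 B22 C1 C2 B11c B12c B21c B22c C1c C2c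
      t₀ f g
    have hu'' : ∀ t ∈ Icc t₁ t₂, HasDerivWithinAt u' (b₁₁ t * u' t + b₁₂ t * v' t +
        (b11' t * u t + b12' t * v t + c1' t)) (Icc t₁ t₂) t := by
      intro t ht
      have := (hu' t).hasDerivWithinAt (s := Icc t₁ t₂)
      rw [B11e t ht, B12e t ht, C1e t ht] at this
      exact this
    have hv'' : ∀ t ∈ Icc t₁ t₂, HasDerivWithinAt v' (b₂₁ t * u' t + b₂₂ t * v' t +
        (b21' t * u t + b22' t * v t + c2' t)) (Icc t₁ t₂) t := by
      intro t ht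
      have := (hv' t).hasDerivWithinAt (s := Icc t₁ t₂)
      rw [B21e t ht, B22e t ht, C2e t ht] at this
      exact this
    obtain ⟨du', dv'⟩ := ih b₁₁ b₁₂ b₂₁ b₂₂ _ _ u' v' e11 e12 e21 e22 F1 F2 hu'' hv''
      (by rw [u0]; exact sf) (by rw [v0]; exact sg)
    -- the error
    let E : ℝ → V × V := fun t => (u t - Z (u t) - P (u' t), v t - Z (v t) - P (v' t))
    let A : ℝ → (V × V) →L[ℝ] (V × V) := fun t =>
      (ContinuousLinearMap.inl ℝ V V).comp ((mu (b₁₁ t)).comp (ContinuousLinearMap.fst ℝ V V) +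
        (mu (b₁₂ t)).comp (ContinuousLinearMap.snd ℝ V V) -
        P.comp ((mu (b11' t)).comp (ContinuousLinearMap.fst ℝ V V) +
          (mu (b12' t)).comp (ContinuousLinearMap.snd ℝ V V))) +
      (ContinuousLinearMap.inr ℝ V V).comp ((mu (b₂₁ t)).comp (ContinuousLinearMap.fst ℝ V V) +
        (mu (b₂₂ t)).comp (ContinuousLinearMap.snd ℝ V V) -
        P.comp ((mu (b21' t)).comp (ContinuousLinearMap.fst ℝ V V) +
          (mu (b22' t)).comp (ContinuousLinearMap.snd ℝ V V)))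
    have hAa : ∀ t x y, A t (x, y) =
        (b₁₁ t * x + b₁₂ t * y - P (b11' t * x + b12' t * y),
         b₂₁ t * x + b₂₂ t * y - P (b21' t * x + b22' t * y)) := by
      intro t x y
      simp [A, mu_apply]
    have hAc : ContinuousOn A (Icc t₁ t₂) := by
      have hm : ∀ (b : ℝ → V), ContinuousOn b (Icc t₁ t₂) → ∀ p : V × V →L[ℝ] V,
          ContinuousOn (fun t => (mu (b t)).comp p) (Icc t₁ t₂) := fun b hb p =>
        (mu.continuous.comp_continuousOn hb).clm_comp continuousOn_const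
      refine ContinuousOn.add ?_ ?_
      · exact continuousOn_const.clm_comp (((hm _ s11.continuousOn _).add
          (hm _ s12.continuousOn _)).sub (continuousOn_const.clm_comp
            ((hm _ (Dx_smooth d11).continuousOn _).add (hm _ (Dx_smooth d12).continuousOn _))))
      · exact continuousOn_const.clm_comp (((hm _ s21.continuousOn _).add
          (hm _ s22.continuousOn _)).sub (continuousOn_const.clm_comp
            ((hm _ (Dx_smooth d21).continuousOn _).add (hm _ (Dx_smooth d22).continuousOn _))))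
    -- the identity for one product
    have ident : ∀ (b b' w w' : V), b = algebraMap ℝ V (b k0) + P b' →
        b * w - Z (b * w) - P (b' * w + b * w') =
          b * (w - Z w - P w') - P (b' * (w - Z w - P w')) := by
      intro b b' w w' hb
      set e := w - Z w - P w' with he
      have hb' : b = Z b + P b' := by rw [Z_apply]; exact hb
      have e0 : e k0 = 0 := by
        rw [he, ContinuousMap.sub_apply, ContinuousMap.sub_apply, Z_apply_apply, P_k0]
        simp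
      have hw : (w - e) = Z (w - e) + P w' := by
        have h1 : Z (w - e) = Z w := by
          rw [Z_apply, Z_apply, ContinuousMap.sub_apply, e0, sub_zero]
        rw [h1, he]; abel
      have h2 := prod_rule b (w - e) b' w' hb' hw
      have h3 : Z (b * e) = 0 := by
        rw [Z_apply, ContinuousMap.mul_apply, e0, mul_zero, map_zero]
      have h4 : Z (b * w) = Z (b * (w - e)) := by
        rw [mul_sub, map_sub, h3, sub_zero]
      have h5 : P (b' * (w - e) + b * w') = P (b' * w + b * w') - P (b' * e) := by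
        rw [← map_sub]; congr 1; ring
      rw [h5] at h2
      rw [h4]
      have h6 : b * w = b * (w - e) + b * e := by ring
      rw [h6]
      nth_rewrite 1 [h2]
      abel
    have hE : ∀ t ∈ Icc t₁ t₂, HasDerivWithinAt E (A t (E t)) (Icc t₁ t₂) t := by
      intro t ht
      have h1 : HasDerivWithinAt (fun t => u t - Z (u t) - P (u' t)) _ (Icc t₁ t₂) t :=
        ((hu t ht).sub (Z.hasFDerivAt.comp_hasDerivWithinAt t (hu t ht))).sub
          (P.hasFDerivAt.comp_hasDerivWithinAt t (hu'' t ht))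
      have h2 : HasDerivWithinAt (fun t => v t - Z (v t) - P (v' t)) _ (Icc t₁ t₂) t :=
        ((hv t ht).sub (Z.hasFDerivAt.comp_hasDerivWithinAt t (hv t ht))).sub
          (P.hasFDerivAt.comp_hasDerivWithinAt t (hv'' t ht))
      refine (h1.prodMk h2).congr_deriv ?_
      show _ = A t (u t - Z (u t) - P (u' t), v t - Z (v t) - P (v' t))
      rw [hAa]
      have i11 := ident (b₁₁ t) (b11' t) (u t) (u' t) (q11 t ht)
      have i12 := ident (b₁₂ t) (b12' t) (v t) (v' t) (q12 t ht)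
      have i21 := ident (b₂₁ t) (b21' t) (u t) (u' t) (q21 t ht)
      have i22 := ident (b₂₂ t) (b22' t) (v t) (v' t) (q22 t ht)
      have j1 : c₁ t - Z (c₁ t) - P (c1' t) = 0 := by
        rw [Z_apply]; nth_rewrite 1 [q1 t ht]; abel
      have j2 : c₂ t - Z (c₂ t) - P (c2' t) = 0 := by
        rw [Z_apply]; nth_rewrite 1 [q2 t ht]; abel
      simp only [map_add] at i11 i12 i21 i22 ⊢
      refine Prod.ext ?_ ?_
      · show _ = _
        simp only
        linear_combination (exp := 1) i11 + i12 + j1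
      · show _ = _
        simp only
        linear_combination (exp := 1) i21 + i22 + j2
    have hE0 : E t₀ = 0 := by
      refine Prod.ext ?_ ?_
      · show u t₀ - Z (u t₀) - P (u' t₀) = 0
        rw [u0, Z_apply]; nth_rewrite 1 [hf]; abel
      · show v t₀ - Z (v t₀) - P (v' t₀) = 0
        rw [v0, Z_apply]; nth_rewrite 1 [hg]; abel
    have hz := uniq h0 A hAc E hE hE0
    refine ⟨⟨S.1, u', du', fun t ht => ?_⟩, ⟨S.2, v', dv', fun t ht => ?_⟩⟩
    · have h1 : u t - Z (u t) - P (u' t) = 0 := congrArg Prod.fst (hz t ht)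
      rw [← Z_apply]
      have h2 : u t - (Z (u t) + P (u' t)) = 0 := by rw [← h1]; abel
      exact sub_eq_zero.1 h2
    · have h1 : v t - Z (v t) - P (v' t) = 0 := congrArg Prod.snd (hz t ht)
      rw [← Z_apply]
      have h2 : v t - (Z (v t) + P (v' t)) = 0 := by rw [← h1]; abel
      exact sub_eq_zero.1 h2

end

end Pool.Agent.N982.BQ.Lin
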