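import Pool.Agent.N982.BQ.Def
import Pool.Agent.N982.BQ.Goal

/-!
The system in Lagrangian form and the statements of the steps of the proof.
-/

set_option autoImplicit false

open Set MeasureTheory
open scoped ContDiff

namespace Pool.Agent.N982.BQ

noncomputable section

/-! ### Initial data -/

/-- The initial density: `ρ = r R₀(θ)`. -/
def R₀ (x : ℝ) : ℝ := -(Real.cos x * expNegInvGlue (Real.cos (2 * x) - 1 / 2))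

/-- The initial vorticity. -/
def w₀ (x : ℝ) : ℝ := -(Real.sin (2 * x) * expNegInvGlue (Real.cos (2 * x) - 1 / 2))

/-- Restriction of a continuous function to the labels. -/
def res (f : ℝ → ℝ) (hf : Continuous f) : V := ⟨fun x => f x, hf.comp continuous_subtype_val⟩

lemma contDiff_R₀ : ContDiff ℝ ∞ R₀ := by
  unfold R₀
  exact (Real.contDiff_cos.mul (expNegInvGlue.contDiff.comp
    ((Real.contDiff_cos.comp (contDiff_const.mul contDiff_id)).sub contDiff_const))).neg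

lemma contDiff_w₀ : ContDiff ℝ ∞ w₀ := by
  unfold w₀
  exact ((Real.contDiff_sin.comp (contDiff_const.mul contDiff_id)).mul
    (expNegInvGlue.contDiff.comp
    ((Real.contDiff_cos.comp (contDiff_const.mul contDiff_id)).sub contDiff_const))).neg

def R0v : V := res R₀ contDiff_R₀.continuous
def w0v : V := res w₀ contDiff_w₀.continuous
def q0v : V := res (deriv R₀) (contDiff_R₀.continuous_deriv (by norm_num))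

/-! ### The vector field -/

/-- The position of the particles: `Φ(x) = ∫₀ˣ j²`. -/
def Ph (j : V) : V := P (j * j)
def sn (j : V) : V := (⟨Real.sin, Real.continuous_sin⟩ : C(ℝ, ℝ)).comp (Ph j)
def cn (j : V) : V := (⟨Real.cos, Real.continuous_cos⟩ : C(ℝ, ℝ)).comp (Ph j)
def S2 (j : V) : V := 2 * sn j * cn j
def C2 (j : V) : V := cn j * cn j - sn j * sn j
def M1 (j w : V) : V := P (w * C2 j * (j * j))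
def M2 (j w : V) : V := P (w * S2 j * (j * j))
/-- `A = M1 - (the value at the wall)`, symmetrised. -/
def Av (j w : V) : V := M1 j w - algebraMap ℝ V ((M1 j w ka + M1 j w kma) / 2)
/-- `Ψ` at the particles. -/
def Ps (j w : V) : V := (1 / 2 : ℝ) • (S2 j * Av j w - C2 j * M2 j w)
/-- `Ψ'` at the particles. -/
def Pd (j w : V) : V := C2 j * Av j w + S2 j * M2 j w

/-- The vector field for `(j, q, w)`: `j² = ∂ₓΦ`, `q = R'` and `w = ω` at the particles; `R0v * j`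
is `R` at the particles. -/
def F (U : V × V × V) : V × V × V :=
  (Pd U.1 U.2.2 * U.1,
   (U.2.2 - 4 * Ps U.1 U.2.2) * (R0v * U.1) - Pd U.1 U.2.2 * U.2.1,
   -(R0v * U.1 * sn U.1 + U.2.1 * cn U.1))

/-- A solution on the open set of times `J`. -/
structure VSol (J : Set ℝ) (U : ℝ → V × V × V) : Prop where
  ini : U 0 = (1, q0v, w0v)
  ode : ∀ t ∈ J, HasDerivAt U (F (U t)) t

/-! ### The Lagrangian solution, pointwise. All functions are functions of `(x, t)`. -/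

def m1 (Φ j w : ℝ → ℝ → ℝ) (x t : ℝ) : ℝ :=
  ∫ y in (0 : ℝ)..x, w y t * Real.cos (2 * Φ y t) * j y t ^ 2
def m2 (Φ j w : ℝ → ℝ → ℝ) (x t : ℝ) : ℝ :=
  ∫ y in (0 : ℝ)..x, w y t * Real.sin (2 * Φ y t) * j y t ^ 2
/-- `Ψ` at the particles. -/
def ps (Φ j w : ℝ → ℝ → ℝ) (x t : ℝ) : ℝ :=
  (Real.sin (2 * Φ x t) * (m1 Φ j w x t - m1 Φ j w a t)
    - Real.cos (2 * Φ x t) * m2 Φ j w x t) / 2
/-- `Ψ'` at the particles. -/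
def pd (Φ j w : ℝ → ℝ → ℝ) (x t : ℝ) : ℝ :=
  Real.cos (2 * Φ x t) * (m1 Φ j w x t - m1 Φ j w a t)
    + Real.sin (2 * Φ x t) * m2 Φ j w x t

/-- The Lagrangian solution on the set of times `J`. -/
structure Lag (J : Set ℝ) (Φ j r q w : ℝ → ℝ → ℝ) : Prop where
  cΦ : ContinuousOn (fun p : ℝ × ℝ => Φ p.1 p.2) (Icc (-a) a ×ˢ J)
  cj : ContinuousOn (fun p : ℝ × ℝ => j p.1 p.2) (Icc (-a) a ×ˢ J)
  cr : ContinuousOn (fun p : ℝ × ℝ => r p.1 p.2) (Icc (-a) a ×ˢ J)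
  cq : ContinuousOn (fun p : ℝ × ℝ => q p.1 p.2) (Icc (-a) a ×ˢ J)
  cw : ContinuousOn (fun p : ℝ × ℝ => w p.1 p.2) (Icc (-a) a ×ˢ J)
  sΦ : ContDiffOn ℝ ∞ (fun p : ℝ × ℝ => Φ p.1 p.2) (Ioo (-a) a ×ˢ J)
  sr : ContDiffOn ℝ ∞ (fun p : ℝ × ℝ => r p.1 p.2) (Ioo (-a) a ×ˢ J)
  sw : ContDiffOn ℝ ∞ (fun p : ℝ × ℝ => w p.1 p.2) (Ioo (-a) a ×ˢ J)
  jpos : ∀ t ∈ J, ∀ x ∈ Icc (-a) a, 0 < j x t
  Φx : ∀ t ∈ J, ∀ x ∈ Icc (-a) a,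
    HasDerivWithinAt (fun y => Φ y t) (j x t ^ 2) (Icc (-a) a) x
  rx : ∀ t ∈ J, ∀ x ∈ Icc (-a) a,
    HasDerivWithinAt (fun y => r y t) (q x t * j x t ^ 2) (Icc (-a) a) x
  Φ0 : ∀ t ∈ J, Φ 0 t = 0
  Φa : ∀ t ∈ J, Φ a t = a
  oddΦ : ∀ t ∈ J, ∀ x ∈ Icc (-a) a, Φ (-x) t = -Φ x t
  oddw : ∀ t ∈ J, ∀ x ∈ Icc (-a) a, w (-x) t = -w x t
  evj : ∀ t ∈ J, ∀ x ∈ Icc (-a) a, j (-x) t = j x t
  evr : ∀ t ∈ J, ∀ x ∈ Icc (-a) a, r (-x) t = r x t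
  zr : ∀ t ∈ J, ∀ x ∈ Icc (-a) a, Real.pi / 6 ≤ |x| → w x t = 0 ∧ r x t = 0 ∧ q x t = 0
  rj : ∀ t ∈ J, ∀ x ∈ Icc (-a) a, r x t = R₀ x * j x t
  ini : ∀ x ∈ Icc (-a) a, Φ x 0 = x ∧ j x 0 = 1 ∧ r x 0 = R₀ x ∧ q x 0 = deriv R₀ x ∧ w x 0 = w₀ x
  Φt : ∀ t ∈ J, ∀ x ∈ Icc (-a) a, HasDerivAt (Φ x) (2 * ps Φ j w x t) t
  jt : ∀ t ∈ J, ∀ x ∈ Icc (-a) a, HasDerivAt (j x) (pd Φ j w x t * j x t) t
  qt : ∀ t ∈ J, ∀ x ∈ Icc (-a) a, HasDerivAt (q x)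
    ((w x t - 4 * ps Φ j w x t) * r x t - pd Φ j w x t * q x t) t
  wt : ∀ t ∈ J, ∀ x ∈ Icc (-a) a, HasDerivAt (w x)
    (-(r x t * Real.sin (Φ x t) + q x t * Real.cos (Φ x t))) t

/-! ### The steps -/

/-- (MAX) Maximal solutions of ordinary differential equations in Banach spaces. -/
def S_MAX : Prop := ∀ (E : Type) [NormedAddCommGroup E] [NormedSpace ℝ E] [CompleteSpace E]
    (G : E → E), LB G → ∀ u₀ : E, ∃ δ : ℝ, 0 < δ ∧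
      ((∃ U : ℝ → E, U 0 = u₀ ∧ ∀ t, -δ < t → HasDerivAt U (G (U t)) t) ∨
      ∃ T : ℝ, 0 < T ∧ ∃ U : ℝ → E, U 0 = u₀ ∧ (∀ t ∈ Ioo (-δ) T, HasDerivAt U (G (U t)) t) ∧
        ∀ B : ℝ, ∃ t ∈ Ico 0 T, B < ‖U t‖)

/-- (LIN) Regularity in the label of solutions of linear systems. -/
def S_LIN : Prop := ∀ (n : ℕ) (t₁ t₂ t₀ : ℝ), t₁ < t₂ → t₀ ∈ Icc t₁ t₂ →
    ∀ b₁₁ b₁₂ b₂₁ b₂₂ c₁ c₂ u v : ℝ → V,
    Dx (Icc t₁ t₂) n b₁₁ → Dx (Icc t₁ t₂) n b₁₂ → Dx (Icc t₁ t₂) n b₂₁ → Dx (Icc t₁ t₂) n b₂₂ →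
    Dx (Icc t₁ t₂) n c₁ → Dx (Icc t₁ t₂) n c₂ →
    (∀ t ∈ Icc t₁ t₂, HasDerivWithinAt u (b₁₁ t * u t + b₁₂ t * v t + c₁ t) (Icc t₁ t₂) t) →
    (∀ t ∈ Icc t₁ t₂, HasDerivWithinAt v (b₂₁ t * u t + b₂₂ t * v t + c₂ t) (Icc t₁ t₂) t) →
    SmX n (u t₀) → SmX n (v t₀) → Dx (Icc t₁ t₂) n u ∧ Dx (Icc t₁ t₂) n v

/-- (ALG) Closure properties of the curves which are smooth in the label. -/
def S_ALG : Prop := ∀ (J : Set ℝ), UniqueDiffOn ℝ J → ∀ (n : ℕ) (u v : ℝ → V), Dx J n u → Dx J n v →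
    Dx J n (fun t => u t + v t) ∧ Dx J n (fun t => u t * v t) ∧ Dx J (n + 1) (fun t => P (u t)) ∧
    (∀ m ≤ n, Dx J m u)

/-- (JOINT) Joint smoothness. -/
def S_JOINT : Prop := ∀ (t₁ t₂ : ℝ), t₁ < t₂ → ∀ v : ℝ → V, (∀ n, Dx (Icc t₁ t₂) n v) →
    ContDiffOn ℝ ∞ (fun p : ℝ × ℝ => ext (v p.2) p.1) (Ioo (-a) a ×ˢ Ioo t₁ t₂)

/-- (LBF) The vector field is bounded and Lipschitz on bounded sets. -/
def S_LBF : Prop := LB F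

/-- (ID) Identities for the solutions. -/
def S_ID : Prop := ∀ (t₁ t₂ : ℝ), t₁ < 0 → 0 < t₂ → ∀ U : ℝ → V × V × V, VSol (Ioo t₁ t₂) U →
    ∀ t ∈ Ioo t₁ t₂,
      HasDerivAt (fun s => Ph (U s).1) (2 * Ps (U t).1 (U t).2.2) t ∧
      (∀ x, 0 < (U t).1 x) ∧
      R0v * (U t).1 = algebraMap ℝ V ((R0v * (U t).1) k0) + P ((U t).2.1 * ((U t).1 * (U t).1)) ∧
      (∀ x y : K, (y : ℝ) = -x → (U t).1 y = (U t).1 x ∧ (U t).2.1 y = -(U t).2.1 x ∧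
        (U t).2.2 y = -(U t).2.2 x) ∧
      Ph (U t).1 ka = a ∧
      (∀ x : K, Real.pi / 6 ≤ |(x : ℝ)| → (U t).2.1 x = 0 ∧ (U t).2.2 x = 0)

/-- (POS) Positivity for a linear system with positive coupling. -/
def S_POS : Prop := ∀ (T : ℝ) (z e A B C D : ℝ → ℝ → ℝ), 0 < T →
    ContinuousOn (fun p : ℝ × ℝ => z p.1 p.2) (Icc 0 a ×ˢ Icc 0 T) →
    ContinuousOn (fun p : ℝ × ℝ => e p.1 p.2) (Icc 0 a ×ˢ Icc 0 T) →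
    ContinuousOn (fun p : ℝ × ℝ => A p.1 p.2) (Icc 0 a ×ˢ Icc 0 T) →
    ContinuousOn (fun p : ℝ × ℝ => B p.1 p.2) (Icc 0 a ×ˢ Icc 0 T) →
    ContinuousOn (fun p : ℝ × ℝ => C p.1 p.2) (Icc 0 a ×ˢ Icc 0 T) →
    ContinuousOn (fun p : ℝ × ℝ => D p.1 p.2) (Icc 0 a ×ˢ Icc 0 T) →
    (∀ x ∈ Icc 0 a, ∀ t ∈ Icc 0 T, 0 ≤ B x t ∧ 0 ≤ C x t ∧ 0 ≤ D x t) →
    (∀ x ∈ Icc 0 a, 0 ≤ z x 0 ∧ 0 ≤ e x 0) →
    (∀ x ∈ Icc 0 a, ∀ t ∈ Icc 0 T, HasDerivWithinAt (z x) (e x t) (Icc 0 T) t) →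
    (∀ x ∈ Icc 0 a, ∀ t ∈ Icc 0 T, HasDerivWithinAt (e x)
      (-(A x t * e x t) + B x t * z x t + C x t * ∫ y in (0 : ℝ)..x, z y t * D y t)
      (Icc 0 T) t) →
    ∀ x ∈ Icc 0 a, ∀ t ∈ Icc 0 T, 0 ≤ z x t ∧ 0 ≤ e x t

/-- (ODE) The final argument with ordinary differential inequalities:
`α = X² = X₀² e^I`, `I' = S`, `σ' = X`. -/
def S_ODE : Prop := ¬ ∃ (S S' W W' I σ : ℝ → ℝ) (Q : ℝ → Prop) (X₀ c₀ : ℝ), 0 < X₀ ∧ 0 < c₀ ∧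
    I 0 = 0 ∧ σ 0 = 0 ∧
    (∀ t, 0 ≤ t → 0 ≤ S t ∧ 0 ≤ W t) ∧
    (∀ t, 0 ≤ t → HasDerivAt I (S t) t) ∧
    (∀ t, 0 ≤ t → HasDerivAt σ (X₀ * Real.exp (I t / 2)) t) ∧
    (∀ t, 0 ≤ t → HasDerivAt S (S' t) t) ∧
    (∀ t, 0 ≤ t → HasDerivAt W (W' t) t) ∧
    (∀ t, 0 ≤ t → S' t ≤ S t ^ 2 + X₀ ^ 2 * Real.exp (I t)) ∧
    (∀ t, 0 ≤ t → -6 * W t * S t ≤ S' t) ∧
    (∀ t, 0 ≤ t → Q t → 3 / 10 * (X₀ ^ 2 * Real.exp (I t)) - 6 * W t * S t ≤ S' t) ∧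
    (∀ t, 0 ≤ t → ¬ Q t → c₀ * Real.exp (σ t - 5 * I t) ≤ S t * (X₀ ^ 2 * Real.exp (I t))) ∧
    (∀ t, 0 ≤ t → W' t ≤ X₀ ^ 2 * Real.exp (I t) + 2 * S t ^ 2 + 3 * W t * S t - W t ^ 2)

/-- (CRIT) The norms of the vorticity and of the density gradient blow up. -/
def S_CRIT : Prop := ∀ (δ T : ℝ), 0 < δ → 0 < T → ∀ U : ℝ → V × V × V, VSol (Ioo (-δ) T) U →
    (∀ B : ℝ, ∃ t ∈ Ico 0 T, B < ‖U t‖) →
    ∀ M : ℝ, ∃ t₀ ∈ Ico 0 T, ∀ t ∈ Ioo t₀ T, ∃ x : K, (x : ℝ) ∈ Ioo (-a) a ∧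
      M < |(U t).2.2 x| + Real.sqrt ((R0v * (U t).1) x ^ 2 + (U t).2.1 x ^ 2)

/-- (REG) Regularity of the solutions in the label. -/
def S_REG : Prop := ∀ (t₁ t₂ : ℝ), t₁ < 0 → 0 < t₂ → ∀ U : ℝ → V × V × V, VSol (Ioo t₁ t₂) U →
    ∀ s₁ s₂ : ℝ, t₁ < s₁ → s₁ < 0 → 0 < s₂ → s₂ < t₂ → ∀ n : ℕ,
      Dx (Icc s₁ s₂) n (fun t => (U t).1) ∧ Dx (Icc s₁ s₂) n (fun t => (U t).2.1) ∧
      Dx (Icc s₁ s₂) n (fun t => (U t).2.2) ∧ Dx (Icc s₁ s₂) n (fun t => Ph (U t).1)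

/-- (LAG) The solutions in pointwise form. -/
def S_LAG : Prop := ∀ (δ : ℝ) (J : Set ℝ), 0 < δ →
    (J = Ioi (-δ) ∨ ∃ T : ℝ, 0 < T ∧ J = Ioo (-δ) T) → ∀ U : ℝ → V × V × V, VSol J U →
    Lag J (fun x t => ext (Ph (U t).1) x) (fun x t => ext (U t).1 x)
      (fun x t => ext (R0v * (U t).1) x) (fun x t => ext (U t).2.1 x)
      (fun x t => ext (U t).2.2 x)

/-- (NOGLOB) There is no global solution. -/
def S_NOGLOB : Prop := ∀ δ : ℝ, 0 < δ → ¬ ∃ Φ j r q w : ℝ → ℝ → ℝ, Lag (Ioi (-δ)) Φ j r q w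

/-- (EUL) From the Lagrangian to the Eulerian form. -/
def S_EUL : Prop := ∀ (δ T : ℝ) (Φ j r q w : ℝ → ℝ → ℝ), 0 < δ → 0 < T →
    Lag (Ioo (-δ) T) Φ j r q w →
    (∀ M : ℝ, ∃ t₀ ∈ Ico 0 T, ∀ t ∈ Ioo t₀ T, ∃ x ∈ Ioo (-a) a,
      M < |w x t| + Real.sqrt (r x t ^ 2 + q x t ^ 2)) → Goal

end

end Pool.Agent.N982.BQ
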