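import Mathlib
import Pool.Agent.N982.BQ.Stm
import Pool.Agent.GR.Flow

/-!
Project BQ, part MAX: maximal solutions of ordinary differential equations in Banach spaces.
-/

set_option autoImplicit false

open Set Filter Topology

namespace Pool.Agent.N982.BQ.Max

section
variable {E : Type} [NormedAddCommGroup E] [NormedSpace ℝ E]

/-- the cut-off -/
noncomputable def chi (R s : ℝ) : ℝ := max 0 (min 1 (R + 1 - s))

theorem chi_nonneg (R s : ℝ) : 0 ≤ chi R s := le_max_left _ _

theorem chi_le (R s : ℝ) : chi R s ≤ 1 := max_le zero_le_one (min_le_left _ _)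

theorem chi_one {R s : ℝ} (h : s ≤ R) : chi R s = 1 := by
  unfold chi
  rw [min_eq_left (by linarith), max_eq_right zero_le_one]

theorem chi_zero {R s : ℝ} (h : R + 1 ≤ s) : chi R s = 0 := by
  unfold chi
  rw [max_eq_left]
  exact (min_le_right _ _).trans (by linarith)

theorem chi_lip (R s s' : ℝ) : |chi R s - chi R s'| ≤ |s - s'| := by
  unfold chi
  refine (abs_max_sub_max_le_max _ _ _ _).trans ?_
  rw [sub_self, abs_zero, max_eq_right (abs_nonneg _)]
  refine (abs_min_sub_min_le_max _ _ _ _).trans ?_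
  rw [sub_self, abs_zero, max_eq_right (abs_nonneg _)]
  rw [show R + 1 - s - (R + 1 - s') = -(s - s') by ring, abs_neg]

/-- the truncated vector field -/
noncomputable def XX (G : E → E) (R : ℝ) (x : E) : E := chi R ‖x‖ • G x

theorem XX_eq (G : E → E) {R : ℝ} {x : E} (h : ‖x‖ ≤ R) : XX G R x = G x := by
  unfold XX
  rw [chi_one h, one_smul]

theorem XX_bd {G : E → E} (hG : LB G) (R : ℝ) :
    ∃ C : NNReal, (∀ x, ‖XX G R x‖ ≤ C) ∧ LipschitzWith (2 * C) (XX G R) := by
  obtain ⟨C₀, hC₀⟩ := hG (R + 1)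
  have hC : ∀ u v : E, ‖u‖ ≤ R + 1 → ‖v‖ ≤ R + 1 →
      ‖G u‖ ≤ C₀.toNNReal ∧ ‖G u - G v‖ ≤ C₀.toNNReal * ‖u - v‖ := by
    intro u v hu hv
    obtain ⟨h1, h2⟩ := hC₀ u v hu hv
    have h3 : C₀ ≤ C₀.toNNReal := Real.le_coe_toNNReal C₀
    exact ⟨h1.trans h3, h2.trans (mul_le_mul_of_nonneg_right h3 (norm_nonneg _))⟩
  refine ⟨C₀.toNNReal, fun x => ?_, ?_⟩
  · by_cases hx : ‖x‖ ≤ R + 1
    · have h1 := (hC x x hx hx).1
      unfold XX
      rw [norm_smul, Real.norm_of_nonneg (chi_nonneg _ _)]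
      have := chi_le R ‖x‖
      have := chi_nonneg R ‖x‖
      nlinarith [norm_nonneg (G x)]
    · unfold XX
      rw [chi_zero (not_le.1 hx).le, zero_smul, norm_zero]
      exact NNReal.coe_nonneg _
  · have key : ∀ x y : E, ‖x‖ ≤ R + 1 →
        ‖XX G R x - XX G R y‖ ≤ 2 * C₀.toNNReal * ‖x - y‖ := by
      intro x y hx
      have h1 : |chi R ‖x‖ - chi R ‖y‖| ≤ ‖x - y‖ :=
        (chi_lip R _ _).trans (abs_norm_sub_norm_le x y)
      have h2 := (hC x x hx hx).1
      have h0 : (0 : ℝ) ≤ C₀.toNNReal := NNReal.coe_nonneg _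
      have h3 : ‖(chi R ‖x‖ - chi R ‖y‖) • G x‖ ≤ C₀.toNNReal * ‖x - y‖ := by
        rw [norm_smul, Real.norm_eq_abs, mul_comm]
        exact mul_le_mul h2 h1 (abs_nonneg _) h0
      by_cases hy : ‖y‖ ≤ R + 1
      · have h4 := (hC x y hx hy).2
        have h5 : XX G R x - XX G R y = (chi R ‖x‖ - chi R ‖y‖) • G x +
            chi R ‖y‖ • (G x - G y) := by
          unfold XX
          module
        have h6 : ‖chi R ‖y‖ • (G x - G y)‖ ≤ C₀.toNNReal * ‖x - y‖ := by
          rw [norm_smul, Real.norm_of_nonneg (chi_nonneg _ _)]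
          have := chi_le R ‖y‖
          have := chi_nonneg R ‖y‖
          nlinarith [norm_nonneg (G x - G y)]
        rw [h5]
        refine (norm_add_le _ _).trans ?_
        linarith
      · have h5 : XX G R x - XX G R y = (chi R ‖x‖ - chi R ‖y‖) • G x := by
          unfold XX
          rw [chi_zero (not_le.1 hy).le]
          module
        rw [h5]
        nlinarith [norm_nonneg (x - y)]
    refine LipschitzWith.of_dist_le_mul fun x y => ?_
    rw [dist_eq_norm, dist_eq_norm]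
    push_cast
    by_cases hx : ‖x‖ ≤ R + 1
    · exact key x y hx
    · by_cases hy : ‖y‖ ≤ R + 1
      · rw [← norm_neg (XX G R x - _), neg_sub, ← norm_neg (x - y), neg_sub]
        exact key y x hy
      · unfold XX
        rw [chi_zero (not_le.1 hx).le, chi_zero (not_le.1 hy).le, zero_smul, zero_smul, sub_zero,
          norm_zero]
        positivity

end

theorem main : S_MAX := by
  intro E _ _ _ G hG u₀
  choose C hC1 hC2 using fun R => XX_bd hG R
  choose g hg0 hg using fun R => Pool.Agent.GR.Flow.exists_solution (hC2 R) (hC1 R) u₀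
  have hgc : ∀ R, Continuous (g R) := fun R =>
    continuous_iff_continuousAt.2 fun t => (hg R t).continuousAt
  -- the first interval
  set R₀ := ‖u₀‖ + 1 with hR₀
  obtain ⟨δ, hδ0, hδ⟩ : ∃ δ : ℝ, 0 < δ ∧ ∀ s ∈ Icc (-δ) δ, ‖g R₀ s‖ < R₀ := by
    have h1 : ∀ᶠ s in 𝓝 (0 : ℝ), ‖g R₀ s‖ < R₀ := by
      refine (hgc R₀).norm.continuousAt.eventually_lt continuousAt_const ?_
      simp only [hg0]
      linarith
    obtain ⟨ε, hε, h2⟩ := Metric.eventually_nhds_iff.1 h1
    refine ⟨ε / 2, by positivity, fun s hs => h2 ?_⟩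
    rw [dist_zero_right, Real.norm_eq_abs]
    have := abs_le.2 hs
    linarith
  -- uniqueness
  have huniq : ∀ (R a b : ℝ), 0 ∈ Ioo a b → ∀ u : ℝ → E, u 0 = u₀ →
      (∀ s ∈ Ioo a b, HasDerivAt u (G (u s)) s ∧ ‖u s‖ ≤ R) → EqOn u (g R) (Ioo a b) := by
    intro R a b h0 u hu0 hu
    refine ODE_solution_unique_of_mem_Ioo (v := fun _ => XX G R) (s := fun _ => univ)
      (K := 2 * C R) (t₀ := 0) (fun t _ => (hC2 R).lipschitzOnWith) h0
      (fun t ht => ⟨?_, trivial⟩) (fun t ht => ⟨hg R t, trivial⟩) ?_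
    · rw [XX_eq G (hu t ht).2]
      exact (hu t ht).1
    · rw [hu0, hg0]
  set P : ℝ → ℝ → Prop := fun R t => ∀ s ∈ Icc (-δ) (max t δ), ‖g R s‖ < R with hP
  have hP0 : ∀ t ≤ δ, P R₀ t := by
    intro t ht s hs
    rw [max_eq_right ht] at hs
    exact hδ s hs
  have hPdown : ∀ R t t', t' ≤ t → P R t → P R t' := by
    intro R t t' h hPt s hs
    exact hPt s ⟨hs.1, hs.2.trans (max_le_max_right _ h)⟩
  have h0mem : ∀ t, (0 : ℝ) ∈ Ioo (-δ) (max t δ) := fun t =>
    ⟨by linarith, lt_of_lt_of_le hδ0 (le_max_right _ _)⟩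
  have hPext : ∀ R t, P R t → ∃ t' > max t δ, P R t' := by
    intro R t h
    set m := max t δ with hm
    have hm0 : δ ≤ m := le_max_right _ _
    have h1 : ∀ᶠ s in 𝓝 m, ‖g R s‖ < R := by
      refine (hgc R).norm.continuousAt.eventually_lt continuousAt_const ?_
      exact h m ⟨by linarith, le_rfl⟩
    obtain ⟨ε, hε, h2⟩ := Metric.eventually_nhds_iff.1 h1
    refine ⟨m + ε / 2, by linarith, fun s hs => ?_⟩
    rw [max_eq_left (by linarith)] at hs
    by_cases hsm : s ≤ m
    · exact h s ⟨hs.1, hsm⟩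
    · refine h2 ?_
      rw [Real.dist_eq, abs_lt]
      constructor <;> linarith [hs.2]
  have hE1 : ∀ R R' t, R ≤ R' → P R t → EqOn (g R) (g R') (Icc (-δ) (max t δ)) := by
    intro R R' t hRR h
    obtain ⟨t', ht', h'⟩ := hPext R t h
    have h1 : EqOn (g R) (g R') (Ioo (-δ) (max t' δ)) := by
      refine huniq R' _ _ (h0mem t') (g R) (hg0 R) fun s hs => ?_
      have h2 := h' s ⟨hs.1.le, hs.2.le⟩
      refine ⟨?_, (h2.trans_le hRR).le⟩
      have h3 := hg R s
      rwa [XX_eq G h2.le] at h3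
    have h2 : Icc (-δ) (max t δ) ⊆ closure (Ioo (-δ) (max t' δ)) := by
      rw [closure_Ioo (by linarith [(h0mem t').1, (h0mem t').2])]
      exact Icc_subset_Icc le_rfl (ht'.le.trans (le_max_left _ _))
    exact (h1.closure (hgc R) (hgc R')).mono h2
  have hE : ∀ R R' t, P R t → P R' t → EqOn (g R) (g R') (Icc (-δ) (max t δ)) := by
    intro R R' t h h'
    rcases le_total R R' with h1 | h1
    · exact hE1 R R' t h1 h
    · exact (hE1 R' R t h1 h').symm
  -- the maximal solution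
  classical
  set U : ℝ → E := fun t => if h : ∃ R, P R t then g (Classical.choose h) t else 0 with hU
  have hUeq : ∀ R t, P R t → -δ ≤ t → U t = g R t := by
    intro R t h ht
    have hex : ∃ R, P R t := ⟨R, h⟩
    have h1 : U t = g (Classical.choose hex) t := by
      simp only [hU]
      rw [dif_pos hex]
    rw [h1]
    exact hE _ _ t (Classical.choose_spec hex) h ⟨ht, le_max_left _ _⟩
  have hUd : ∀ R t, P R t → -δ < t → HasDerivAt U (G (U t)) t := by
    intro R t h ht
    obtain ⟨t', ht', h'⟩ := hPext R t h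
    have htt' : t < t' := lt_of_le_of_lt (le_max_left _ _) ht'
    have h1 : U =ᶠ[𝓝 t] g R := by
      filter_upwards [Ioo_mem_nhds ht htt'] with s hs
      exact hUeq R s (hPdown R t' s hs.2.le h') hs.1.le
    have h2 := h t ⟨ht.le, le_max_left _ _⟩
    have h3 := hg R t
    rw [XX_eq G h2.le, ← hUeq R t h ht.le] at h3
    exact h3.congr_of_eventuallyEq h1
  have hU0 : U 0 = u₀ := by
    rw [hUeq R₀ 0 (hP0 0 hδ0.le) (by linarith), hg0]
  refine ⟨δ, hδ0, ?_⟩
  by_cases hall : ∀ t, ∃ R, P R t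
  · left
    refine ⟨U, hU0, fun t ht => ?_⟩
    obtain ⟨R, hR⟩ := hall t
    exact hUd R t hR ht
  · right
    push Not at hall
    obtain ⟨t₁, ht₁⟩ := hall
    set A : Set ℝ := {t | ∃ R, P R t} with hA
    have hAb : BddAbove A := by
      refine ⟨t₁, fun t ht => ?_⟩
      obtain ⟨R, hR⟩ := ht
      by_contra hcon
      exact ht₁ R (hPdown R t t₁ (not_le.1 hcon).le hR)
    have hδA : δ ∈ A := ⟨R₀, hP0 δ le_rfl⟩
    set T := sSup A with hT
    have hδT : δ ≤ T := le_csSup hAb hδA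
    have hltT : ∀ t < T, ∃ R, P R t := by
      intro t ht
      obtain ⟨t', ⟨R, hR⟩, h2⟩ := exists_lt_of_lt_csSup ⟨δ, hδA⟩ ht
      exact ⟨R, hPdown R t' t h2.le hR⟩
    have hUd' : ∀ t ∈ Ioo (-δ) T, HasDerivAt U (G (U t)) t := by
      intro t ht
      obtain ⟨R, hR⟩ := hltT t ht.2
      exact hUd R t hR ht.1
    refine ⟨T, by linarith, U, hU0, hUd', ?_⟩
    by_contra hcon
    push Not at hcon
    obtain ⟨B, hB⟩ := hcon
    have hbd : ∀ s ∈ Ioo (-δ) T, ‖U s‖ ≤ max B R₀ := by
      intro s hs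
      rcases le_or_gt 0 s with h0 | h0
      · exact (hB s ⟨h0, hs.2⟩).trans (le_max_left _ _)
      · rw [hUeq R₀ s (hP0 s (by linarith)) hs.1.le]
        exact (hδ s ⟨hs.1.le, by linarith⟩).le.trans (le_max_right _ _)
    have hEq : EqOn U (g (max B R₀ + 1)) (Ioo (-δ) T) :=
      huniq _ _ _ ⟨by linarith, by linarith⟩ U hU0
        (fun s hs => ⟨hUd' s hs, (hbd s hs).trans (by linarith)⟩)
    have hcl : Icc (-δ) T ⊆ {s | ‖g (max B R₀ + 1) s‖ ≤ max B R₀} := by
      rw [← closure_Ioo (show -δ ≠ T by linarith)]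
      refine closure_minimal (fun s hs => ?_) (isClosed_le (hgc _).norm continuous_const)
      have := hbd s hs
      rw [hEq hs] at this
      exact this
    have hPT : P (max B R₀ + 1) T := by
      intro s hs
      rw [max_eq_left hδT] at hs
      have := hcl hs
      simp only [Set.mem_ofPred_eq] at this
      linarith
    obtain ⟨t', ht', h'⟩ := hPext _ _ hPT
    have h1 : t' ≤ T := le_csSup hAb ⟨_, h'⟩
    rw [max_eq_left hδT] at ht'
    linarith

end Pool.Agent.N982.BQ.Max
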