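import Pool.Agent.N982.BQ.Stm

/-!
# The final argument with differential inequalities
-/

set_option autoImplicit false

namespace Pool.Agent.N982.BQ.Ode

open Set

theorem lower {f f' : ℝ → ℝ} {a b C : ℝ} (hab : a ≤ b) (h : ∀ t ∈ Icc a b, HasDerivAt f (f' t) t)
    (hC : ∀ t ∈ Icc a b, C ≤ f' t) : C * (b - a) ≤ f b - f a := by
  refine (convex_Icc a b).mul_sub_le_image_sub_of_le_deriv
    (fun t ht => (h t ht).continuousAt.continuousWithinAt)
    (fun t ht => (h t (interior_subset ht)).differentiableAt.differentiableWithinAt)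
    (fun t ht => ?_) a (left_mem_Icc.2 hab) b (right_mem_Icc.2 hab) hab
  rw [(h t (interior_subset ht)).deriv]
  exact hC t (interior_subset ht)

theorem upper {f f' : ℝ → ℝ} {a b C : ℝ} (hab : a ≤ b) (h : ∀ t ∈ Icc a b, HasDerivAt f (f' t) t)
    (hC : ∀ t ∈ Icc a b, f' t ≤ C) : f b - f a ≤ C * (b - a) := by
  have := lower (f := fun t => -f t) (f' := fun t => -f' t) (C := -C) hab
    (fun t ht => (h t ht).fun_neg) (fun t ht => neg_le_neg (hC t ht))
  linarith

theorem last_down {f : ℝ → ℝ} {a b c : ℝ} (hab : a ≤ b) (hf : ContinuousOn f (Icc a b))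
    (ha : c ≤ f a) (hb : f b < c) : ∃ x ∈ Icc a b, f x = c ∧ ∀ y ∈ Ioc x b, f y < c := by
  have hne : (Icc a b ∩ f ⁻¹' Ici c).Nonempty := ⟨a, left_mem_Icc.2 hab, ha⟩
  have hcl : IsClosed (Icc a b ∩ f ⁻¹' Ici c) :=
    hf.preimage_isClosed_of_isClosed isClosed_Icc isClosed_Ici
  have hcomp : IsCompact (Icc a b ∩ f ⁻¹' Ici c) :=
    isCompact_Icc.of_isClosed_subset hcl inter_subset_left
  obtain ⟨x, hx, hmax⟩ := hcomp.exists_isGreatest hne
  refine ⟨x, hx.1, ?_, ?_⟩
  · have hxb : x ≤ b := hx.1.2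
    have h1 := intermediate_value_Icc' hxb (hf.mono (Icc_subset_Icc_left hx.1.1))
    obtain ⟨z, hz, hzc⟩ := h1 ⟨hb.le, hx.2⟩
    have h2 : z ≤ x := hmax ⟨⟨hx.1.1.trans hz.1, hz.2⟩, hzc.ge⟩
    have h3 : z = x := le_antisymm h2 hz.1
    rw [← h3]
    exact hzc
  · intro y hy
    by_contra hcon
    have : y ≤ x := hmax ⟨⟨hx.1.1.trans hy.1.le, hy.2⟩, not_lt.1 hcon⟩
    exact absurd hy.1 (not_lt.2 this)

theorem last_up {f : ℝ → ℝ} {a b c : ℝ} (hab : a ≤ b) (hf : ContinuousOn f (Icc a b))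
    (ha : f a ≤ c) (hb : c < f b) : ∃ x ∈ Icc a b, f x = c ∧ ∀ y ∈ Ioc x b, c < f y := by
  obtain ⟨x, hx, h1, h2⟩ := last_down (f := fun t => -f t) (c := -c) hab hf.neg (neg_le_neg ha)
    (neg_lt_neg hb)
  exact ⟨x, hx, neg_inj.1 h1, fun y hy => neg_lt_neg_iff.1 (h2 y hy)⟩

theorem first_up {f : ℝ → ℝ} {a b c : ℝ} (hab : a ≤ b) (hf : ContinuousOn f (Icc a b))
    (ha : f a ≤ c) (hb : c ≤ f b) : ∃ x ∈ Icc a b, f x = c ∧ ∀ y ∈ Icc a x, f y ≤ c := by
  have hne : (Icc a b ∩ f ⁻¹' Ici c).Nonempty := ⟨b, right_mem_Icc.2 hab, hb⟩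
  have hcl : IsClosed (Icc a b ∩ f ⁻¹' Ici c) :=
    hf.preimage_isClosed_of_isClosed isClosed_Icc isClosed_Ici
  have hcomp : IsCompact (Icc a b ∩ f ⁻¹' Ici c) :=
    isCompact_Icc.of_isClosed_subset hcl inter_subset_left
  obtain ⟨x, hx, hmin⟩ := hcomp.exists_isLeast hne
  have hfx : f x = c := by
    have h1 := intermediate_value_Icc hx.1.1 (hf.mono (Icc_subset_Icc_right hx.1.2))
    obtain ⟨z, hz, hzc⟩ := h1 ⟨ha, hx.2⟩
    have h2 : x ≤ z := hmin ⟨⟨hz.1, hz.2.trans hx.1.2⟩, hzc.ge⟩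
    have h3 : z = x := le_antisymm hz.2 h2
    rw [← h3]
    exact hzc
  refine ⟨x, hx.1, hfx, fun y hy => ?_⟩
  by_contra hcon
  have h4 : x ≤ y := hmin ⟨⟨hy.1, hy.2.trans hx.1.2⟩, (not_le.1 hcon).le⟩
  have h5 : y = x := le_antisymm hy.2 h4
  rw [h5, hfx] at hcon
  exact hcon le_rfl

theorem exp_small {x : ℝ} (hx : x ≤ 1 / 500) : Real.exp x ≤ 5 / 4 := by
  have h1 : Real.exp x ≤ Real.exp (1 / 500) := Real.exp_le_exp.2 hx
  have h2 : -(1 / 500 : ℝ) + 1 ≤ Real.exp (-(1 / 500)) := Real.add_one_le_exp _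
  have h3 : Real.exp (1 / 500) * Real.exp (-(1 / 500)) = 1 := by
    rw [← Real.exp_add]; simp
  have h4 : 0 < Real.exp (1 / 500) := Real.exp_pos _
  nlinarith

/-- The window lemma. -/
theorem window (S S' W W' I A : ℝ → ℝ) (t1 X1 u : ℝ) (hX : 0 < X1) (hu : X1 * u = 1)
    (h0 : ∀ t ∈ Icc t1 (t1 + 4 * u), 0 ≤ S t ∧ 0 ≤ W t)
    (hI : ∀ t ∈ Icc t1 (t1 + 4 * u), HasDerivAt I (S t) t)
    (hS : ∀ t ∈ Icc t1 (t1 + 4 * u), HasDerivAt S (S' t) t)
    (hW : ∀ t ∈ Icc t1 (t1 + 4 * u), HasDerivAt W (W' t) t)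
    (hA : ∀ t ∈ Icc t1 (t1 + 4 * u), A t = X1 ^ 2 * Real.exp (I t - I t1))
    (h1 : ∀ t ∈ Icc t1 (t1 + 4 * u), S' t ≤ S t ^ 2 + A t)
    (h2 : ∀ t ∈ Icc t1 (t1 + 4 * u), S t < X1 → 3 / 10 * A t - 6 * W t * S t ≤ S' t)
    (h3 : ∀ t ∈ Icc t1 (t1 + 4 * u), W' t ≤ A t + 2 * S t ^ 2 + 3 * W t * S t - W t ^ 2) :
    1 / 500 ≤ I (t1 + 4 * u) - I t1 := by
  by_contra hcon
  push Not at hcon
  have hu0 : 0 < u := by
    by_contra h
    push Not at h
    nlinarith
  have sub : ∀ {a b : ℝ}, t1 ≤ a → b ≤ t1 + 4 * u → Icc a b ⊆ Icc t1 (t1 + 4 * u) :=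
    fun ha hb => Icc_subset_Icc ha hb
  -- monotonicity of `I`
  have mono : ∀ s t, t1 ≤ s → s ≤ t → t ≤ t1 + 4 * u → I s ≤ I t := by
    intro s t hs hst ht
    have := lower hst (fun r hr => hI r (sub hs ht hr)) (C := 0)
      (fun r hr => (h0 r (sub hs ht hr)).1)
    linarith
  have hA1 : ∀ t ∈ Icc t1 (t1 + 4 * u), X1 ^ 2 ≤ A t ∧ A t ≤ 2 * X1 ^ 2 := by
    intro t ht
    have e1 := mono t1 t le_rfl ht.1 ht.2
    have e2 := mono t (t1 + 4 * u) ht.1 ht.2 le_rfl
    have e3 : 1 ≤ Real.exp (I t - I t1) := Real.one_le_exp (by linarith)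
    have e4 : Real.exp (I t - I t1) ≤ 5 / 4 := exp_small (by linarith)
    rw [hA t ht]
    have e5 : 0 < X1 ^ 2 := by positivity
    constructor <;> nlinarith
  -- (A)
  obtain ⟨ta, hta, hSa⟩ : ∃ ta ∈ Icc t1 (t1 + u), S ta ≤ X1 / 500 := by
    by_contra hno
    push Not at hno
    have := lower (f := I) (f' := S) (C := X1 / 500) (a := t1) (b := t1 + u) (by linarith)
      (fun r hr => hI r (sub le_rfl (by linarith) hr)) (fun r hr => (hno r hr).le)
    have e1 := mono (t1 + u) (t1 + 4 * u) (by linarith) (by linarith) le_rfl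
    have e2 : X1 / 500 * (t1 + u - t1) = 1 / 500 := by
      rw [add_sub_cancel_left, div_mul_eq_mul_div, hu]
    linarith
  have hta1 : t1 ≤ ta := hta.1
  have hta2 : ta ≤ t1 + u := hta.2
  -- (B)
  have hB : ∀ t ∈ Icc ta (t1 + 4 * u), S t ≤ 2 * X1 := by
    intro tb htb
    by_contra hno
    push Not at hno
    have hc : ∀ {a b : ℝ}, t1 ≤ a → b ≤ t1 + 4 * u → ContinuousOn S (Icc a b) := fun ha hb r hr =>
      (hS r (sub ha hb hr)).continuousAt.continuousWithinAt
    obtain ⟨tb', hb1, hb2, hb3⟩ := first_up (c := 2 * X1) htb.1 (hc hta1 htb.2)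
      (by linarith) hno.le
    have hb4 : tb' ≤ t1 + 4 * u := hb1.2.trans htb.2
    obtain ⟨tc, hc1, hc2, hc3⟩ := last_up (c := X1) hb1.1 (hc hta1 hb4)
      (by linarith) (by rw [hb2]; linarith)
    have hc4 : t1 ≤ tc := hta1.trans hc1.1
    have e1 := upper (f := S) (f' := S') (C := 6 * X1 ^ 2) hc1.2
      (fun r hr => hS r (sub hc4 hb4 hr)) (fun r hr => by
        have a1 := h1 r (sub hc4 hb4 hr)
        have a2 := (hA1 r (sub hc4 hb4 hr)).2
        have a3 := hb3 r ⟨hc1.1.trans hr.1, hr.2⟩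
        have a4 := (h0 r (sub hc4 hb4 hr)).1
        nlinarith)
    have e2 := lower (f := I) (f' := S) (C := X1) hc1.2
      (fun r hr => hI r (sub hc4 hb4 hr)) (fun r hr => by
        rcases eq_or_lt_of_le hr.1 with h | h
        · rw [← h, hc2]
        · exact (hc3 r ⟨h, hr.2⟩).le)
    have e3 := mono t1 tc le_rfl hc4 (hc1.2.trans hb4)
    have e4 := mono tb' (t1 + 4 * u) (hc4.trans hc1.2) hb4 le_rfl
    rw [hb2, hc2] at e1
    have e5 : X1 * 1 ≤ X1 * (6 * (X1 * (tb' - tc))) := by nlinarith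
    have e6 := le_of_mul_le_mul_left e5 hX
    linarith
  -- (C)
  have hC : ∀ t ∈ Icc (ta + u) (t1 + 4 * u), W t ≤ 10 * X1 := by
    intro t ht
    by_contra hno
    push Not at hno
    have hc : ∀ {a b : ℝ}, t1 ≤ a → b ≤ t1 + 4 * u → ContinuousOn W (Icc a b) := fun ha hb r hr =>
      (hW r (sub ha hb hr)).continuousAt.continuousWithinAt
    have hder : ∀ r ∈ Icc ta (t1 + 4 * u), 10 * X1 ≤ W r → W' r ≤ -(1 / 4) * W r ^ 2 := by
      intro r hr hWr
      have hr' := sub hta1 le_rfl hr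
      have a1 := h3 r hr'
      have a2 := (hA1 r hr').2
      have a3 := hB r hr
      have a4 := (h0 r hr').1
      have a5 : S r ^ 2 ≤ 4 * X1 ^ 2 := by nlinarith
      have a6 : W r * S r ≤ W r * (2 * X1) := mul_le_mul_of_nonneg_left a3 (h0 r hr').2
      have a7 : X1 * W r ≤ W r ^ 2 / 10 := by nlinarith
      have a8 : X1 ^ 2 ≤ W r ^ 2 / 100 := by nlinarith
      nlinarith
    have hall : ∀ s ∈ Icc ta t, 10 * X1 < W s := by
      intro s hs
      by_contra hs'
      push Not at hs'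
      obtain ⟨s', hs1, hs2, hs3⟩ := last_up (c := 10 * X1) hs.2 (hc (hta1.trans hs.1) ht.2) hs' hno
      have e1 := upper (f := W) (f' := W') (C := 0) hs1.2
        (fun r hr => hW r (sub (hta1.trans (hs.1.trans hs1.1)) ht.2 hr)) (fun r hr => by
          have hr1 : 10 * X1 ≤ W r := by
            rcases eq_or_lt_of_le hr.1 with h | h
            · rw [← h, hs2]
            · exact (hs3 r ⟨h, hr.2⟩).le
          have := hder r ⟨hs.1.trans (hs1.1.trans hr.1), hr.2.trans ht.2⟩ hr1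
          nlinarith [sq_nonneg (W r)])
      rw [hs2] at e1
      linarith
    have hta_t : ta ≤ t := by linarith [ht.1]
    have e1 := lower (f := fun r => (W r)⁻¹) (f' := fun r => -W' r / W r ^ 2) (C := 1 / 4) hta_t
      (fun r hr => (hW r (sub hta1 ht.2 hr)).fun_inv (by
        have := hall r hr
        have : 0 < W r := by linarith
        exact this.ne')) (fun r hr => by
        have a1 := hall r hr
        have a2 : 0 < W r := by linarith
        have a3 := hder r ⟨hr.1, hr.2.trans ht.2⟩ a1.le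
        rw [le_div_iff₀ (by positivity)]
        linarith)
    have a1 := hall ta ⟨le_rfl, hta_t⟩
    have a2 : 0 < (W ta)⁻¹ := inv_pos.2 (by linarith)
    have a3 : 0 < W t := by linarith
    have a4 : u / 4 ≤ (W t)⁻¹ := by
      have : 1 / 4 * u ≤ 1 / 4 * (t - ta) := by linarith [ht.1]
      linarith
    have a5 : u / 4 * W t ≤ 1 := by
      calc u / 4 * W t ≤ (W t)⁻¹ * W t := mul_le_mul_of_nonneg_right a4 a3.le
        _ = 1 := inv_mul_cancel₀ a3.ne'
    nlinarith
  -- (D)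
  have hD : ∀ t ∈ Icc (t1 + 3 * u) (t1 + 4 * u), X1 / 300 ≤ S t := by
    intro t ht
    by_contra hno
    push Not at hno
    have hc : ∀ {a b : ℝ}, t1 ≤ a → b ≤ t1 + 4 * u → ContinuousOn S (Icc a b) := fun ha hb r hr =>
      (hS r (sub ha hb hr)).continuousAt.continuousWithinAt
    have hder : ∀ r ∈ Icc (ta + u) (t1 + 4 * u), S r ≤ X1 / 300 → X1 ^ 2 / 10 ≤ S' r := by
      intro r hr hSr
      have hr' := sub (by linarith) le_rfl hr
      have a1 := h2 r hr' (by linarith)
      have a2 := (hA1 r hr').1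
      have a3 := hC r hr
      have a4 := (h0 r hr').1
      have a5 : W r * S r ≤ 10 * X1 * (X1 / 300) :=
        mul_le_mul a3 hSr a4 (by positivity)
      nlinarith
    have hs0 : ta + u ≤ t - u := by linarith [ht.1]
    have hall : ∀ s ∈ Icc (ta + u) t, S s < X1 / 300 := by
      intro s hs
      by_contra hs'
      push Not at hs'
      obtain ⟨s', hs1, hs2, hs3⟩ := last_down (c := X1 / 300) hs.2
        (hc (by linarith [hs.1]) ht.2) hs' hno
      have e1 := lower (f := S) (f' := S') (C := 0) hs1.2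
        (fun r hr => hS r (sub (by linarith [hs.1, hs1.1]) ht.2 hr)) (fun r hr => by
          have hr1 : S r ≤ X1 / 300 := by
            rcases eq_or_lt_of_le hr.1 with h | h
            · rw [← h, hs2]
            · exact (hs3 r ⟨h, hr.2⟩).le
          have := hder r ⟨hs.1.trans (hs1.1.trans hr.1), hr.2.trans ht.2⟩ hr1
          nlinarith [sq_nonneg X1])
      rw [hs2] at e1
      linarith
    have e1 := lower (f := S) (f' := S') (C := X1 ^ 2 / 10) (a := ta + u) (b := t) (by linarith)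
      (fun r hr => hS r (sub (by linarith) ht.2 hr)) (fun r hr =>
        hder r ⟨hr.1, hr.2.trans ht.2⟩ (hall r hr).le)
    have e2 := (h0 (ta + u) ⟨by linarith, by linarith⟩).1
    have e3 : X1 ^ 2 / 10 * u ≤ X1 ^ 2 / 10 * (t - (ta + u)) :=
      mul_le_mul_of_nonneg_left (by linarith) (by positivity)
    have e4 : X1 ^ 2 / 10 * u = X1 / 10 := by
      rw [pow_two, mul_div_right_comm, mul_assoc, hu, mul_one]
    linarith
  have e1 := lower (f := I) (f' := S) (C := X1 / 300) (a := t1 + 3 * u) (b := t1 + 4 * u)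
    (by linarith) (fun r hr => hI r (sub (by linarith) le_rfl hr)) (fun r hr => hD r hr)
  have e2 := mono t1 (t1 + 3 * u) le_rfl (by linarith) (by linarith)
  have e3 : X1 / 300 * (t1 + 4 * u - (t1 + 3 * u)) = 1 / 300 := by
    have : t1 + 4 * u - (t1 + 3 * u) = u := by ring
    rw [this, div_mul_eq_mul_div, hu]
  linarith

theorem main : S_ODE := by
  rintro ⟨S, S', W, W', I, σ, Q, X₀, c₀, hX₀, hc₀, hI0, hσ0, hpos, hI, hσ, hS, hW, h1, h2, h3, h4,
    h5⟩
  set C2 : ℝ := Real.log (X₀ ^ 3 / c₀) with hC2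
  set C6 : ℝ := |C2| with hC6
  have hC60 : 0 ≤ C6 := abs_nonneg _
  have hC26 : C2 ≤ C6 := le_abs_self _
  have expC2 : c₀ * Real.exp C2 = X₀ ^ 3 := by
    rw [hC2, Real.exp_log (by positivity)]
    field_simp
  have monoI : ∀ s t, 0 ≤ s → s ≤ t → I s ≤ I t := by
    intro s t hs hst
    have := lower hst (fun r hr => hI r (hs.trans hr.1)) (C := 0)
      (fun r hr => (hpos r (hs.trans hr.1)).1)
    linarith
  have monoσ : ∀ s t, 0 ≤ s → s ≤ t → σ s ≤ σ t := by
    intro s t hs hst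
    have := lower hst (fun r hr => hσ r (hs.trans hr.1)) (C := 0)
      (fun r hr => by positivity)
    linarith
  -- (2)
  have hQ : ∀ t, 0 ≤ t → C2 ≤ σ t - 13 / 2 * I t → S t < X₀ * Real.exp (I t / 2) → Q t := by
    intro t ht hC hSt
    by_contra hnQ
    have e1 := h4 t ht hnQ
    have e2 : Real.exp (C2 + 3 / 2 * I t) ≤ Real.exp (σ t - 5 * I t) :=
      Real.exp_le_exp.2 (by linarith)
    have e3 : c₀ * Real.exp (C2 + 3 / 2 * I t) =
        X₀ * Real.exp (I t / 2) * (X₀ ^ 2 * Real.exp (I t)) := by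
      rw [Real.exp_add, ← mul_assoc, expC2]
      have : 3 / 2 * I t = I t / 2 + I t := by ring
      rw [this, Real.exp_add]
      ring
    have e4 : c₀ * Real.exp (C2 + 3 / 2 * I t) ≤ c₀ * Real.exp (σ t - 5 * I t) :=
      mul_le_mul_of_nonneg_left e2 hc₀.le
    have e5 : X₀ * Real.exp (I t / 2) * (X₀ ^ 2 * Real.exp (I t)) ≤
        S t * (X₀ ^ 2 * Real.exp (I t)) := by
      rw [← e3]; exact e4.trans e1
    have e6 := le_of_mul_le_mul_right e5 (by positivity)
    linarith
  -- (3)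
  have key : ∀ t, 0 ≤ t → -(C6 + 1 / 500) ≤ I t - σ t / 2500 := by
    intro ts hts
    by_contra hno
    push Not at hno
    have hcf : ContinuousOn (fun t => I t - σ t / 2500) (Icc 0 ts) := fun r hr =>
      ((hI r hr.1).continuousAt.sub ((hσ r hr.1).continuousAt.div_const _)).continuousWithinAt
    obtain ⟨t1, ht1, hft1, hlt⟩ := last_down (c := -C6) hts hcf
      (by simp only [hI0, hσ0]; linarith) (by linarith)
    have ht10 : 0 ≤ t1 := ht1.1
    have ht1s : t1 ≤ ts := ht1.2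
    have hle : ∀ t ∈ Icc t1 ts, I t - σ t / 2500 ≤ -C6 := by
      intro t ht
      rcases eq_or_lt_of_le ht.1 with h | h
      · rw [← h, hft1]
      · exact (hlt t ⟨h, ht.2⟩).le
    set X1 : ℝ := X₀ * Real.exp (I t1 / 2) with hX1
    have hX1p : 0 < X1 := by positivity
    have hu : X1 * X1⁻¹ = 1 := mul_inv_cancel₀ hX1p.ne'
    set u : ℝ := X1⁻¹ with hudef
    have hu0 : 0 < u := inv_pos.2 hX1p
    have hXle : ∀ t, t1 ≤ t → X1 ≤ X₀ * Real.exp (I t / 2) := by
      intro t ht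
      have := monoI t1 t ht10 ht
      exact mul_le_mul_of_nonneg_left (Real.exp_le_exp.2 (by linarith)) hX₀.le
    -- (E)
    have hE : ∀ s, t1 ≤ s → s ≤ t1 + 4 * u → I s - I t1 ≤ 1 / 500 → σ s - σ t1 ≤ 5 := by
      intro s hs1 hs2 hs3
      have e1 := upper (f := σ) (f' := fun t => X₀ * Real.exp (I t / 2)) (C := 5 / 4 * X1) hs1
        (fun r hr => hσ r (ht10.trans hr.1)) (fun r hr => by
          have a1 := monoI r s (ht10.trans hr.1) hr.2
          have a2 : Real.exp ((I r - I t1) / 2) ≤ 5 / 4 := exp_small (by linarith)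
          have a3 : X₀ * Real.exp (I r / 2) = Real.exp ((I r - I t1) / 2) * X1 := by
            rw [hX1, mul_left_comm, ← Real.exp_add]
            congr 2
            ring
          rw [a3]
          exact mul_le_mul_of_nonneg_right a2 hX1p.le)
      have e2 : 5 / 4 * X1 * (s - t1) ≤ 5 / 4 * X1 * (4 * u) :=
        mul_le_mul_of_nonneg_left (by linarith) (by positivity)
      have e3 : 5 / 4 * X1 * (4 * u) = 5 := by
        have : 5 / 4 * X1 * (4 * u) = 5 * (X1 * u) := by ring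
        rw [this, hu]
        norm_num
      linarith
    by_cases hc1 : 1 / 500 ≤ I (min (t1 + 4 * u) ts) - I t1
    · have hm : t1 ≤ min (t1 + 4 * u) ts := le_min (by linarith) ht1s
      have hcI : ContinuousOn I (Icc t1 (min (t1 + 4 * u) ts)) := fun r hr =>
        (hI r (ht10.trans hr.1)).continuousAt.continuousWithinAt
      obtain ⟨t2, ht2, hIt2⟩ := intermediate_value_Icc hm hcI
        (⟨by linarith, by linarith⟩ : I t1 + 1 / 500 ∈ Icc (I t1) (I (min (t1 + 4 * u) ts)))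
      have hne : t1 ≠ t2 := by
        intro h
        rw [← h] at hIt2
        linarith
      have hlt2 : t1 < t2 := lt_of_le_of_ne ht2.1 hne
      have e1 := hlt t2 ⟨hlt2, ht2.2.trans (min_le_right _ _)⟩
      have e2 := hE t2 ht2.1 (ht2.2.trans (min_le_left _ _)) (by linarith)
      linarith
    · push Not at hc1
      rcases le_total ts (t1 + 4 * u) with h | h
      · rw [min_eq_right h] at hc1
        have e2 := hE ts ht1s h hc1.le
        have e3 := monoI t1 ts ht10 ht1s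
        linarith
      · rw [min_eq_left h] at hc1
        have := window S S' W W' I (fun t => X₀ ^ 2 * Real.exp (I t)) t1 X1 u hX1p hu
          (fun t ht => hpos t (ht10.trans ht.1)) (fun t ht => hI t (ht10.trans ht.1))
          (fun t ht => hS t (ht10.trans ht.1)) (fun t ht => hW t (ht10.trans ht.1))
          (fun t ht => by
            have a1 : X1 ^ 2 = X₀ ^ 2 * Real.exp (I t1) := by
              rw [hX1, mul_pow, ← Real.exp_nat_mul]
              congr 2
              push_cast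
              ring
            rw [a1, mul_assoc, ← Real.exp_add]
            congr 2
            ring)
          (fun t ht => h1 t (ht10.trans ht.1))
          (fun t ht hSt => by
            refine h3 t (ht10.trans ht.1) (hQ t (ht10.trans ht.1) ?_ (hSt.trans_le (hXle t ht.1)))
            have a1 := hle t ⟨ht.1, ht.2.trans h⟩
            have a2 := monoσ 0 t le_rfl (ht10.trans ht.1)
            rw [hσ0] at a2
            linarith)
          (fun t ht => h5 t (ht10.trans ht.1))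
        linarith
  -- (4)
  set k : ℝ := X₀ * Real.exp (-(C6 + 1 / 500) / 2) with hk
  have hkp : 0 < k := by positivity
  have hT : 0 ≤ 10000 / k := by positivity
  have e1 := upper (f := fun t => Real.exp (-σ t / 5000))
    (f' := fun t => Real.exp (-σ t / 5000) * (-(X₀ * Real.exp (I t / 2)) / 5000))
    (C := -k / 5000) hT (fun t ht => ((hσ t ht.1).fun_neg.div_const 5000).exp) (fun t ht => by
      have a1 := key t ht.1
      have a2 : Real.exp (-(C6 + 1 / 500) / 2) ≤ Real.exp (I t / 2 + -σ t / 5000) :=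
        Real.exp_le_exp.2 (by linarith)
      have a3 : k ≤ X₀ * Real.exp (I t / 2 + -σ t / 5000) :=
        mul_le_mul_of_nonneg_left a2 hX₀.le
      rw [Real.exp_add] at a3
      have a4 : Real.exp (-σ t / 5000) * (-(X₀ * Real.exp (I t / 2)) / 5000) =
        -(X₀ * (Real.exp (I t / 2) * Real.exp (-σ t / 5000))) / 5000 := by ring
      rw [a4]
      linarith)
  simp only [hσ0] at e1
  have e2 : 0 < Real.exp (-σ (10000 / k) / 5000) := Real.exp_pos _
  have e3 : Real.exp (-0 / 5000) = 1 := by simp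
  have e4 : -k / 5000 * (10000 / k - 0) = -2 := by
    field_simp
    norm_num
  rw [e3, e4] at e1
  linarith

end Pool.Agent.N982.BQ.Ode
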