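import Pool.Agent.N982.BQ.Stm

/-!
Project BQ, part POS (helper391): positivity for a linear system with nonnegative coupling.
-/

set_option autoImplicit false

open Set MeasureTheory
open scoped ContDiff

namespace Pool.Agent.N982.BQ.Pos

noncomputable section

/-- a slice of a continuous function -/
lemma slice {T : ℝ} {f : ℝ → ℝ → ℝ}
    (hf : ContinuousOn (fun p : ℝ × ℝ => f p.1 p.2) (Icc 0 a ×ˢ Icc 0 T)) {t : ℝ}
    (ht : t ∈ Icc 0 T) : ContinuousOn (fun x => f x t) (Icc 0 a) := by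
  have h : ContinuousOn (fun x : ℝ => ((x, t) : ℝ × ℝ)) (Icc 0 a) := by fun_prop
  exact hf.comp h fun x hx => ⟨hx, ht⟩

lemma slice' {T : ℝ} {f : ℝ → ℝ → ℝ}
    (hf : ContinuousOn (fun p : ℝ × ℝ => f p.1 p.2) (Icc 0 a ×ˢ Icc 0 T)) {x : ℝ}
    (hx : x ∈ Icc 0 a) : ContinuousOn (f x) (Icc 0 T) := by
  have h : ContinuousOn (fun t : ℝ => ((x, t) : ℝ × ℝ)) (Icc 0 T) := by fun_prop
  exact hf.comp h fun t ht => ⟨hx, ht⟩

lemma bound {T : ℝ} {f : ℝ → ℝ → ℝ}
    (hf : ContinuousOn (fun p : ℝ × ℝ => f p.1 p.2) (Icc 0 a ×ˢ Icc 0 T)) :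
    ∃ M, ∀ x ∈ Icc 0 a, ∀ t ∈ Icc 0 T, |f x t| ≤ M := by
  obtain ⟨M, hM⟩ := (isCompact_Icc.prod isCompact_Icc).exists_bound_of_continuousOn hf
  exact ⟨M, fun x hx t ht => hM (x, t) ⟨hx, ht⟩⟩

/-- a function with nonnegative derivative in the interior -/
lemma mono {T s : ℝ} {f f' : ℝ → ℝ} (hf : ContinuousOn f (Icc 0 T)) (hs : s ∈ Icc 0 T)
    (hd : ∀ t ∈ Icc 0 T, HasDerivWithinAt f (f' t) (Icc 0 T) t)
    (h0 : ∀ t ∈ Ioo 0 s, 0 ≤ f' t) : f 0 ≤ f s := by
  have h1 : MonotoneOn f (Icc 0 s) := by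
    refine monotoneOn_of_hasDerivWithinAt_nonneg (convex_Icc 0 s) (f' := f')
      (hf.mono (Icc_subset_Icc_right hs.2)) ?_ ?_
    · intro t ht
      rw [interior_Icc] at ht ⊢
      exact (hd t ⟨ht.1.le, ht.2.le.trans hs.2⟩).mono
        (Ioo_subset_Icc_self.trans (Icc_subset_Icc_right hs.2))
    · intro t ht
      rw [interior_Icc] at ht
      exact h0 t ht
  exact h1 ⟨le_rfl, hs.1⟩ ⟨hs.1, le_rfl⟩ hs.1

theorem main : S_POS := by
  intro T z e A B C D hT hz he hA hB hC hD hpos hini hzt het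
  have ha := a_pos
  obtain ⟨MA, hMA⟩ := bound hA
  obtain ⟨MB, hMB⟩ := bound hB
  obtain ⟨MC, hMC⟩ := bound hC
  obtain ⟨MD, hMD⟩ := bound hD
  obtain ⟨M, hM⟩ : ∃ M : ℝ, M = max (max MA MB) (max MC MD) := ⟨_, rfl⟩
  have hxa : (0 : ℝ) ∈ Icc 0 a := ⟨le_rfl, ha.le⟩
  have htT : (0 : ℝ) ∈ Icc 0 T := ⟨le_rfl, hT.le⟩
  have bA : ∀ x ∈ Icc 0 a, ∀ t ∈ Icc 0 T, |A x t| ≤ M := fun x hx t ht =>
    (hMA x hx t ht).trans (by rw [hM]; exact (le_max_left _ _).trans (le_max_left _ _))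
  have bB : ∀ x ∈ Icc 0 a, ∀ t ∈ Icc 0 T, B x t ≤ M := fun x hx t ht =>
    (le_abs_self _).trans ((hMB x hx t ht).trans (by
      rw [hM]; exact (le_max_right _ _).trans (le_max_left _ _)))
  have bC : ∀ x ∈ Icc 0 a, ∀ t ∈ Icc 0 T, C x t ≤ M := fun x hx t ht =>
    (le_abs_self _).trans ((hMC x hx t ht).trans (by
      rw [hM]; exact (le_max_left _ _).trans (le_max_right _ _)))
  have bD : ∀ x ∈ Icc 0 a, ∀ t ∈ Icc 0 T, D x t ≤ M := fun x hx t ht =>
    (le_abs_self _).trans ((hMD x hx t ht).trans (by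
      rw [hM]; exact (le_max_right _ _).trans (le_max_right _ _)))
  have hM0 : 0 ≤ M := (abs_nonneg _).trans (bA 0 hxa 0 htT)
  obtain ⟨κ, hκ⟩ : ∃ κ : ℝ, κ = 1 + 2 * M + a * M * M := ⟨_, rfl⟩
  have hκ1 : 1 ≤ κ := by rw [hκ]; nlinarith [mul_nonneg (mul_nonneg ha.le hM0) hM0]
  suffices key : ∀ ε : ℝ, 0 < ε → ∀ x ∈ Icc 0 a, ∀ t ∈ Icc 0 T,
      0 < z x t + ε * Real.exp (κ * t) ∧ 0 < e x t + ε * Real.exp (κ * t) by
    intro x hx t ht
    have hE := Real.exp_pos (κ * t)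
    constructor
    · by_contra hcon
      push Not at hcon
      have h1 := (key (-z x t / Real.exp (κ * t)) (div_pos (by linarith) hE) x hx t ht).1
      rw [div_mul_cancel₀ _ hE.ne'] at h1
      linarith
    · by_contra hcon
      push Not at hcon
      have h1 := (key (-e x t / Real.exp (κ * t)) (div_pos (by linarith) hE) x hx t ht).2
      rw [div_mul_cancel₀ _ hE.ne'] at h1
      linarith
  intro ε hε
  obtain ⟨G, hG⟩ : ∃ G : ℝ → ℝ, G = fun t => ε * Real.exp (κ * t) := ⟨_, rfl⟩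
  have hGe : ∀ t, ε * Real.exp (κ * t) = G t := fun t => by rw [hG]
  have hGp : ∀ t, 0 < G t := fun t => by rw [hG]; positivity
  have hGc : Continuous G := by rw [hG]; fun_prop
  have hGd : ∀ t, HasDerivAt G (κ * G t) t := by
    intro t
    rw [hG]
    have h1 : HasDerivAt (fun t : ℝ => κ * t) κ t := by
      simpa using (hasDerivAt_id t).const_mul κ
    have h2 := (h1.exp).const_mul ε
    have e1 : ε * (Real.exp (κ * t) * κ) = κ * (ε * Real.exp (κ * t)) := by ring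
    rw [e1] at h2
    exact h2
  simp only [hGe]
  -- the bad points
  by_contra hcon
  push Not at hcon
  obtain ⟨x₀, hx₀, t₀, ht₀, hb₀⟩ := hcon
  have hm : ContinuousOn (fun p : ℝ × ℝ => min (z p.1 p.2 + G p.2) (e p.1 p.2 + G p.2))
      (Icc 0 a ×ˢ Icc 0 T) := by
    have hG2 : ContinuousOn (fun p : ℝ × ℝ => G p.2) (Icc 0 a ×ˢ Icc 0 T) :=
      (hGc.comp continuous_snd).continuousOn
    exact ContinuousOn.inf (hz.add hG2) (he.add hG2)
  have hcomp : IsCompact (Icc (0 : ℝ) a ×ˢ Icc (0 : ℝ) T) := isCompact_Icc.prod isCompact_Icc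
  have hSc : IsCompact ((Icc (0 : ℝ) a ×ˢ Icc (0 : ℝ) T) ∩
      (fun p : ℝ × ℝ => min (z p.1 p.2 + G p.2) (e p.1 p.2 + G p.2)) ⁻¹' Iic 0) :=
    hcomp.of_isClosed_subset (hm.preimage_isClosed_of_isClosed hcomp.isClosed isClosed_Iic)
      inter_subset_left
  have hbad : ∀ x t, min (z x t + G t) (e x t + G t) ≤ 0 ↔
      (0 < z x t + G t → e x t + G t ≤ 0) := by
    intro x t
    rw [min_le_iff]
    constructor
    · rintro (h | h)
      · intro h'
        linarith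
      · exact fun _ => h
    · intro h
      by_cases h' : 0 < z x t + G t
      · exact Or.inr (h h')
      · exact Or.inl (not_lt.1 h')
  obtain ⟨⟨x₁, t₁⟩, ⟨⟨hx₁, ht₁⟩, hb₁⟩, hmin⟩ := hSc.exists_isMinOn
    ⟨(x₀, t₀), ⟨hx₀, ht₀⟩, (hbad x₀ t₀).2 hb₀⟩ (continuous_snd (X := ℝ) (Y := ℝ)).continuousOn
  simp only at hx₁ ht₁
  have hb₁' : min (z x₁ t₁ + G t₁) (e x₁ t₁ + G t₁) ≤ 0 := hb₁
  -- before `t₁` everything is positive
  have hgood : ∀ t ∈ Ioo 0 t₁, ∀ x ∈ Icc 0 a, 0 < z x t + G t ∧ 0 < e x t + G t := by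
    intro t ht x hx
    by_contra hc
    have h2 : min (z x t + G t) (e x t + G t) ≤ 0 := by
      rw [hbad]
      intro h3
      by_contra h4
      exact hc ⟨h3, not_le.1 h4⟩
    have htT' : t ∈ Icc 0 T := ⟨ht.1.le, ht.2.le.trans ht₁.2⟩
    have h5 := hmin (show (x, t) ∈ (Icc (0 : ℝ) a ×ˢ Icc (0 : ℝ) T) ∩
      (fun p : ℝ × ℝ => min (z p.1 p.2 + G p.2) (e p.1 p.2 + G p.2)) ⁻¹' Iic 0 from
        ⟨⟨hx, htT'⟩, h2⟩)
    have h6 : t₁ ≤ t := h5
    linarith [ht.2]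
  -- `z`
  have h1 : z x₁ 0 + G 0 ≤ z x₁ t₁ + G t₁ := by
    refine mono (f := fun t => z x₁ t + G t) (f' := fun t => e x₁ t + κ * G t)
      ((slice' hz hx₁).add hGc.continuousOn) ht₁ ?_ ?_
    · intro t ht
      exact (hzt x₁ hx₁ t ht).fun_add (hGd t).hasDerivWithinAt
    · intro t ht
      have h2 := (hgood t ht x₁ hx₁).2
      have h3 := hGp t
      nlinarith
  -- `e`
  have h2 : Real.exp (M * 0) * (e x₁ 0 + G 0) ≤ Real.exp (M * t₁) * (e x₁ t₁ + G t₁) := by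
    refine mono (f := fun t => Real.exp (M * t) * (e x₁ t + G t))
      (f' := fun t => Real.exp (M * t) * M * (e x₁ t + G t) + Real.exp (M * t) *
        ((-(A x₁ t * e x₁ t) + B x₁ t * z x₁ t + C x₁ t * ∫ y in (0 : ℝ)..x₁, z y t * D y t) +
          κ * G t)) ?_ ht₁ ?_ ?_
    · refine ContinuousOn.mul (by fun_prop) ((slice' he hx₁).add hGc.continuousOn)
    · intro t ht
      have h3 : HasDerivAt (fun t : ℝ => Real.exp (M * t)) (Real.exp (M * t) * M) t := by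
        have h4 : HasDerivAt (fun t : ℝ => M * t) M t := by
          simpa using (hasDerivAt_id t).const_mul M
        exact h4.exp
      exact h3.hasDerivWithinAt.fun_mul ((het x₁ hx₁ t ht).fun_add (hGd t).hasDerivWithinAt)
    · intro t ht
      have htT' : t ∈ Icc 0 T := ⟨ht.1.le, ht.2.le.trans ht₁.2⟩
      obtain ⟨g1, g2⟩ := hgood t ht x₁ hx₁
      have hGt := hGp t
      -- the integrals
      have hsub : uIcc 0 x₁ ⊆ Icc 0 a := by
        rw [uIcc_of_le hx₁.1]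
        exact Icc_subset_Icc_right hx₁.2
      have i1 : IntervalIntegrable (fun y => z y t * D y t) volume 0 x₁ :=
        (((slice hz htT').mul (slice hD htT')).mono hsub).intervalIntegrable
      have i2 : IntervalIntegrable (fun y => D y t) volume 0 x₁ :=
        ((slice hD htT').mono hsub).intervalIntegrable
      have j1 : 0 ≤ ∫ y in (0 : ℝ)..x₁, (z y t + G t) * D y t := by
        refine intervalIntegral.integral_nonneg hx₁.1 fun y hy => ?_
        have hy' : y ∈ Icc 0 a := ⟨hy.1, hy.2.trans hx₁.2⟩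
        exact mul_nonneg (hgood t ht y hy').1.le (hpos y hy' t htT').2.2
      have j2 : ∫ y in (0 : ℝ)..x₁, (z y t + G t) * D y t =
          (∫ y in (0 : ℝ)..x₁, z y t * D y t) + G t * ∫ y in (0 : ℝ)..x₁, D y t := by
        rw [← intervalIntegral.integral_const_mul, ← intervalIntegral.integral_add i1
          (i2.const_mul _)]
        congr 1
        ext y
        ring
      have j3 : ∫ y in (0 : ℝ)..x₁, D y t ≤ a * M := by
        have h5 := intervalIntegral.integral_mono_on hx₁.1 i2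
          (intervalIntegrable_const (c := M) (μ := volume) (a := 0) (b := x₁))
          (fun y hy => bD y ⟨hy.1, hy.2.trans hx₁.2⟩ t htT')
        rw [intervalIntegral.integral_const, sub_zero, smul_eq_mul] at h5
        exact h5.trans (by gcongr; exact hx₁.2)
      have p1 := hpos x₁ hx₁ t htT'
      have q1 := abs_le.1 (bA x₁ hx₁ t htT')
      have q2 := bB x₁ hx₁ t htT'
      have q3 := bC x₁ hx₁ t htT'
      have r1 : C x₁ t * ∫ y in (0 : ℝ)..x₁, D y t ≤ M * (a * M) := by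
        have h6 : 0 ≤ ∫ y in (0 : ℝ)..x₁, D y t :=
          intervalIntegral.integral_nonneg hx₁.1 fun y hy =>
            (hpos y ⟨hy.1, hy.2.trans hx₁.2⟩ t htT').2.2
        calc C x₁ t * ∫ y in (0 : ℝ)..x₁, D y t ≤ M * ∫ y in (0 : ℝ)..x₁, D y t := by gcongr
          _ ≤ M * (a * M) := by gcongr
      set I₁ := ∫ y in (0 : ℝ)..x₁, z y t * D y t
      set I₂ := ∫ y in (0 : ℝ)..x₁, D y t
      rw [j2] at j1
      have e1 : Real.exp (M * t) * M * (e x₁ t + G t) + Real.exp (M * t) *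
          ((-(A x₁ t * e x₁ t) + B x₁ t * z x₁ t + C x₁ t * I₁) + κ * G t) =
          Real.exp (M * t) * ((M - A x₁ t) * (e x₁ t + G t) + B x₁ t * (z x₁ t + G t) +
            C x₁ t * (I₁ + G t * I₂) + (κ + A x₁ t - B x₁ t - C x₁ t * I₂) * G t) := by
        ring
      rw [e1]
      have s1 : 0 ≤ (M - A x₁ t) * (e x₁ t + G t) := mul_nonneg (by linarith) g2.le
      have s2 : 0 ≤ B x₁ t * (z x₁ t + G t) := mul_nonneg p1.1 g1.le
      have s3 : 0 ≤ C x₁ t * (I₁ + G t * I₂) := mul_nonneg p1.2.1 j1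
      have s4 : 0 ≤ (κ + A x₁ t - B x₁ t - C x₁ t * I₂) * G t :=
        mul_nonneg (by rw [hκ]; nlinarith) hGt.le
      have hE := Real.exp_pos (M * t)
      positivity
  obtain ⟨k1, k2⟩ := hini x₁ hx₁
  have hG0 := hGp 0
  rcases min_le_iff.1 hb₁' with h | h
  · linarith
  · rw [mul_zero, Real.exp_zero, one_mul] at h2
    have hE := Real.exp_pos (M * t₁)
    nlinarith

end

end Pool.Agent.N982.BQ.Pos
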