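import Pool.Agent.N982.BQ.Ident

/-!
# Regularity in the label (helper99, task BQ/REG)
-/

set_option autoImplicit false

open Set MeasureTheory
open scoped ContDiff

namespace Pool.Agent.N982.BQ.Reg

open Pool.Agent.N982.BQ.Ident

noncomputable section

/-! ### composition with sine and cosine -/

theorem taylor {g g' : C(ℝ, ℝ)} (hg : ∀ u, HasDerivAt g (g' u) u)
    (hg' : ∀ u v, |g' u - g' v| ≤ |u - v|) (y h : ℝ) :
    |g (y + h) - g y - g' y * h| ≤ |h| * |h| := by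
  have hd : ∀ x : ℝ, HasDerivAt (fun x => g (y + x) - g' y * x) (g' (y + x) - g' y) x := by
    intro x
    have h1 : HasDerivAt (fun x => g (y + x)) (g' (y + x)) x := by
      have h2 := (hg (y + x)).comp x ((hasDerivAt_id x).const_add y)
      rw [mul_one] at h2
      exact h2
    have h3 : HasDerivAt (fun x => g' y * x) (g' y) x := by
      have h4 := (hasDerivAt_id x).const_mul (g' y)
      rw [mul_one] at h4
      exact h4
    exact h1.sub h3
  have h5 := Convex.norm_image_sub_le_of_norm_deriv_le (f := fun x => g (y + x) - g' y * x)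
    (C := |h|) (s := uIcc 0 h) (x := 0) (y := h) (fun x _ => (hd x).differentiableAt)
    (fun x hx => by
      rw [(hd x).deriv]
      have h6 := hg' (y + x) y
      have h7 : |x| ≤ |h| := by
        rcases le_total 0 h with h0 | h0
        · rw [uIcc_of_le h0] at hx
          rw [abs_of_nonneg hx.1, abs_of_nonneg h0]; exact hx.2
        · rw [uIcc_of_ge h0] at hx
          rw [abs_of_nonpos hx.2, abs_of_nonpos h0]; linarith [hx.1]
      rw [add_sub_cancel_left] at h6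
      exact h6.trans h7) (convex_uIcc 0 h) left_mem_uIcc right_mem_uIcc
  simp only [add_zero, mul_zero, sub_zero, Real.norm_eq_abs] at h5
  have e : g (y + h) - g y - g' y * h = g (y + h) - g' y * h - g y := by ring
  rw [e]
  exact h5

theorem comp_deriv {g g' : C(ℝ, ℝ)} (hg : ∀ u, HasDerivAt g (g' u) u)
    (hg' : ∀ u v, |g' u - g' v| ≤ |u - v|) {f : ℝ → V} {f' : V} {t : ℝ}
    (hf : HasDerivAt f f' t) :
    HasDerivAt (fun s => (g.comp (f s) : V)) ((g'.comp (f t) : V) * f') t := by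
  have hF : HasFDerivAt (fun u : V => (g.comp u : V))
      (ContinuousLinearMap.mul ℝ V (g'.comp (f t) : V)) (f t) := by
    rw [hasFDerivAt_iff_isLittleO_nhds_zero]
    have h1 : (fun h : V => (g.comp (f t + h) : V) - g.comp (f t) -
        ContinuousLinearMap.mul ℝ V (g'.comp (f t) : V) h) =O[nhds 0] fun h : V => ‖h‖ ^ 2 := by
      refine Asymptotics.IsBigO.of_bound 1 (Filter.Eventually.of_forall fun h => ?_)
      rw [one_mul, norm_pow, norm_norm]
      refine (ContinuousMap.norm_le _ (by positivity)).2 fun x => ?_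
      have h2 := taylor hg hg' (f t x) (h x)
      have h3 : |h x| ≤ ‖h‖ := h.norm_coe_le_norm x
      have h4 : |h x| * |h x| ≤ ‖h‖ ^ 2 := by
        rw [sq]
        exact mul_le_mul h3 h3 (abs_nonneg _) (norm_nonneg _)
      exact h2.trans h4
    refine h1.trans_isLittleO ?_
    have h5 : (fun h : V => ‖h‖ ^ 2) =o[nhds 0] fun h : V => ‖h‖ ^ 1 :=
      Asymptotics.isLittleO_norm_pow_norm_pow (by norm_num)
    simp only [pow_one] at h5
    exact h5.of_norm_right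
  have h6 := hF.comp_hasDerivAt t hf
  exact h6

/-! ### closure properties -/

section alg
variable {J : Set ℝ} (hA : S_ALG) (hJ : UniqueDiffOn ℝ J)

theorem dx_zero (n : ℕ) : Dx J n (fun _ => (0 : V)) := by
  induction n with
  | zero => exact contDiffOn_const
  | succ n ih =>
    refine ⟨contDiffOn_const, fun _ => 0, ih, fun t _ => ?_⟩
    have h1 : ((0 : V)) k0 = 0 := rfl
    rw [map_zero, h1, map_zero, add_zero]

theorem dx_alg (n : ℕ) {c : ℝ → ℝ} (hc : ContDiffOn ℝ ∞ c J) :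
    Dx J n (fun t => algebraMap ℝ V (c t)) := by
  have h : ContDiffOn ℝ ∞ (fun t => algebraMap ℝ V (c t)) J :=
    (algebraMapCLM ℝ V).contDiff.comp_contDiffOn hc
  cases n with
  | zero => exact h
  | succ n =>
    refine ⟨h, fun _ => 0, dx_zero n, fun t _ => ?_⟩
    have h1 : (algebraMap ℝ V (c t)) k0 = c t := rfl
    rw [map_zero, h1, add_zero]

theorem dx_smooth {n : ℕ} {u : ℝ → V} (h : Dx J n u) : ContDiffOn ℝ ∞ u J := by
  cases n with
  | zero => exact h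
  | succ n => exact h.1

include hA hJ

theorem dx_add {n : ℕ} {u v : ℝ → V} (hu : Dx J n u) (hv : Dx J n v) :
    Dx J n (fun t => u t + v t) := (hA J hJ n u v hu hv).1

theorem dx_mul {n : ℕ} {u v : ℝ → V} (hu : Dx J n u) (hv : Dx J n v) :
    Dx J n (fun t => u t * v t) := (hA J hJ n u v hu hv).2.1

theorem dx_P {n : ℕ} {u : ℝ → V} (hu : Dx J n u) : Dx J (n + 1) (fun t => P (u t)) :=
  (hA J hJ n u u hu hu).2.2.1

theorem dx_mono {n m : ℕ} (hm : m ≤ n) {u : ℝ → V} (hu : Dx J n u) : Dx J m u :=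
  (hA J hJ n u u hu hu).2.2.2 m hm

theorem dx_neg {n : ℕ} {u : ℝ → V} (hu : Dx J n u) : Dx J n (fun t => -(u t)) := by
  have h := dx_mul hA hJ (dx_alg n (c := fun _ => -1) contDiffOn_const) hu
  have e : (fun t => algebraMap ℝ V (-1) * u t) = fun t => -(u t) := by
    funext t
    rw [map_neg, map_one, neg_one_mul]
  rwa [e] at h

theorem dx_sub {n : ℕ} {u v : ℝ → V} (hu : Dx J n u) (hv : Dx J n v) :
    Dx J n (fun t => u t - v t) := by
  simp only [sub_eq_add_neg]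
  exact dx_add hA hJ hu (dx_neg hA hJ hv)

theorem dx_two {n : ℕ} {u : ℝ → V} (hu : Dx J n u) : Dx J n (fun t => 2 * u t) := by
  simp only [two_mul]
  exact dx_add hA hJ hu hu

theorem dx_four {n : ℕ} {u : ℝ → V} (hu : Dx J n u) : Dx J n (fun t => 4 * u t) := by
  have h := dx_two hA hJ (dx_two hA hJ hu)
  have e : (fun t => 2 * (2 * u t)) = fun t => 4 * u t := by
    funext t; ring
  rwa [e] at h

end alg

/-! ### smooth functions of the label -/

theorem pr_res {f : ℝ → ℝ} (hf : ContDiff ℝ ∞ f) (h1 : Continuous f) (h2 : Continuous (deriv f)) :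
    Pr (res f h1) (res (deriv f) h2) := by
  intro x hx
  have h3 : HasDerivAt f (deriv f x) x := ((hf.differentiable (by norm_num)) x).hasDerivAt
  have h4 : ext (res (deriv f) h2) x = deriv f x := by
    rw [ext_of_mem _ (Ioo_subset_Icc_self hx)]; rfl
  rw [h4]
  refine h3.congr_of_eventuallyEq ?_
  filter_upwards [Icc_mem_nhds hx.1 hx.2] with y hy
  rw [ext_of_mem _ hy]; rfl

theorem smooth_deriv {f : ℝ → ℝ} (hf : ContDiff ℝ ∞ f) : ContDiff ℝ ∞ (deriv f) := by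
  have h : ContDiff ℝ (∞ + 1) f := hf
  exact (contDiff_succ_iff_deriv.1 h).2.2

theorem smx_res (n : ℕ) : ∀ (f : ℝ → ℝ) (_ : ContDiff ℝ ∞ f) (h1 : Continuous f),
    SmX n (res f h1) := by
  induction n with
  | zero => intro f hf h1; trivial
  | succ n ih =>
    intro f hf h1
    have h2 := smooth_deriv hf
    exact ⟨res (deriv f) h2.continuous, ih _ h2 _, pr_eq (pr_res hf h1 h2.continuous)⟩

theorem dx_res (J : Set ℝ) (n : ℕ) : ∀ (f : ℝ → ℝ) (_ : ContDiff ℝ ∞ f) (h1 : Continuous f),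
    Dx J n (fun _ => res f h1) := by
  induction n with
  | zero => intro f hf h1; exact contDiffOn_const
  | succ n ih =>
    intro f hf h1
    have h2 := smooth_deriv hf
    exact ⟨contDiffOn_const, fun _ => res (deriv f) h2.continuous, ih _ h2 _,
      fun _ _ => pr_eq (pr_res hf h1 h2.continuous)⟩

theorem smx_zero (n : ℕ) : SmX n (0 : V) := by
  induction n with
  | zero => trivial
  | succ n ih =>
    refine ⟨0, ih, ?_⟩
    have h1 : ((0 : V)) k0 = 0 := rfl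
    rw [map_zero, h1, map_zero, add_zero]

theorem smx_one (n : ℕ) : SmX n (1 : V) := by
  cases n with
  | zero => trivial
  | succ n =>
    have h1 : ((1 : V)) k0 = 1 := rfl
    exact ⟨0, smx_zero n, by rw [map_zero, h1, map_one, add_zero]⟩

/-! ### smoothness in time -/

section time
variable {J : Set ℝ} {j w : ℝ → V} {k : WithTop ℕ∞}

theorem cd_S2 (h1 : ContDiffOn ℝ k (fun t => sn (j t)) J)
    (h2 : ContDiffOn ℝ k (fun t => cn (j t)) J) : ContDiffOn ℝ k (fun t => S2 (j t)) J :=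
  (contDiffOn_const.mul h1).mul h2

theorem cd_C2 (h1 : ContDiffOn ℝ k (fun t => sn (j t)) J)
    (h2 : ContDiffOn ℝ k (fun t => cn (j t)) J) : ContDiffOn ℝ k (fun t => C2 (j t)) J :=
  (h2.mul h2).sub (h1.mul h1)

theorem cd_M1 (h1 : ContDiffOn ℝ k (fun t => sn (j t)) J)
    (h2 : ContDiffOn ℝ k (fun t => cn (j t)) J) (h3 : ContDiffOn ℝ k j J)
    (h4 : ContDiffOn ℝ k w J) : ContDiffOn ℝ k (fun t => M1 (j t) (w t)) J :=
  P.contDiff.comp_contDiffOn ((h4.mul (cd_C2 h1 h2)).mul (h3.mul h3))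

theorem cd_M2 (h1 : ContDiffOn ℝ k (fun t => sn (j t)) J)
    (h2 : ContDiffOn ℝ k (fun t => cn (j t)) J) (h3 : ContDiffOn ℝ k j J)
    (h4 : ContDiffOn ℝ k w J) : ContDiffOn ℝ k (fun t => M2 (j t) (w t)) J :=
  P.contDiff.comp_contDiffOn ((h4.mul (cd_S2 h1 h2)).mul (h3.mul h3))

theorem cd_eval {u : ℝ → V} (x : K) (h : ContDiffOn ℝ k u J) :
    ContDiffOn ℝ k (fun t => u t x) J :=
  (ContinuousMap.evalCLM ℝ x : V →L[ℝ] ℝ).contDiff.comp_contDiffOn h

theorem cd_Av (h1 : ContDiffOn ℝ k (fun t => sn (j t)) J)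
    (h2 : ContDiffOn ℝ k (fun t => cn (j t)) J) (h3 : ContDiffOn ℝ k j J)
    (h4 : ContDiffOn ℝ k w J) : ContDiffOn ℝ k (fun t => Av (j t) (w t)) J :=
  (cd_M1 h1 h2 h3 h4).sub ((algebraMapCLM ℝ V).contDiff.comp_contDiffOn
    (((cd_eval ka (cd_M1 h1 h2 h3 h4)).add (cd_eval kma (cd_M1 h1 h2 h3 h4))).div_const 2))

theorem cd_Ps (h1 : ContDiffOn ℝ k (fun t => sn (j t)) J)
    (h2 : ContDiffOn ℝ k (fun t => cn (j t)) J) (h3 : ContDiffOn ℝ k j J)
    (h4 : ContDiffOn ℝ k w J) : ContDiffOn ℝ k (fun t => Ps (j t) (w t)) J :=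
  (((cd_S2 h1 h2).mul (cd_Av h1 h2 h3 h4)).sub
    ((cd_C2 h1 h2).mul (cd_M2 h1 h2 h3 h4))).const_smul (1 / 2 : ℝ)

theorem cd_Pd (h1 : ContDiffOn ℝ k (fun t => sn (j t)) J)
    (h2 : ContDiffOn ℝ k (fun t => cn (j t)) J) (h3 : ContDiffOn ℝ k j J)
    (h4 : ContDiffOn ℝ k w J) : ContDiffOn ℝ k (fun t => Pd (j t) (w t)) J :=
  ((cd_C2 h1 h2).mul (cd_Av h1 h2 h3 h4)).add ((cd_S2 h1 h2).mul (cd_M2 h1 h2 h3 h4))

end time

section sol
variable {t₁ t₂ : ℝ} {U : ℝ → V × V × V}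

theorem d_sn (hU : VSol (Ioo t₁ t₂) U) {t : ℝ} (ht : t ∈ Ioo t₁ t₂) :
    HasDerivAt (fun s => sn (U s).1) (cn (U t).1 * (2 * Ps (U t).1 (U t).2.2)) t :=
  comp_deriv (g := ⟨Real.sin, Real.continuous_sin⟩) (g' := ⟨Real.cos, Real.continuous_cos⟩)
    (fun u => Real.hasDerivAt_sin u) (fun u v => Real.abs_cos_sub_cos_le u v) (id1 hU ht)

theorem d_cn (hU : VSol (Ioo t₁ t₂) U) {t : ℝ} (ht : t ∈ Ioo t₁ t₂) :
    HasDerivAt (fun s => cn (U s).1) (-(sn (U t).1) * (2 * Ps (U t).1 (U t).2.2)) t :=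
  comp_deriv (g := ⟨Real.cos, Real.continuous_cos⟩)
    (g' := ⟨fun x => -Real.sin x, Real.continuous_sin.neg⟩)
    (fun u => Real.hasDerivAt_cos u) (fun u v => by
      have := Real.abs_sin_sub_sin_le u v
      change |-Real.sin u - -Real.sin v| ≤ _
      rw [neg_sub_neg, abs_sub_comm]
      exact this) (id1 hU ht)

theorem cd_succ {J : Set ℝ} (hJ : UniqueDiffOn ℝ J) {k : ℕ} {u u' : ℝ → V}
    (h : ∀ t ∈ J, HasDerivAt u (u' t) t) (h' : ContDiffOn ℝ k u' J) :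
    ContDiffOn ℝ ((k + 1 : ℕ) : ℕ∞) u J := by
  have e : (((k + 1 : ℕ) : ℕ∞) : WithTop ℕ∞) = (k : WithTop ℕ∞) + 1 := by push_cast; rfl
  rw [e, contDiffOn_succ_iff_derivWithin hJ]
  refine ⟨fun t ht => (h t ht).differentiableAt.differentiableWithinAt, ?_, ?_⟩
  · intro h0
    exact absurd h0 (by simp)
  · exact h'.congr fun t ht => (h t ht).hasDerivWithinAt.derivWithin (hJ t ht)

theorem cd_all (hU : VSol (Ioo t₁ t₂) U) {J : Set ℝ} (hJ : UniqueDiffOn ℝ J)
    (hJs : J ⊆ Ioo t₁ t₂) (k : ℕ) :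
    ContDiffOn ℝ ((k : ℕ∞) : WithTop ℕ∞) (fun t => (U t).1) J ∧
    ContDiffOn ℝ ((k : ℕ∞) : WithTop ℕ∞) (fun t => (U t).2.1) J ∧
    ContDiffOn ℝ ((k : ℕ∞) : WithTop ℕ∞) (fun t => (U t).2.2) J ∧
    ContDiffOn ℝ ((k : ℕ∞) : WithTop ℕ∞) (fun t => sn (U t).1) J ∧
    ContDiffOn ℝ ((k : ℕ∞) : WithTop ℕ∞) (fun t => cn (U t).1) J := by
  have c1 := fun t (ht : t ∈ J) => d1 hU (hJs ht)
  have c2 := fun t (ht : t ∈ J) => d2 hU (hJs ht)
  have c3 := fun t (ht : t ∈ J) => d3 hU (hJs ht)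
  have c4 := fun t (ht : t ∈ J) => d_sn hU (hJs ht)
  have c5 := fun t (ht : t ∈ J) => d_cn hU (hJs ht)
  induction k with
  | zero =>
    have e : (((0 : ℕ) : ℕ∞) : WithTop ℕ∞) = 0 := rfl
    rw [e]
    refine ⟨?_, ?_, ?_, ?_, ?_⟩ <;> rw [contDiffOn_zero]
    · exact fun t ht => (c1 t ht).continuousAt.continuousWithinAt
    · exact fun t ht => (c2 t ht).continuousAt.continuousWithinAt
    · exact fun t ht => (c3 t ht).continuousAt.continuousWithinAt
    · exact fun t ht => (c4 t ht).continuousAt.continuousWithinAt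
    · exact fun t ht => (c5 t ht).continuousAt.continuousWithinAt
  | succ k ih =>
    obtain ⟨hj, hq, hw, hs, hc⟩ := ih
    have hps := cd_Ps (j := fun t => (U t).1) (w := fun t => (U t).2.2) hs hc hj hw
    have hpd := cd_Pd (j := fun t => (U t).1) (w := fun t => (U t).2.2) hs hc hj hw
    have hr : ContDiffOn ℝ ((k : ℕ∞) : WithTop ℕ∞) (fun t => R0v * (U t).1) J :=
      contDiffOn_const.mul hj
    refine ⟨cd_succ hJ c1 (hpd.mul hj), cd_succ hJ c2 ?_, cd_succ hJ c3 ?_, cd_succ hJ c4 ?_,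
      cd_succ hJ c5 ?_⟩
    · exact ((hw.sub (contDiffOn_const.mul hps)).mul hr).sub (hpd.mul hq)
    · exact ((hr.mul hs).add (hq.mul hc)).neg
    · exact hc.mul (contDiffOn_const.mul hps)
    · exact hs.neg.mul (contDiffOn_const.mul hps)

theorem cd_inf (hU : VSol (Ioo t₁ t₂) U) {J : Set ℝ} (hJ : UniqueDiffOn ℝ J)
    (hJs : J ⊆ Ioo t₁ t₂) :
    ContDiffOn ℝ ∞ (fun t => (U t).1) J ∧ ContDiffOn ℝ ∞ (fun t => (U t).2.1) J ∧
    ContDiffOn ℝ ∞ (fun t => (U t).2.2) J ∧ ContDiffOn ℝ ∞ (fun t => sn (U t).1) J ∧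
    ContDiffOn ℝ ∞ (fun t => cn (U t).1) J := by
  have h := cd_all hU hJ hJs
  refine ⟨?_, ?_, ?_, ?_, ?_⟩ <;> rw [contDiffOn_infty]
  · exact fun k => (h k).1
  · exact fun k => (h k).2.1
  · exact fun k => (h k).2.2.1
  · exact fun k => (h k).2.2.2.1
  · exact fun k => (h k).2.2.2.2

theorem all (hA : S_ALG) (hL : S_LIN) (hU : VSol (Ioo t₁ t₂) U) {s₁ s₂ : ℝ} (h1 : t₁ < s₁)
    (h2 : s₁ < 0) (h3 : 0 < s₂) (h4 : s₂ < t₂) (n : ℕ) :
    Dx (Icc s₁ s₂) n (fun t => (U t).1) ∧ Dx (Icc s₁ s₂) n (fun t => (U t).2.1) ∧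
    Dx (Icc s₁ s₂) n (fun t => (U t).2.2) ∧ Dx (Icc s₁ s₂) n (fun t => sn (U t).1) ∧
    Dx (Icc s₁ s₂) n (fun t => cn (U t).1) := by
  have hs : s₁ < s₂ := h2.trans h3
  have hJ : UniqueDiffOn ℝ (Icc s₁ s₂) := uniqueDiffOn_Icc hs
  have hJs : Icc s₁ s₂ ⊆ Ioo t₁ t₂ := fun x hx => ⟨h1.trans_le hx.1, hx.2.trans_lt h4⟩
  have hinf := cd_inf hU hJ hJs
  induction n with
  | zero => exact hinf
  | succ n ih =>
    obtain ⟨hj, hq, hw, hsn, hcn⟩ := ih
    obtain ⟨ij, iq, iw, isn, icn⟩ := hinf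
    have hjj := dx_mul hA hJ hj hj
    -- sine and cosine
    have hsn' : Dx (Icc s₁ s₂) (n + 1) (fun t => sn (U t).1) :=
      ⟨isn, fun t => cn (U t).1 * ((U t).1 * (U t).1), dx_mul hA hJ hcn hjj,
        fun t _ => pr_eq (pr_sn _)⟩
    have hcn' : Dx (Icc s₁ s₂) (n + 1) (fun t => cn (U t).1) :=
      ⟨icn, fun t => -(sn (U t).1) * ((U t).1 * (U t).1), dx_mul hA hJ (dx_neg hA hJ hsn) hjj,
        fun t _ => pr_eq (pr_cn _)⟩
    have hS2 : Dx (Icc s₁ s₂) (n + 1) (fun t => S2 (U t).1) := by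
      have h := dx_mul hA hJ (dx_two hA hJ hsn') hcn'
      exact h
    have hC2 : Dx (Icc s₁ s₂) (n + 1) (fun t => C2 (U t).1) :=
      dx_sub hA hJ (dx_mul hA hJ hcn' hcn') (dx_mul hA hJ hsn' hsn')
    have hle : n ≤ n + 1 := Nat.le_succ n
    have hM1 : Dx (Icc s₁ s₂) (n + 1) (fun t => M1 (U t).1 (U t).2.2) :=
      dx_P hA hJ (dx_mul hA hJ (dx_mul hA hJ hw (dx_mono hA hJ hle hC2)) hjj)
    have hM2 : Dx (Icc s₁ s₂) (n + 1) (fun t => M2 (U t).1 (U t).2.2) :=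
      dx_P hA hJ (dx_mul hA hJ (dx_mul hA hJ hw (dx_mono hA hJ hle hS2)) hjj)
    have hAv : Dx (Icc s₁ s₂) (n + 1) (fun t => Av (U t).1 (U t).2.2) :=
      dx_sub hA hJ hM1 (dx_alg (n + 1)
        (((cd_eval ka (dx_smooth hM1)).add (cd_eval kma (dx_smooth hM1))).div_const 2))
    have hPd : Dx (Icc s₁ s₂) (n + 1) (fun t => Pd (U t).1 (U t).2.2) :=
      dx_add hA hJ (dx_mul hA hJ hC2 hAv) (dx_mul hA hJ hS2 hM2)
    have hPs : Dx (Icc s₁ s₂) (n + 1) (fun t => Ps (U t).1 (U t).2.2) := by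
      have h := dx_mul hA hJ (dx_alg (J := Icc s₁ s₂) (n + 1) (c := fun _ => 1 / 2) contDiffOn_const)
        (dx_sub hA hJ (dx_mul hA hJ hS2 hAv) (dx_mul hA hJ hC2 hM2))
      have e : (fun t => algebraMap ℝ V (1 / 2) * (S2 (U t).1 * Av (U t).1 (U t).2.2 -
          C2 (U t).1 * M2 (U t).1 (U t).2.2)) = fun t => Ps (U t).1 (U t).2.2 := by
        funext t
        rw [← Algebra.smul_def]
        rfl
      rwa [e] at h
    have h0 : (0 : ℝ) ∈ Icc s₁ s₂ := ⟨h2.le, h3.le⟩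
    have z := dx_zero (J := Icc s₁ s₂) (n + 1)
    -- the function j
    have hj' : Dx (Icc s₁ s₂) (n + 1) (fun t => (U t).1) := by
      refine (hL (n + 1) s₁ s₂ 0 hs h0 (fun t => Pd (U t).1 (U t).2.2) (fun _ => 0) (fun _ => 0)
        (fun _ => 0) (fun _ => 0) (fun _ => 0) (fun t => (U t).1) (fun _ => 0) hPd z z z z z
        (fun t ht => ?_) (fun t ht => ?_) ?_ (smx_zero _)).1
      · rw [mul_zero, add_zero, add_zero]
        exact (d1 hU (hJs ht)).hasDerivWithinAt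
      · rw [zero_mul, zero_mul, add_zero, add_zero]
        exact hasDerivWithinAt_const _ _ _
      · rw [hU.ini]
        exact smx_one _
    have hr : Dx (Icc s₁ s₂) (n + 1) (fun t => R0v * (U t).1) :=
      dx_mul hA hJ (dx_res _ _ R₀ contDiff_R₀ contDiff_R₀.continuous) hj'
    -- the functions q, w
    have hqw := hL (n + 1) s₁ s₂ 0 hs h0 (fun t => -(Pd (U t).1 (U t).2.2))
      (fun t => R0v * (U t).1) (fun t => -(cn (U t).1)) (fun _ => 0)
      (fun t => -(4 * Ps (U t).1 (U t).2.2 * (R0v * (U t).1)))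
      (fun t => -(R0v * (U t).1 * sn (U t).1)) (fun t => (U t).2.1) (fun t => (U t).2.2)
      (dx_neg hA hJ hPd) hr (dx_neg hA hJ hcn') z
      (dx_neg hA hJ (dx_mul hA hJ (dx_four hA hJ hPs) hr))
      (dx_neg hA hJ (dx_mul hA hJ hr hsn'))
      (fun t ht => by
        refine (d2 hU (hJs ht)).hasDerivWithinAt.congr_deriv ?_
        ring)
      (fun t ht => by
        refine (d3 hU (hJs ht)).hasDerivWithinAt.congr_deriv ?_
        ring)
      (by
        rw [hU.ini]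
        exact smx_res _ _ (smooth_deriv contDiff_R₀) (smooth_deriv contDiff_R₀).continuous)
      (by
        rw [hU.ini]
        exact smx_res _ _ contDiff_w₀ contDiff_w₀.continuous)
    exact ⟨hj', hqw.1, hqw.2, hsn', hcn'⟩

end sol

/-- regularity of the solutions in the label -/
theorem main (hA : S_ALG) (hL : S_LIN) (_hI : S_ID) : S_REG := by
  intro t₁ t₂ _ _ U hU s₁ s₂ h1 h2 h3 h4 n
  obtain ⟨hj, hq, hw, -, -⟩ := all hA hL hU h1 h2 h3 h4 n
  have hJ : UniqueDiffOn ℝ (Icc s₁ s₂) := uniqueDiffOn_Icc (h2.trans h3)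
  exact ⟨hj, hq, hw, dx_mono hA hJ (Nat.le_succ n) (dx_P hA hJ (dx_mul hA hJ hj hj))⟩

end

end Pool.Agent.N982.BQ.Reg
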